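import Pool.Agent.Lib_helper34.GCE.Defs

/-!
# GCE block C1: sums of a non-principal Jacobi character
-/

set_option autoImplicit false

namespace Pool.Agent.Lib_helper34.GCE

open NumberTheorySymbols

/-- The Jacobi symbol as a multiplicative character. -/
noncomputable def c1_chi (D : ℕ) [NeZero D] : MulChar (ZMod D) ℤ where
  toFun x := jacobiSym (x.val : ℤ) D
  map_one' := by
    rcases Nat.lt_or_ge 1 D with h | h
    · have : Fact (1 < D) := ⟨h⟩
      rw [ZMod.val_one, Nat.cast_one, jacobiSym.one_left]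
    · have hD : D = 1 := le_antisymm h (Nat.one_le_iff_ne_zero.2 (NeZero.ne D))
      subst hD
      rw [jacobiSym.one_right]
  map_mul' x y := by
    rw [← jacobiSym.mul_left, jacobiSym.mod_left ((x.val : ℤ) * y.val), ZMod.val_mul]
    push_cast
    rfl
  map_nonunit' x hx := by
    show jacobiSym (x.val : ℤ) D = 0
    rw [jacobiSym.eq_zero_iff_not_coprime]
    intro h
    apply hx
    have h2 : Nat.Coprime x.val D := by
      rw [Int.gcd_natCast_natCast] at h
      exact h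
    have h3 := (ZMod.isUnit_iff_coprime x.val D).2 h2
    rwa [ZMod.natCast_zmod_val] at h3

theorem c1_nat (D : ℕ) [NeZero D] (m : ℕ) : c1_chi D (m : ZMod D) = jacobiSym (m : ℤ) D := by
  show jacobiSym (((m : ZMod D).val : ℕ) : ℤ) D = _
  rw [ZMod.val_natCast, jacobiSym.mod_left (m : ℤ)]
  push_cast
  rfl

theorem c1_ex {D : ℕ} (hD : Odd D) (hns : ¬ IsSquare D) : ∃ x : ℕ, jacobiSym (x : ℤ) D = -1 := by
  have hD0 : D ≠ 0 := by rintro rfl; exact absurd hD (by decide)
  obtain ⟨a, b, hab, ha⟩ := Nat.sq_mul_squarefree D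
  have ha1 : a ≠ 1 := by
    rintro rfl
    apply hns
    rw [mul_one] at hab
    exact ⟨b, by rw [← hab, sq]⟩
  obtain ⟨p, hp, hpa⟩ := Nat.exists_prime_and_dvd ha1
  obtain ⟨a', rfl⟩ := hpa
  have hpa' : Nat.Coprime p a' := (Nat.squarefree_mul_iff.1 ha).1
  have hb0 : b ≠ 0 := by rintro rfl; apply hD0; rw [← hab]; simp
  have ha'0 : a' ≠ 0 := by rintro rfl; apply hD0; rw [← hab]; simp
  have hpD : p ∣ D := ⟨b ^ 2 * a', by rw [← hab]; ring⟩
  have hp2 : p ≠ 2 := by
    rintro rfl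
    exact (Nat.not_even_iff_odd.2 hD) (even_iff_two_dvd.2 hpD)
  have hfp : Fact p.Prime := ⟨hp⟩
  obtain ⟨e, E, hE, hDE⟩ := Nat.exists_eq_pow_mul_and_not_dvd hD0 p hp.ne_one
  have hcop : Nat.Coprime p E := (Nat.Prime.coprime_iff_not_dvd hp).2 hE
  have ha'E : a' ∣ E := by
    have h1 : a' ∣ p ^ e * E := by
      rw [← hDE, ← hab]
      exact ⟨b ^ 2 * p, by ring⟩
    exact (Nat.Coprime.pow_right e hpa'.symm).dvd_of_dvd_mul_left h1
  obtain ⟨r, hr⟩ := FiniteField.exists_nonsquare (F := ZMod p) (by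
    rw [ZMod.ringChar_zmod_n]
    exact hp2)
  obtain ⟨x, hx1, hx2⟩ := Nat.chineseRemainder hcop r.val 1
  have hxp : jacobiSym (x : ℤ) p = -1 := by
    rw [← jacobiSym.legendreSym.to_jacobiSym, legendreSym.eq_neg_one_iff]
    have : (x : ZMod p) = r := by
      have h3 := (ZMod.natCast_eq_natCast_iff _ _ _).2 hx1
      rw [h3, ZMod.natCast_zmod_val]
    push_cast
    rwa [this]
  have hxa' : jacobiSym (x : ℤ) a' = 1 := by
    have h4 : x ≡ 1 [MOD a'] := hx2.of_dvd ha'E
    rw [jacobiSym.mod_left' (a₂ := 1), jacobiSym.one_left]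
    exact_mod_cast h4
  have hxcp : Nat.Coprime x p := by
    by_contra hcon
    have h5 : p ∣ x := by
      rcases (Nat.coprime_or_dvd_of_prime hp x) with h | h
      · exact absurd h.symm hcon
      · exact h
    have h6 : jacobiSym (x : ℤ) p = 0 := by
      rw [jacobiSym.eq_zero_iff]
      refine ⟨hp.ne_zero, fun h7 => hcon ?_⟩
      rw [Int.gcd_natCast_natCast] at h7
      exact h7
    rw [h6] at hxp
    exact absurd hxp (by decide)
  have hxcE : Nat.Coprime x E := by
    have : Nat.gcd x E = Nat.gcd 1 E := Nat.ModEq.gcd_eq hx2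
    rw [Nat.Coprime, this, Nat.gcd_one_left]
  have hxcD : Nat.Coprime x D := by
    rw [hDE]
    exact Nat.Coprime.mul_right (Nat.Coprime.pow_right e hxcp) hxcE
  have hxb : jacobiSym (x : ℤ) (b ^ 2) = 1 := by
    rw [jacobiSym.pow_right]
    apply jacobiSym.sq_one
    rw [Int.gcd_natCast_natCast]
    refine Nat.Coprime.coprime_dvd_right ?_ hxcD
    exact ⟨b * (p * a'), by rw [← hab]; ring⟩
  refine ⟨x, ?_⟩
  rw [← hab, jacobiSym.mul_right' _ (pow_ne_zero 2 hb0) (mul_ne_zero hp.ne_zero ha'0),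
    jacobiSym.mul_right' _ hp.ne_zero ha'0, hxb, hxp, hxa']
  norm_num

theorem c1_period {D : ℕ} (hD : Odd D) (hns : ¬ IsSquare D) (a : ℕ) :
    ∑ m ∈ Finset.Ico a (a + D), jacobiSym (m : ℤ) D = 0 := by
  have hD0 : D ≠ 0 := by rintro rfl; exact absurd hD (by decide)
  have : NeZero D := ⟨hD0⟩
  have hne : c1_chi D ≠ 1 := by
    intro h
    obtain ⟨x, hx⟩ := c1_ex hD hns
    rw [← c1_nat, h] at hx
    by_cases hu : IsUnit (x : ZMod D)
    · rw [MulChar.one_apply hu] at hx
      exact absurd hx (by decide)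
    · rw [MulChar.map_nonunit _ hu] at hx
      exact absurd hx (by decide)
  have h0 := MulChar.sum_eq_zero_of_ne_one hne
  rw [← h0]
  have h1 : ∑ m ∈ Finset.Ico a (a + D), jacobiSym (m : ℤ) D =
      ∑ i ∈ Finset.range D, c1_chi D ((a : ZMod D) + (i : ZMod D)) := by
    rw [Finset.sum_Ico_eq_sum_range, Nat.add_sub_cancel_left]
    refine Finset.sum_congr rfl fun i _ => ?_
    rw [← c1_nat]
    push_cast
    rfl
  rw [h1]
  have h2 : ∑ i ∈ Finset.range D, c1_chi D ((a : ZMod D) + (i : ZMod D)) =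
      ∑ x : ZMod D, c1_chi D ((a : ZMod D) + x) := by
    refine Finset.sum_nbij' (fun i => (i : ZMod D)) (fun x => x.val) ?_ ?_ ?_ ?_ ?_
    · intro i _; exact Finset.mem_univ _
    · intro x _; exact Finset.mem_range.2 (ZMod.val_lt x)
    · intro i hi
      exact ZMod.val_cast_of_lt (Finset.mem_range.1 hi)
    · intro x _; exact ZMod.natCast_zmod_val x
    · intro i _; rfl
  rw [h2]
  exact Equiv.sum_comp (Equiv.addLeft (a : ZMod D)) (fun x => c1_chi D x)

theorem c1_le {D : ℕ} (hD : Odd D) (hns : ¬ IsSquare D) (n : ℕ) : ∀ a b : ℕ, b - a ≤ n →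
    |∑ m ∈ Finset.Ico a b, jacobiSym (m : ℤ) D| ≤ D := by
  have hD0 : 0 < D := by
    rcases Nat.eq_zero_or_pos D with rfl | h
    · exact absurd hD (by decide)
    · exact h
  induction n using Nat.strong_induction_on with
  | _ n ih =>
    intro a b hab
    by_cases h : b - a < D
    · have h1 : ∀ m ∈ Finset.Ico a b, |jacobiSym (m : ℤ) D| ≤ 1 := by
        intro m _
        rcases jacobiSym.trichotomy (m : ℤ) D with h2 | h2 | h2 <;> rw [h2] <;> decide
      calc |∑ m ∈ Finset.Ico a b, jacobiSym (m : ℤ) D| ≤ ∑ m ∈ Finset.Ico a b, |jacobiSym (m : ℤ) D| :=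
            Finset.abs_sum_le_sum_abs _ _
        _ ≤ ∑ m ∈ Finset.Ico a b, 1 := Finset.sum_le_sum h1
        _ = ((b - a : ℕ) : ℤ) := by simp
        _ ≤ D := by exact_mod_cast h.le
    · push Not at h
      have h3 : a + D ≤ b := by omega
      rw [← Finset.sum_Ico_consecutive _ (Nat.le_add_right a D) h3, c1_period hD hns, zero_add]
      exact ih (b - (a + D)) (by omega) (a + D) b le_rfl

/-- C1. Sums of a non-principal Jacobi character. -/
theorem jac_sum_pr {D : ℕ} (hD : Odd D) (hns : ¬ IsSquare D) (a b : ℕ) :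
    |∑ m ∈ Finset.Ico a b, ((jacobiSym (m : ℤ) D : ℤ) : ℝ)| ≤ D := by
  have h := c1_le hD hns (b - a) a b le_rfl
  have h2 : |((∑ m ∈ Finset.Ico a b, jacobiSym (m : ℤ) D : ℤ) : ℝ)| ≤ ((D : ℤ) : ℝ) := by
    rw [← Int.cast_abs]
    exact_mod_cast h
  push_cast at h2
  exact h2

end Pool.Agent.Lib_helper34.GCE
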