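import Mathlib
import Pool.Agent.Lib_helper34.GCE.Defs

/-!
# GCE, block C3: a cubic polynomial whose discriminant is not a square has a root
-/

set_option autoImplicit false

namespace Pool.Agent.Lib_helper34.GCE

open Polynomial

/-- an element fixed by Frobenius is in the prime field -/
theorem c3_fixed {p : ℕ} [Fact p.Prime] {K : Type*} [Field K] [Algebra (ZMod p) K] [CharP K p]
    {w : K} (hw : w ^ p = w) : ∃ w' : ZMod p, algebraMap (ZMod p) K w' = w := by
  have h := (Subfield.mem_bot_iff_pow_eq_self K p).2 hw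
  rw [← ZMod.fieldRange_castHom_eq_bot p] at h
  obtain ⟨w', hw'⟩ := h
  refine ⟨w', ?_⟩
  rw [← hw']
  congr 1
  exact Subsingleton.elim _ _

theorem cubic_root_pr {p : ℕ} [Fact p.Prime] (hp : p ≠ 2) (a b c : ZMod p)
    (h : ¬ IsSquare (a ^ 2 * b ^ 2 - 4 * b ^ 3 - 4 * a ^ 3 * c - 27 * c ^ 2 + 18 * a * b * c)) :
    ∃ x : ZMod p, x ^ 3 + a * x ^ 2 + b * x + c = 0 := by
  have _ := hp
  by_contra hno
  push Not at hno
  apply h
  set f : (ZMod p)[X] := X ^ 3 + C a * X ^ 2 + C b * X + C c with hf
  have hdeg : f.natDegree = 3 := by rw [hf]; compute_degree!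
  have hmon : f.Monic := by rw [hf]; monicity!
  have hroots : f.roots = 0 := by
    rw [Multiset.eq_zero_iff_forall_notMem]
    intro x hx
    have h1 := (mem_roots hmon.ne_zero).1 hx
    have h2 : x ^ 3 + a * x ^ 2 + b * x + c = 0 := by
      simpa [hf, IsRoot] using h1
    exact hno x h2
  have hirr : Irreducible f :=
    (hmon.irreducible_iff_roots_eq_zero_of_degree_le_three (by omega) (by omega)).2 hroots
  have : Fact (Irreducible f) := ⟨hirr⟩
  set K := AdjoinRoot f
  have : CharP K p := charP_of_injective_algebraMap (algebraMap (ZMod p) K).injective p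
  set x : K := AdjoinRoot.root f with hx
  have hfin : Module.finrank (ZMod p) K = 3 := by
    rw [(AdjoinRoot.powerBasis hmon.ne_zero).finrank, AdjoinRoot.powerBasis_dim, hdeg]
  have : FiniteDimensional (ZMod p) K := (AdjoinRoot.powerBasis hmon.ne_zero).finite
  have : Finite K := Module.finite_of_finite (ZMod p)
  let _ : Fintype K := Fintype.ofFinite K
  have hcard : Fintype.card K = p ^ 3 := by
    rw [Module.card_eq_pow_finrank (K := ZMod p) (V := K), ZMod.card, hfin]
  have hx3 : ∀ w : K, ((w ^ p) ^ p) ^ p = w := by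
    intro w
    have := FiniteField.pow_card w
    rw [hcard] at this
    rw [← pow_mul, ← pow_mul, show p * (p * p) = p ^ 3 by ring]
    exact this
  set y : K := x ^ p with hy
  set z : K := y ^ p with hz
  have hzp : z ^ p = x := hx3 x
  have hadd : ∀ u v : K, (u + v) ^ p = u ^ p + v ^ p := fun u v => add_pow_char u v p
  have hsub : ∀ u v : K, (u - v) ^ p = u ^ p - v ^ p := fun u v => sub_pow_char u v
  obtain ⟨e1, he1⟩ := c3_fixed (p := p) (w := x + y + z) (by
    rw [hadd, hadd, ← hy, ← hz, hzp]; ring)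
  obtain ⟨e2, he2⟩ := c3_fixed (p := p) (w := x * y + y * z + z * x) (by
    rw [hadd, hadd, mul_pow, mul_pow, mul_pow, ← hy, ← hz, hzp]; ring)
  obtain ⟨e3, he3⟩ := c3_fixed (p := p) (w := x * y * z) (by
    rw [mul_pow, mul_pow, ← hy, ← hz, hzp]; ring)
  obtain ⟨e, he⟩ := c3_fixed (p := p) (w := (x - y) * (y - z) * (z - x)) (by
    rw [mul_pow, mul_pow, hsub, hsub, hsub, ← hy, ← hz, hzp]; ring)
  set g : (ZMod p)[X] := X ^ 3 + C (-e1) * X ^ 2 + C e2 * X + C (-e3) with hg
  have hgmon : g.Monic := by rw [hg]; monicity!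
  have hgdeg : g.natDegree = 3 := by rw [hg]; compute_degree!
  have hgx : aeval x g = 0 := by
    rw [hg]
    simp only [map_add, map_mul, map_pow, aeval_X, aeval_C, map_neg]
    rw [he1, he2, he3]
    ring
  have hdvd : f ∣ g := by
    rw [← AdjoinRoot.mk_eq_zero]
    rwa [AdjoinRoot.aeval_eq] at hgx
  have hfg : f = g := by
    exact (eq_of_monic_of_dvd_of_natDegree_le hmon hgmon hdvd (by omega)).symm
  have ca : a = -e1 := by
    have := congrArg (fun q => coeff q 2) hfg
    simpa [hf, hg, coeff_X, coeff_C] using this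
  have cb : b = e2 := by
    have := congrArg (fun q => coeff q 1) hfg
    simpa [hf, hg, coeff_X, coeff_C] using this
  have cc : c = -e3 := by
    have := congrArg (fun q => coeff q 0) hfg
    simpa [hf, hg, coeff_X, coeff_C] using this
  refine ⟨e, (algebraMap (ZMod p) K).injective ?_⟩
  rw [ca, cb, cc]
  simp only [map_add, map_sub, map_mul, map_pow, map_neg, map_ofNat]
  rw [he1, he2, he3, he]
  ring

end Pool.Agent.Lib_helper34.GCE
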