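import Pool.Agent.Lib_helper34.GCE.Defs
import Pool.Agent.Lib_helper72.GC.TreeG

/-!
# GCE, block G1: elements of the order in a cube of side `n^2`
-/

set_option autoImplicit false

namespace Pool.Agent.Lib_helper34.GCE

open Pool.Agent.Lib_helper83.CS Pool.Agent.Lib_helper72.GC

theorem g1_card (R : ℝ) (hR : 0 ≤ R) :
    ((Finset.Icc (-⌊R⌋) ⌊R⌋).card : ℝ) ≤ 2 * R + 1 := by
  have h0 : 0 ≤ ⌊R⌋ := Int.floor_nonneg.mpr hR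
  have h1 : (⌊R⌋ : ℝ) ≤ R := Int.floor_le R
  rw [Int.card_Icc]
  have h2 : ((⌊R⌋ + 1 - -⌊R⌋).toNat : ℤ) = 2 * ⌊R⌋ + 1 := by
    rw [Int.toNat_of_nonneg (by omega)]; ring
  have h3 : ((⌊R⌋ + 1 - -⌊R⌋).toNat : ℝ) = 2 * (⌊R⌋ : ℝ) + 1 := by
    have h4 : (((⌊R⌋ + 1 - -⌊R⌋).toNat : ℤ) : ℝ) = ((2 * ⌊R⌋ + 1 : ℤ) : ℝ) := by rw [h2]
    rw [Int.cast_natCast] at h4
    rw [h4]; push_cast; ring
  rw [h3]; linarith

theorem g1_mem (R : ℝ) (m : ℤ) (h : |(m : ℝ)| ≤ R) : m ∈ Finset.Icc (-⌊R⌋) ⌊R⌋ := by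
  rw [Finset.mem_Icc]
  obtain ⟨h1, h2⟩ := abs_le.mp h
  constructor
  · have : (-m : ℤ) ≤ ⌊R⌋ := Int.le_floor.mpr (by push_cast; linarith)
    omega
  · exact Int.le_floor.mpr h2

theorem g1_floor (y R : ℝ) (b : ℤ) (h : |(b : ℝ) + y| ≤ R) : |((b + ⌊y⌋ : ℤ) : ℝ)| ≤ R + 1 := by
  have h1 := Int.floor_le y
  have h2 := Int.lt_floor_add_one y
  obtain ⟨h3, h4⟩ := abs_le.mp h
  push_cast
  rw [abs_le]
  constructor <;> linarith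

theorem g1_bounds (N x0 x1 x2 θ0 θ1 θ2 : ℝ) (a b c : ℤ) (hN : 10 ^ 20 ≤ N)
    (d01 : N * (1 - 1 / 10 ^ 10) ≤ |θ0 - θ1|) (d02 : N * (1 - 1 / 10 ^ 10) ≤ |θ0 - θ2|)
    (d12 : 1 - 1 / 10 ^ 10 ≤ |θ1 - θ2|)
    (e0 : x0 = a + b * θ0 + c * θ0 ^ 2) (e1 : x1 = a + b * θ1 + c * θ1 ^ 2)
    (e2 : x2 = a + b * θ2 + c * θ2 ^ 2) (h0 : |x0| ≤ N ^ 2) (h1 : |x1| ≤ N ^ 2)
    (h2 : |x2| ≤ N ^ 2) :
    |(c : ℝ)| ≤ 2.01 * N ∧ |(b : ℝ) + c * (θ0 + θ1)| ≤ 2.001 * N ∧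
      |(a : ℝ) + (b * θ1 + c * θ1 ^ 2)| ≤ N ^ 2 := by
  have hN0 : 0 < N := by linarith [show (0 : ℝ) < 10 ^ 20 from by norm_num]
  have hb : |(b : ℝ) + c * (θ0 + θ1)| ≤ 2.001 * N := by
    have k1 : |θ0 - θ1| * |(b : ℝ) + c * (θ0 + θ1)| ≤ 2 * N ^ 2 := by
      rw [← abs_mul]
      have : (θ0 - θ1) * ((b : ℝ) + c * (θ0 + θ1)) = x0 - x1 := by rw [e0, e1]; ring
      rw [this]
      calc |x0 - x1| ≤ |x0| + |x1| := abs_sub _ _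
        _ ≤ 2 * N ^ 2 := by linarith
    have k2 : N * (1 - 1 / 10 ^ 10) * |(b : ℝ) + c * (θ0 + θ1)| ≤ 2 * N ^ 2 :=
      le_trans (mul_le_mul_of_nonneg_right d01 (abs_nonneg _)) k1
    have k3 : (1 - 1 / 10 ^ 10) * |(b : ℝ) + c * (θ0 + θ1)| ≤ 2 * N := by
      have : N * ((1 - 1 / 10 ^ 10) * |(b : ℝ) + c * (θ0 + θ1)|) ≤ N * (2 * N) := by nlinarith
      exact le_of_mul_le_mul_left this hN0
    norm_num at k3 ⊢
    nlinarith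
  have hb2 : |(b : ℝ) + c * (θ1 + θ2)| ≤ 2.001 * N ^ 2 := by
    have k1 : |θ1 - θ2| * |(b : ℝ) + c * (θ1 + θ2)| ≤ 2 * N ^ 2 := by
      rw [← abs_mul]
      have : (θ1 - θ2) * ((b : ℝ) + c * (θ1 + θ2)) = x1 - x2 := by rw [e1, e2]; ring
      rw [this]
      calc |x1 - x2| ≤ |x1| + |x2| := abs_sub _ _
        _ ≤ 2 * N ^ 2 := by linarith
    have k2 : (1 - 1 / 10 ^ 10) * |(b : ℝ) + c * (θ1 + θ2)| ≤ 2 * N ^ 2 :=
      le_trans (mul_le_mul_of_nonneg_right d12 (abs_nonneg _)) k1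
    norm_num at k2 ⊢
    nlinarith
  refine ⟨?_, hb, ?_⟩
  · have k1 : |(c : ℝ)| * |θ0 - θ2| ≤ 2.001 * N + 2.001 * N ^ 2 := by
      rw [← abs_mul]
      have : (c : ℝ) * (θ0 - θ2) = ((b : ℝ) + c * (θ0 + θ1)) - ((b : ℝ) + c * (θ1 + θ2)) := by ring
      rw [this]
      exact le_trans (abs_sub _ _) (add_le_add hb hb2)
    have k2 : |(c : ℝ)| * (N * (1 - 1 / 10 ^ 10)) ≤ 2.001 * N + 2.001 * N ^ 2 :=
      le_trans (mul_le_mul_of_nonneg_left d02 (abs_nonneg _)) k1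
    have k3 : |(c : ℝ)| * (1 - 1 / 10 ^ 10) ≤ 2.001 + 2.001 * N := by
      have : N * (|(c : ℝ)| * (1 - 1 / 10 ^ 10)) ≤ N * (2.001 + 2.001 * N) := by nlinarith
      exact le_of_mul_le_mul_left this hN0
    norm_num at k3 hN ⊢
    nlinarith
  · have : (a : ℝ) + (b * θ1 + c * θ1 ^ 2) = x1 := by rw [e1]; ring
    rw [this]; exact h1

theorem cube_O_pr (F : Frame) (hn : 10 ^ 20 ≤ |F.n|) (S : Finset V)
    (hS : ∀ x ∈ S, x ∈ O F.θ ∧ ∀ i, |x i| ≤ (F.n : ℝ) ^ 2) :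
    (S.card : ℝ) ≤ 100 * (F.n : ℝ) ^ 4 := by
  classical
  obtain ⟨hN, a1, a2, b1, b2, c1, c2⟩ := F1_dist_h92 F hn
  set N := |(F.n : ℝ)| with hNdef
  have hn2 : (F.n : ℝ) ^ 2 = N ^ 2 := by rw [hNdef, sq_abs]
  have hn4 : (F.n : ℝ) ^ 4 = N ^ 4 := by
    rw [show (F.n : ℝ) ^ 4 = ((F.n : ℝ) ^ 2) ^ 2 from by ring, hn2]; ring
  have hN0 : 0 < N := by linarith [show (0 : ℝ) < 10 ^ 20 from by norm_num]
  have hcoef : ∀ x : V, ∃ p : ℤ × ℤ × ℤ, x ∈ S →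
      ∀ i, x i = p.1 + p.2.1 * F.θ i + p.2.2 * F.θ i ^ 2 := by
    intro x
    by_cases hx : x ∈ S
    · obtain ⟨a, b, c, h⟩ := (hS x hx).1
      exact ⟨(a, b, c), fun _ => h⟩
    · exact ⟨(0, 0, 0), fun h => absurd h hx⟩
  choose p hp using hcoef
  set θ0 := F.θ (F.e 0)
  set θ1 := F.θ (F.e 1)
  set θ2 := F.θ (F.e 2)
  let g : V → ℤ × ℤ × ℤ := fun x =>
    ((p x).2.2, (p x).2.1 + ⌊((p x).2.2 : ℝ) * (θ0 + θ1)⌋,
      (p x).1 + ⌊((p x).2.1 : ℝ) * θ1 + ((p x).2.2 : ℝ) * θ1 ^ 2⌋)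
  let T : Finset (ℤ × ℤ × ℤ) := Finset.Icc (-⌊2.01 * N⌋) ⌊2.01 * N⌋ ×ˢ
    (Finset.Icc (-⌊2.001 * N + 1⌋) ⌊2.001 * N + 1⌋ ×ˢ Finset.Icc (-⌊N ^ 2 + 1⌋) ⌊N ^ 2 + 1⌋)
  have hmaps : ∀ x ∈ S, g x ∈ T := by
    intro x hx
    obtain ⟨h1, h2, h3⟩ := g1_bounds N (x (F.e 0)) (x (F.e 1)) (x (F.e 2)) θ0 θ1 θ2
      (p x).1 (p x).2.1 (p x).2.2 hN a1 b1 c1 (hp x hx _) (hp x hx _) (hp x hx _)
      (hn2 ▸ (hS x hx).2 _) (hn2 ▸ (hS x hx).2 _) (hn2 ▸ (hS x hx).2 _)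
    simp only [T, g, Finset.mem_product]
    exact ⟨g1_mem _ _ h1, g1_mem _ _ (g1_floor _ _ _ h2), g1_mem _ _ (g1_floor _ _ _ h3)⟩
  have hinj : Set.InjOn g S := by
    intro x hx y hy hxy
    simp only [g, Prod.mk.injEq] at hxy
    obtain ⟨h1, h2, h3⟩ := hxy
    rw [h1] at h2 h3
    have h4 : (p x).2.1 = (p y).2.1 := by omega
    rw [h4] at h3
    have h5 : (p x).1 = (p y).1 := by omega
    funext i
    rw [hp x hx i, hp y hy i, h1, h4, h5]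
  have hcard := Finset.card_le_card_of_injOn g hmaps hinj
  have hT : (T.card : ℝ) ≤ (2 * (2.01 * N) + 1) * ((2 * (2.001 * N + 1) + 1) *
      (2 * (N ^ 2 + 1) + 1)) := by
    simp only [T, Finset.card_product]
    push_cast
    refine mul_le_mul (g1_card _ (by positivity)) (mul_le_mul (g1_card _ (by positivity))
      (g1_card _ (by positivity)) (by positivity) (by positivity)) (by positivity) (by positivity)
  rw [hn4]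
  have hc2 : (S.card : ℝ) ≤ (T.card : ℝ) := by exact_mod_cast hcard
  refine hc2.trans (hT.trans ?_)
  have hN1 : (100 : ℝ) ≤ N := by linarith [show (100 : ℝ) ≤ 10 ^ 20 from by norm_num]
  have q1 : 2 * (2.01 * N) + 1 ≤ 5 * N := by norm_num; linarith
  have q2 : 2 * (2.001 * N + 1) + 1 ≤ 5 * N := by norm_num; linarith
  have q3 : 2 * (N ^ 2 + 1) + 1 ≤ 4 * N ^ 2 := by nlinarith
  calc _ ≤ (5 * N) * ((5 * N) * (4 * N ^ 2)) := by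
        refine mul_le_mul q1 (mul_le_mul q2 q3 (by positivity) (by positivity))
          (by positivity) (by positivity)
    _ = 100 * N ^ 4 := by ring


end Pool.Agent.Lib_helper34.GCE
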