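import Pool.Agent.Lib_helper34.GCE.Defs
import Pool.Agent.Lib_helper72.GC.TreeG

/-!
# GCE, block G3: pigeonhole
-/

set_option autoImplicit false

namespace Pool.Agent.Lib_helper34.GCE

open Pool.Agent.Lib_helper83.CS Pool.Agent.Lib_helper72.GC

theorem g3_floor {a b : ℝ} (ha : 0 ≤ a) (hb : 0 ≤ b) (h : ⌊a⌋₊ = ⌊b⌋₊) : |a - b| ≤ 1 := by
  have h1 := Nat.floor_le ha
  have h2 := Nat.lt_floor_add_one a
  have h3 := Nat.floor_le hb
  have h4 := Nat.lt_floor_add_one b
  rw [h] at h1 h2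
  rw [abs_le]
  constructor <;> linarith

/-- G3. Pigeonhole. -/
theorem pig_pr (S : Finset V) (B : V) (hB : ∀ i, 0 < B i) (hS : ∀ x ∈ S, ∀ i, |x i| ≤ B i)
    (K : ℕ) (hK : 1 ≤ K) (hc : (K + 1) ^ 3 < S.card) :
    ∃ x ∈ S, ∃ y ∈ S, x ≠ y ∧ ∀ i, |x i - y i| ≤ 2 * B i / K := by
  classical
  have hK0 : (0 : ℝ) < K := by exact_mod_cast hK
  set f : V → (Fin 3 → ℕ) := fun x i => ⌊(x i + B i) * K / (2 * B i)⌋₊ with hf
  have hmaps : Set.MapsTo f (S : Set V)
      (Fintype.piFinset (fun _ : Fin 3 => Finset.range (K + 1)) : Finset (Fin 3 → ℕ)) := by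
    intro x hx
    rw [Finset.mem_coe, Fintype.mem_piFinset]
    intro i
    rw [Finset.mem_range, hf]
    have h1 := abs_le.mp (hS x (by simpa using hx) i)
    have h2 := hB i
    have h3 : (x i + B i) * K / (2 * B i) ≤ K := by
      rw [div_le_iff₀ (by linarith)]
      nlinarith
    have h4 := Nat.floor_le_floor h3
    rw [Nat.floor_natCast] at h4
    exact Nat.lt_succ_of_le h4
  have hcard : (Fintype.piFinset (fun _ : Fin 3 => Finset.range (K + 1))).card < S.card := by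
    rw [Fintype.card_piFinset]
    simpa using hc
  obtain ⟨x, hx, y, hy, hne, he⟩ :=
    Finset.exists_ne_map_eq_of_card_lt_of_maps_to hcard hmaps
  refine ⟨x, hx, y, hy, hne, fun i => ?_⟩
  have h1 := abs_le.mp (hS x hx i)
  have h1' := abs_le.mp (hS y hy i)
  have h2 := hB i
  have he' : ⌊(x i + B i) * K / (2 * B i)⌋₊ = ⌊(y i + B i) * K / (2 * B i)⌋₊ := congrFun he i
  have hx0 : 0 ≤ (x i + B i) * K / (2 * B i) :=
    div_nonneg (mul_nonneg (by linarith) hK0.le) (by linarith)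
  have hy0 : 0 ≤ (y i + B i) * K / (2 * B i) :=
    div_nonneg (mul_nonneg (by linarith) hK0.le) (by linarith)
  have h3 := g3_floor hx0 hy0 he'
  have h4 : (x i + B i) * K / (2 * B i) - (y i + B i) * K / (2 * B i)
      = (x i - y i) * (K / (2 * B i)) := by ring
  have h5 : (0 : ℝ) < K / (2 * B i) := div_pos hK0 (by linarith)
  rw [h4, abs_mul, abs_of_pos h5] at h3
  have h6 : 2 * B i / K = 1 / (K / (2 * B i)) := by
    rw [one_div, inv_div]
  rw [h6, le_div_iff₀ h5]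
  exact h3


end Pool.Agent.Lib_helper34.GCE
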