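import Pool.Agent.Lib_helper72.GC.B_M1
import Pool.Agent.Lib_helper72.GC.B_C4
import Pool.Agent.Lib_helper34.GCE.Defs

/-!
# GCE, block G5: the index of `δ O` in `Lam` is `d |Nm δ|`
-/

set_option autoImplicit false

namespace Pool.Agent.Lib_helper34.GCE

open Pool.Agent.Lib_helper83.CS Pool.Agent.Lib_helper72.GC

/-- the lattice of a label is spanned by a frame of covolume `1 / d` -/
theorem g5_basis (F : Frame) (hs : F.s = -1) (ht : F.t = -1) {d c : ℤ}
    (hl : IsLab (-1) (-1) F.n d c) :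
    ∃ g : Fin 3 → V, Span g = Lam F.θ d c ∧
      |(Matrix.of fun j i => g j i).det| = 1 / (d : ℝ) * |Vd F.θ| := by
  obtain ⟨hd, a', ha'⟩ := hl
  have hX : IsCS (X (-a') ((c - 1) * (F.n - c - 1)) c d (F.n - c)) := by
    have e1 : (X (-a') ((c - 1) * (F.n - c - 1)) c d (F.n - c)).det =
        -a' * d - ((c - 1) * (F.n - c - 1)) * c := by
      simp [X, Matrix.det_fin_three]
    have e2 : (X (-a') ((c - 1) * (F.n - c - 1)) c d (F.n - c) - 1).det =
        -a' * d - ((c - 1) * (F.n - c - 1)) * (c - 1) - (c - 1) * (F.n - c - 1) := by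
      rw [Matrix.det_fin_three]
      simp [X]
      ring
    unfold IsCS
    rw [e1, e2]
    rw [FF] at ha'
    constructor
    · linear_combination ha'
    · linear_combination ha'
  obtain ⟨-, g, -, hg, hdet⟩ := inClass_X F hs ht _ _ _ _ _ hX (by ring)
  rw [abs_of_pos hd] at hg
  have hdR : (0 : ℝ) < d := by exact_mod_cast hd
  rw [abs_of_pos hdR] at hdet
  exact ⟨g, hg, hdet⟩

/-- the number of classes modulo an integral matrix -/
theorem g5_card (M : Matrix (Fin 3) (Fin 3) ℤ) (hM : M.det ≠ 0) :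
    Nat.card ((Fin 3 → ℤ) ⧸ LinearMap.range M.mulVecLin) = M.det.natAbs := by
  have hinj : Function.Injective M.mulVecLin := by
    rw [injective_iff_map_eq_zero]
    intro v hv
    exact Matrix.eq_zero_of_mulVec_eq_zero hM hv
  let e := LinearEquiv.ofInjective M.mulVecLin hinj
  have h := Submodule.natAbs_det_equiv (LinearMap.range M.mulVecLin) e
  rw [← h]
  congr 1
  rw [← LinearMap.det_toLin']
  rfl

theorem coset_bound_pr (F : Frame) (hs : F.s = -1) (ht : F.t = -1) {d c : ℤ}
    (hl : IsLab (-1) (-1) F.n d c) {δ : V} (hδ : δ ∈ Lam F.θ d c) (h0 : ∀ i, δ i ≠ 0)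
    (S : Finset V) (hS : ∀ x ∈ S, x ∈ Lam F.θ d c) (B : ℝ)
    (hB : ∀ T : Finset V, T ⊆ S →
      (∀ x ∈ T, ∀ y ∈ T, ∃ z ∈ O F.θ, ∀ i, x i - y i = δ i * z i) → (T.card : ℝ) ≤ B) :
    (S.card : ℝ) ≤ d * |Nm δ| * B := by
  classical
  obtain ⟨g, hg, hdet⟩ := g5_basis F hs ht hl
  have hdR : (0 : ℝ) < d := by exact_mod_cast hl.1
  have hV := Vd_ne F
  -- the matrix of `δ θ^j`
  have hj : ∀ j : Fin 3, ∃ m : Fin 3 → ℤ, ∀ i, F.θ i ^ (j : ℕ) * δ i = ∑ k, (m k : ℝ) * g k i := by
    intro j
    have hO : (fun i => F.θ i ^ (j : ℕ)) ∈ O F.θ := by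
      fin_cases j
      · exact ⟨1, 0, 0, fun i => by simp⟩
      · exact ⟨0, 1, 0, fun i => by simp⟩
      · exact ⟨0, 0, 1, fun i => by simp⟩
    have h1 := Lam_mul F hO hδ
    rw [← hg] at h1
    exact h1
  choose m hm using hj
  set M : Matrix (Fin 3) (Fin 3) ℤ := Matrix.of fun k j => m j k with hMdef
  -- its determinant
  have hMdet : |((M.det : ℤ) : ℝ)| = d * |Nm δ| := by
    have e1 : (Matrix.of fun (i j : Fin 3) => F.θ i ^ (j : ℕ) * δ i) =
        (Matrix.of fun (i k : Fin 3) => g k i) * M.map (Int.cast : ℤ → ℝ) := by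
      ext i j
      rw [Matrix.of_apply, hm j i, Matrix.mul_apply]
      refine Finset.sum_congr rfl fun k _ => ?_
      simp [hMdef, mul_comm]
    have e2 : |(Matrix.of fun (i j : Fin 3) => F.θ i ^ (j : ℕ) * δ i).det| =
        |Nm δ| * |Vd F.θ| := by
      rw [← abs_mul, Matrix.det_fin_three]
      have : (Matrix.of fun (i j : Fin 3) => F.θ i ^ (j : ℕ) * δ i) 0 0 = δ 0 := by simp
      simp only [Matrix.of_apply, Nm, Vd]
      simp only [Fin.val_zero, Fin.val_one, Fin.val_two, pow_zero, pow_one, one_mul]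
      rw [← abs_neg]
      congr 1
      ring
    have e3 : (Matrix.of fun (i k : Fin 3) => g k i).det =
        (Matrix.of fun (j i : Fin 3) => g j i).det := by
      rw [← Matrix.det_transpose]
      rfl
    have e4 : (M.map (Int.cast : ℤ → ℝ)).det = ((M.det : ℤ) : ℝ) := by
      have := (Int.castRingHom ℝ).map_det M
      exact this.symm
    rw [e1, Matrix.det_mul, e3, e4, abs_mul, hdet] at e2
    have hV' : |Vd F.θ| ≠ 0 := abs_ne_zero.2 hV
    field_simp at e2
    linarith
  have hM0 : M.det ≠ 0 := by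
    intro h
    rw [h] at hMdet
    simp only [Int.cast_zero, abs_zero] at hMdet
    have h1 : Nm δ ≠ 0 := mul_ne_zero (mul_ne_zero (h0 0) (h0 1)) (h0 2)
    have : 0 < d * |Nm δ| := mul_pos hdR (abs_pos.2 h1)
    linarith
  have hcard := g5_card M hM0
  set Q := (Fin 3 → ℤ) ⧸ LinearMap.range M.mulVecLin with hQ
  have hfin : Finite Q := by
    apply Nat.finite_of_card_ne_zero
    rw [hcard]
    exact Int.natAbs_ne_zero.2 hM0
  -- coordinates
  have hco : ∀ x : V, ∃ v : Fin 3 → ℤ, x ∈ Lam F.θ d c → ∀ i, x i = ∑ k, (v k : ℝ) * g k i := by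
    intro x
    by_cases hx : x ∈ Lam F.θ d c
    · rw [← hg] at hx
      obtain ⟨v, hv⟩ := hx
      exact ⟨v, fun _ => hv⟩
    · exact ⟨0, fun h => absurd h hx⟩
  choose co hco using hco
  set f : V → Q := fun x => Submodule.Quotient.mk (co x) with hf
  have hfib : ∀ q ∈ S.image f, ((S.filter fun x => f x = q).card : ℝ) ≤ B := by
    intro q _
    apply hB _ (Finset.filter_subset _ _)
    intro x hx y hy
    rw [Finset.mem_filter] at hx hy
    have h1 : f x = f y := hx.2.trans hy.2.symm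
    have h2 : co x - co y ∈ LinearMap.range M.mulVecLin :=
      (Submodule.Quotient.eq _).1 h1
    obtain ⟨v, hv⟩ := h2
    refine ⟨fun i => (v 0 : ℝ) + v 1 * F.θ i + v 2 * F.θ i ^ 2, ⟨v 0, v 1, v 2, fun i => rfl⟩,
      fun i => ?_⟩
    rw [hco x (hS x hx.1) i, hco y (hS y hy.1) i, ← Finset.sum_sub_distrib]
    have h3 : ∀ k, (co x k : ℝ) - co y k = ∑ j, (m j k : ℝ) * v j := by
      intro k
      have := congrFun hv k
      simp only [Matrix.mulVecLin_apply, Matrix.mulVec, dotProduct, Pi.sub_apply] at this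
      rw [← Int.cast_sub, ← this]
      push_cast
      rfl
    calc ∑ k, ((co x k : ℝ) * g k i - co y k * g k i)
        = ∑ k, (∑ j, (m j k : ℝ) * v j) * g k i := by
          refine Finset.sum_congr rfl fun k _ => ?_
          rw [← h3]; ring
      _ = ∑ j, (v j : ℝ) * ∑ k, (m j k : ℝ) * g k i := by
          simp only [Finset.sum_mul, Finset.mul_sum]
          rw [Finset.sum_comm]
          refine Finset.sum_congr rfl fun j _ => Finset.sum_congr rfl fun k _ => ?_
          ring
      _ = ∑ j : Fin 3, (v j : ℝ) * (F.θ i ^ (j : ℕ) * δ i) := by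
          refine Finset.sum_congr rfl fun j _ => ?_
          rw [hm j i]
      _ = _ := by
          rw [Fin.sum_univ_three]
          simp only [Fin.val_zero, Fin.val_one, Fin.val_two, pow_zero, pow_one, one_mul]
          ring
  have hB0 : 0 ≤ B := by
    have := hB ∅ (Finset.empty_subset _) (by simp)
    simpa using this
  have h1 : (S.card : ℝ) ≤ ((S.image f).card : ℝ) * B := by
    rw [Finset.card_eq_sum_card_image f S]
    push_cast
    calc _ ≤ ∑ q ∈ S.image f, B := Finset.sum_le_sum hfib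
      _ = _ := by rw [Finset.sum_const, nsmul_eq_mul]
  have h2 : ((S.image f).card : ℝ) ≤ d * |Nm δ| := by
    let _ : Fintype Q := Fintype.ofFinite Q
    have h3 : (S.image f).card ≤ Nat.card Q := by
      rw [Nat.card_eq_fintype_card]
      exact Finset.card_le_univ _
    rw [hcard] at h3
    calc ((S.image f).card : ℝ) ≤ (M.det.natAbs : ℝ) := by exact_mod_cast h3
      _ = |((M.det : ℤ) : ℝ)| := by rw [Nat.cast_natAbs, Int.cast_abs]
      _ = _ := hMdet
  exact h1.trans (mul_le_mul_of_nonneg_right h2 hB0)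

end Pool.Agent.Lib_helper34.GCE
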