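import Pool.Agent.Lib_helper34.GCE.Defs
import Pool.Agent.Lib_helper72.GC.TreeG

/-! # GCE: the matrix of a label -/

set_option autoImplicit false

namespace Pool.Agent.Lib_helper34.GCE

open Pool.Agent.Lib_helper83.CS Pool.Agent.Lib_helper72.GC

theorem cs_label_pr (F : Frame) (hs : F.s = -1) (ht : F.t = -1) {d c : ℤ}
    (hl : IsLab (-1) (-1) F.n d c) : ∃ A : Matrix (Fin 3) (Fin 3) ℤ, IsCS A ∧ A.trace = F.n ∧
      InClass A F.θ (Lam F.θ d c) (1 / d) := by
  obtain ⟨hd, m, hm⟩ := hl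
  have hm' : c ^ 3 - F.n * c ^ 2 + (F.n - 1) * c - 1 = d * m := by
    rw [← hm]
    unfold FF
    ring
  have hCS : IsCS (X (-m) ((c - 1) * (F.n - c - 1)) c d (F.n - c)) := by
    rw [IsCS_X_iff]
    exact ⟨by linear_combination hm', rfl⟩
  have h1 := inClass_X F hs ht _ _ _ _ _ hCS (by ring)
  rw [abs_of_pos hd, abs_of_pos (show (0 : ℝ) < d by exact_mod_cast hd)] at h1
  refine ⟨_, hCS, ?_, h1.2⟩
  rw [X_trace]
  ring

end Pool.Agent.Lib_helper34.GCE
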