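import Pool.Agent.Lib_helper34.GCE.Defs

/-!
# GCE, block N3 (Mertens), helper47 (parts adapted from files of helper23 and helper39)
-/

set_option autoImplicit false

namespace Pool.Agent.Lib_helper34.GCE

open Finset
open ArithmeticFunction (vonMangoldt)

/-- `log x!` as a sum over primes -/
theorem n3_log_factorial (x : ℕ) : Real.log (x.factorial : ℝ) =
    ∑ p ∈ (Icc 1 x).filter Nat.Prime, (x.factorial.factorization p : ℝ) * Real.log p := by
  have h1 : x.factorial = ∏ p ∈ (Icc 1 x).filter Nat.Prime, p ^ x.factorial.factorization p := by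
    conv_lhs => rw [← Nat.prod_factorization_pow_eq_self (Nat.factorial_ne_zero x)]
    rw [Finsupp.prod]
    apply Finset.prod_subset
    · intro p hp
      rw [Nat.support_factorization, Nat.mem_primeFactors] at hp
      rw [mem_filter, mem_Icc]
      exact ⟨⟨hp.1.one_le, (hp.1.dvd_factorial).mp hp.2.1⟩, hp.1⟩
    · intro p _ hp
      rw [Finsupp.notMem_support_iff] at hp
      rw [hp, pow_zero]
  conv_lhs => rw [h1]
  push_cast
  rw [Real.log_prod]
  · apply sum_congr rfl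
    intro p _
    rw [Real.log_pow]
  · intro p hp
    have hpp := (mem_filter.mp hp).2
    exact pow_ne_zero _ (by exact_mod_cast hpp.ne_zero)

theorem n3_val_upper (x p : ℕ) (hp : p.Prime) :
    (x.factorial.factorization p : ℝ) ≤ (x : ℝ) / (p - 1) := by
  have h1 : (p - 1) * x.factorial.factorization p ≤ x := by
    rw [Nat.sub_one_mul_factorization_factorial hp]
    exact Nat.sub_le _ _
  have hp1 : (0 : ℝ) < (p : ℝ) - 1 := by
    have : (2 : ℝ) ≤ p := by exact_mod_cast hp.two_le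
    linarith
  rw [le_div_iff₀ hp1]
  have h2 : (((p - 1) * x.factorial.factorization p : ℕ) : ℝ) ≤ x := by exact_mod_cast h1
  rw [Nat.cast_mul, Nat.cast_sub hp.one_le, Nat.cast_one] at h2
  linarith

theorem n3_log_le (n : ℕ) (hn : 2 ≤ n) :
    Real.log n * (1 / ((n : ℝ) - 1) - 1 / n) ≤ 4 * (1 / (n : ℝ) ^ (3 / 2 : ℝ)) := by
  have hn2 : (2 : ℝ) ≤ n := by exact_mod_cast hn
  have hn0 : (0 : ℝ) < n := by linarith
  have h1 : Real.log n ≤ 2 * Real.sqrt n := by
    have h2 := Real.log_le_sub_one_of_pos (Real.sqrt_pos.mpr hn0)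
    rw [Real.log_sqrt hn0.le] at h2
    linarith
  have h2 : 1 / ((n : ℝ) - 1) - 1 / n ≤ 2 / (n : ℝ) ^ 2 := by
    have h3 : (0 : ℝ) < (n : ℝ) - 1 := by linarith
    rw [div_sub_div _ _ h3.ne' hn0.ne', div_le_div_iff₀ (by positivity) (by positivity)]
    nlinarith
  have h3 : 0 ≤ 1 / ((n : ℝ) - 1) - 1 / n := by
    rw [sub_nonneg]
    exact one_div_le_one_div_of_le (by linarith) (by linarith)
  have h4 : (n : ℝ) ^ (3 / 2 : ℝ) * Real.sqrt n = (n : ℝ) ^ 2 := by
    rw [Real.sqrt_eq_rpow, ← Real.rpow_add hn0]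
    norm_num
  have h5 : 0 < (n : ℝ) ^ (3 / 2 : ℝ) := Real.rpow_pos_of_pos hn0 _
  calc Real.log n * (1 / ((n : ℝ) - 1) - 1 / n)
      ≤ (2 * Real.sqrt n) * (2 / (n : ℝ) ^ 2) :=
        mul_le_mul h1 h2 h3 (by positivity)
    _ = 4 * (1 / (n : ℝ) ^ (3 / 2 : ℝ)) := by
        rw [← h4]
        have h6 : 0 < Real.sqrt n := Real.sqrt_pos.mpr hn0
        field_simp
        norm_num

theorem n3_fac_low (x : ℕ) (hx : 1 ≤ x) : (x : ℝ) * Real.log x - x ≤ Real.log (x.factorial : ℝ) := by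
  have h1 := Stirling.le_log_factorial_stirling (n := x) (by omega)
  have h2 : 0 ≤ Real.log x := Real.log_nonneg (by exact_mod_cast hx)
  have h3 : 0 ≤ Real.log (2 * Real.pi) := Real.log_nonneg (by nlinarith [Real.pi_gt_three])
  linarith

theorem n3_fac_up (x : ℕ) : Real.log (x.factorial : ℝ) ≤ x * Real.log x := by
  have h1 : ((x.factorial : ℕ) : ℝ) ≤ (x : ℝ) ^ x := by exact_mod_cast Nat.factorial_le_pow x
  have h2 := Real.log_le_log (by exact_mod_cast Nat.factorial_pos x) h1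
  rwa [Real.log_pow] at h2

/-- the lower bound for the primes -/
theorem n3_primes_low : ∃ C : ℝ, ∀ x : ℕ, 1 ≤ x →
    Real.log x - C ≤ ∑ p ∈ (Icc 1 x).filter Nat.Prime, Real.log p / p := by
  have hsum : Summable (fun n : ℕ => 1 / (n : ℝ) ^ (3 / 2 : ℝ)) :=
    Real.summable_one_div_nat_rpow.mpr (by norm_num)
  set T := ∑' n : ℕ, 1 / (n : ℝ) ^ (3 / 2 : ℝ) with hT
  refine ⟨1 + 4 * T, ?_⟩
  intro x hx
  have hx0 : (0 : ℝ) < x := by exact_mod_cast hx
  set S := ∑ p ∈ (Icc 1 x).filter Nat.Prime, Real.log p / p with hS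
  have hlogp : ∀ p ∈ (Icc 1 x).filter Nat.Prime, 0 ≤ Real.log (p : ℝ) := by
    intro p hp
    exact Real.log_nonneg (by exact_mod_cast (mem_filter.mp hp).2.one_le)
  have hB : (x : ℝ) * Real.log x - x ≤ x * (S + 4 * T) := by
    refine (n3_fac_low x hx).trans ?_
    rw [n3_log_factorial x]
    calc ∑ p ∈ (Icc 1 x).filter Nat.Prime, (x.factorial.factorization p : ℝ) * Real.log p
        ≤ ∑ p ∈ (Icc 1 x).filter Nat.Prime, (x * (Real.log p / p) +
            x * (4 * (1 / (p : ℝ) ^ (3 / 2 : ℝ)))) := by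
          apply sum_le_sum
          intro p hp
          have hpp := (mem_filter.mp hp).2
          have h2 := mul_le_mul_of_nonneg_right (n3_val_upper x p hpp) (hlogp p hp)
          refine h2.trans ?_
          have h3 := mul_le_mul_of_nonneg_left (n3_log_le p hpp.two_le) hx0.le
          have h4 : (x : ℝ) / (p - 1) * Real.log p = x * (Real.log p / p) +
              x * (Real.log p * (1 / ((p : ℝ) - 1) - 1 / p)) := by ring
          rw [h4]
          linarith
      _ = x * S + x * (4 * ∑ p ∈ (Icc 1 x).filter Nat.Prime, (1 / (p : ℝ) ^ (3 / 2 : ℝ))) := by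
          rw [Finset.sum_add_distrib, ← mul_sum, ← mul_sum, ← mul_sum]
      _ ≤ x * (S + 4 * T) := by
          have h5 : ∑ p ∈ (Icc 1 x).filter Nat.Prime, (1 / (p : ℝ) ^ (3 / 2 : ℝ)) ≤ T :=
            hsum.sum_le_tsum _ (fun n _ => by positivity)
          nlinarith
  have h1 : Real.log x - 1 ≤ S + 4 * T := by
    have h2 : (x : ℝ) * (Real.log x - 1) ≤ x * (S + 4 * T) := by linarith
    exact le_of_mul_le_mul_left h2 hx0
  linarith

/-- `∑ Λ(d) ⌊x/d⌋ = log x!` -/
theorem n3_conv (x : ℕ) : ∑ n ∈ Ioc 0 x, vonMangoldt n * ((x / n : ℕ) : ℝ) =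
    Real.log (x.factorial : ℝ) := by
  rw [← ArithmeticFunction.sum_Ioc_mul_zeta_eq_sum, ArithmeticFunction.vonMangoldt_mul_zeta]
  have h1 : (x.factorial : ℝ) = ∏ n ∈ Ioc 0 x, (n : ℝ) := by
    rw [← Finset.prod_Ico_id_eq_factorial]
    push_cast
    apply Finset.prod_congr _ (fun _ _ => rfl)
    ext n
    simp only [mem_Ico, mem_Ioc]
    omega
  rw [h1, Real.log_prod]
  · rfl
  · intro n hn
    have := (mem_Ioc.1 hn).1
    positivity

theorem n3_mul (x n : ℕ) (hn : 0 < n) : (x : ℝ) / n ≤ ((x / n : ℕ) : ℝ) + 1 := by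
  have hn0 : (0 : ℝ) < n := by exact_mod_cast hn
  rw [div_le_iff₀ hn0]
  have := Nat.lt_div_mul_add (a := x) (b := n) hn
  have h5 : (x : ℝ) < ((x / n : ℕ) : ℝ) * n + n := by exact_mod_cast this
  nlinarith

theorem n3_Icc (x : ℕ) : Icc 1 x = Ioc 0 x := by
  ext n
  simp only [mem_Icc, mem_Ioc]
  omega

theorem n3_up (x : ℕ) (hx : 1 ≤ x) :
    ∑ d ∈ Icc 1 x, vonMangoldt d / (d : ℝ) ≤ Real.log x + (Real.log 4 + 4) := by
  have hx0 : (0 : ℝ) < x := by exact_mod_cast hx
  rw [n3_Icc]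
  have h2 : ∑ n ∈ Ioc 0 x, vonMangoldt n ≤ (Real.log 4 + 4) * x := by
    have h := Chebyshev.psi_le_const_mul_self (x := (x : ℝ)) hx0.le
    unfold Chebyshev.psi at h
    rwa [Nat.floor_natCast] at h
  have h3 : (x : ℝ) * ∑ n ∈ Ioc 0 x, vonMangoldt n / (n : ℝ) ≤
      x * (Real.log x + (Real.log 4 + 4)) := by
    rw [Finset.mul_sum]
    calc ∑ n ∈ Ioc 0 x, (x : ℝ) * (vonMangoldt n / n) ≤
        ∑ n ∈ Ioc 0 x, (vonMangoldt n * ((x / n : ℕ) : ℝ) + vonMangoldt n) := by
          refine Finset.sum_le_sum fun n hn => ?_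
          rw [Finset.mem_Ioc] at hn
          have h5 : 0 ≤ vonMangoldt n := ArithmeticFunction.vonMangoldt_nonneg
          calc (x : ℝ) * (vonMangoldt n / n) = vonMangoldt n * ((x : ℝ) / n) := by ring
            _ ≤ vonMangoldt n * (((x / n : ℕ) : ℝ) + 1) :=
              mul_le_mul_of_nonneg_left (n3_mul x n hn.1) h5
            _ = _ := by ring
      _ ≤ _ := by
          rw [Finset.sum_add_distrib, n3_conv]
          have := n3_fac_up x
          linarith
  exact le_of_mul_le_mul_left h3 hx0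

theorem n3_low (x : ℕ) (hx : 1 ≤ x) :
    Real.log x - 1 ≤ ∑ d ∈ Icc 1 x, vonMangoldt d / (d : ℝ) := by
  have hx0 : (0 : ℝ) < x := by exact_mod_cast hx
  rw [n3_Icc]
  have h3 : (x : ℝ) * (Real.log x - 1) ≤ x * ∑ n ∈ Ioc 0 x, vonMangoldt n / (n : ℝ) := by
    rw [Finset.mul_sum]
    have h1 := n3_fac_low x hx
    calc (x : ℝ) * (Real.log x - 1) ≤ Real.log (x.factorial : ℝ) := by linarith
      _ = ∑ n ∈ Ioc 0 x, vonMangoldt n * ((x / n : ℕ) : ℝ) := (n3_conv x).symm
      _ ≤ ∑ n ∈ Ioc 0 x, (x : ℝ) * (vonMangoldt n / n) := by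
          refine Finset.sum_le_sum fun n hn => ?_
          rw [Finset.mem_Ioc] at hn
          have h5 : 0 ≤ vonMangoldt n := ArithmeticFunction.vonMangoldt_nonneg
          calc vonMangoldt n * ((x / n : ℕ) : ℝ) ≤ vonMangoldt n * ((x : ℝ) / n) :=
                mul_le_mul_of_nonneg_left Nat.cast_div_le h5
            _ = (x : ℝ) * (vonMangoldt n / n) := by ring
  exact le_of_mul_le_mul_left h3 hx0

/-- N3. Mertens. -/
theorem mer_pr : ∃ C : ℝ, 0 < C ∧ ∀ x : ℕ, 1 ≤ x →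
    |∑ d ∈ Finset.Icc 1 x, vonMangoldt d / (d : ℝ) - Real.log x| ≤ C := by
  have hlog4 : 0 ≤ Real.log 4 := Real.log_nonneg (by norm_num)
  refine ⟨Real.log 4 + 4, by linarith, fun x hx => ?_⟩
  rw [abs_le]
  constructor
  · have := n3_low x hx
    linarith
  · have := n3_up x hx
    linarith

/-- N3. The contribution of the proper prime powers. -/
theorem mer_pow_pr : ∃ C : ℝ, 0 < C ∧ ∀ x : ℕ,
    ∑ d ∈ (Finset.Icc 1 x).filter (fun d => ¬ d.Prime), vonMangoldt d / (d : ℝ) ≤ C := by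
  obtain ⟨C1, hC1⟩ := n3_primes_low
  have hlog4 : 0 ≤ Real.log 4 := Real.log_nonneg (by norm_num)
  refine ⟨|C1| + (Real.log 4 + 4), by positivity, fun x => ?_⟩
  rcases Nat.eq_zero_or_pos x with rfl | hx
  · simp
    positivity
  have h1 := n3_up x hx
  have h2 := hC1 x hx
  rw [← Finset.sum_filter_add_sum_filter_not (Icc 1 x) Nat.Prime] at h1
  have h3 : ∑ d ∈ (Icc 1 x).filter Nat.Prime, vonMangoldt d / (d : ℝ) =
      ∑ p ∈ (Icc 1 x).filter Nat.Prime, Real.log p / p := by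
    apply sum_congr rfl
    intro p hp
    rw [ArithmeticFunction.vonMangoldt_apply_prime (mem_filter.1 hp).2]
  rw [h3] at h1
  have := le_abs_self C1
  linarith


end Pool.Agent.Lib_helper34.GCE
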