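import Pool.Agent.Lib_helper34.GCE.Defs

/-!
# GCE: block N6, a dyadic block with many primes
-/

set_option autoImplicit false

namespace Pool.Agent.Lib_helper34.GCE

open Pool.Agent.Lib_helper83.CS Pool.Agent.Lib_helper72.GC
open ArithmeticFunction (vonMangoldt)

open Classical in
theorem n6_block (q : ℕ) (Q : ℕ → Prop) (hq : 3 ≤ q) (Y : ℕ) (h1 : q ^ 3 ≤ Y) (h2 : Y ≤ q ^ 17)
    (h3 : (((Finset.Ioc Y (2 * Y)).filter Q).card : ℝ) < 1 / 400 * Y / Real.log q) :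
    ∑ p ∈ (Finset.Ioc Y (2 * Y)).filter Q, Real.log p / (p : ℝ) ≤ 18 / 400 := by
  have hq0 : (3 : ℝ) ≤ q := by exact_mod_cast hq
  have hl : 0 < Real.log q := Real.log_pos (by linarith)
  have hY0 : 0 < Y := lt_of_lt_of_le (by positivity) h1
  have hY : (0 : ℝ) < Y := by exact_mod_cast hY0
  have hb : ∀ p ∈ (Finset.Ioc Y (2 * Y)).filter Q, Real.log p / (p : ℝ) ≤
      18 * Real.log q / Y := by
    intro p hp
    rw [Finset.mem_filter, Finset.mem_Ioc] at hp
    have hp1 : (Y : ℝ) ≤ p := by exact_mod_cast hp.1.1.le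
    have hp0 : (0 : ℝ) < p := lt_of_lt_of_le hY hp1
    have hp2 : (p : ℝ) ≤ (q : ℝ) ^ 18 := by
      have : p ≤ q ^ 18 := by
        calc p ≤ 2 * Y := hp.1.2
          _ ≤ q * q ^ 17 := Nat.mul_le_mul (by omega) h2
          _ = q ^ 18 := by ring
      exact_mod_cast this
    have hlog : Real.log p ≤ 18 * Real.log q := by
      have := Real.log_le_log hp0 hp2
      rw [Real.log_pow] at this
      exact_mod_cast this
    exact div_le_div₀ (by positivity) hlog hY hp1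
  calc ∑ p ∈ (Finset.Ioc Y (2 * Y)).filter Q, Real.log p / (p : ℝ)
      ≤ ∑ p ∈ (Finset.Ioc Y (2 * Y)).filter Q, 18 * Real.log q / Y := Finset.sum_le_sum hb
    _ = (((Finset.Ioc Y (2 * Y)).filter Q).card : ℝ) * (18 * Real.log q / Y) := by
        rw [Finset.sum_const, nsmul_eq_mul]
    _ ≤ (1 / 400 * Y / Real.log q) * (18 * Real.log q / Y) :=
        mul_le_mul_of_nonneg_right h3.le (by positivity)
    _ = 18 / 400 := by
        field_simp

open Classical in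
/-- N6. A dyadic block with many such primes. -/
theorem dyadic_pr : ∃ (c : ℝ) (q0 : ℕ), 0 < c ∧ ∀ (q : ℕ) (Q : ℕ → Prop), q0 ≤ q →
    Real.log q ≤ ∑ p ∈ (Finset.Ioc (q ^ 3) (q ^ 17)).filter Q, Real.log p / (p : ℝ) →
    ∃ Y : ℕ, q ^ 3 ≤ Y ∧ Y ≤ q ^ 17 ∧
      c * Y / Real.log q ≤ (((Finset.Ioc Y (2 * Y)).filter Q).card : ℝ) := by
  refine ⟨1 / 400, 3, by norm_num, fun q Q hq h => ?_⟩
  by_contra hcon
  push Not at hcon
  have hq0 : (3 : ℝ) ≤ q := by exact_mod_cast hq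
  have hl1 : 1 ≤ Real.log q := by
    rw [Real.le_log_iff_exp_le (by linarith)]
    exact (Real.exp_one_lt_d9.le.trans (by norm_num)).trans hq0
  have hind : ∀ j : ℕ, (∀ i < j, q ^ 3 * 2 ^ i ≤ q ^ 17) →
      ∑ p ∈ (Finset.Ioc (q ^ 3) (q ^ 3 * 2 ^ j)).filter Q, Real.log p / (p : ℝ) ≤
        j * (18 / 400) := by
    intro j
    induction j with
    | zero => intro _; simp
    | succ j ih =>
      intro hj
      have h1 : q ^ 3 ≤ q ^ 3 * 2 ^ j := Nat.le_mul_of_pos_right _ (by positivity)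
      have h2 : q ^ 3 * 2 ^ j ≤ q ^ 3 * 2 ^ (j + 1) :=
        Nat.mul_le_mul_left _ (Nat.pow_le_pow_right (by norm_num) (Nat.le_succ j))
      have h3 : q ^ 3 * 2 ^ (j + 1) = 2 * (q ^ 3 * 2 ^ j) := by ring
      have h4 := hj j (Nat.lt_succ_self j)
      rw [← Finset.Ioc_union_Ioc_eq_Ioc h1 h2, Finset.filter_union, Finset.sum_union, h3]
      · have h5 := ih (fun i hi => hj i (hi.trans (Nat.lt_succ_self j)))
        have h6 := n6_block q Q hq _ h1 h4 (hcon _ h1 h4)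
        push_cast
        linarith
      · apply Finset.disjoint_filter_filter
        rw [Finset.disjoint_left]
        intro a ha hb
        rw [Finset.mem_Ioc] at ha hb
        omega
  have hJ1 : q ^ 14 ≤ 2 ^ Nat.clog 2 (q ^ 14) := Nat.le_pow_clog (by norm_num) _
  have hJ2 : ∀ i < Nat.clog 2 (q ^ 14), 2 ^ i ≤ q ^ 14 := by
    intro i hi
    exact ((Nat.lt_clog_iff_pow_lt (by norm_num)).mp hi).le
  have h1 := hind (Nat.clog 2 (q ^ 14)) (fun i hi => by
    calc q ^ 3 * 2 ^ i ≤ q ^ 3 * q ^ 14 := Nat.mul_le_mul_left _ (hJ2 i hi)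
      _ = q ^ 17 := by ring)
  have h2 : ∑ p ∈ (Finset.Ioc (q ^ 3) (q ^ 17)).filter Q, Real.log p / (p : ℝ) ≤
      ∑ p ∈ (Finset.Ioc (q ^ 3) (q ^ 3 * 2 ^ Nat.clog 2 (q ^ 14))).filter Q,
        Real.log p / (p : ℝ) := by
    apply Finset.sum_le_sum_of_subset_of_nonneg
    · apply Finset.filter_subset_filter
      apply Finset.Ioc_subset_Ioc_right
      calc q ^ 17 = q ^ 3 * q ^ 14 := by ring
        _ ≤ _ := Nat.mul_le_mul_left _ hJ1
    · intro p _ _
      exact div_nonneg (Real.log_natCast_nonneg p) (Nat.cast_nonneg p)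
  have hJ3 : ((Nat.clog 2 (q ^ 14) : ℕ) : ℝ) ≤ 22 * Real.log q := by
    have hc : 1 ≤ Nat.clog 2 (q ^ 14) := by
      apply Nat.clog_pos (by norm_num)
      calc 2 ≤ q := by omega
        _ ≤ q ^ 14 := Nat.le_self_pow (by norm_num) q
    have h3 : 2 ^ (Nat.clog 2 (q ^ 14) - 1) ≤ q ^ 14 := hJ2 _ (by omega)
    have h4 : ((Nat.clog 2 (q ^ 14) - 1 : ℕ) : ℝ) * Real.log 2 ≤ 14 * Real.log q := by
      have h5 : ((2 : ℝ) ^ (Nat.clog 2 (q ^ 14) - 1)) ≤ (q : ℝ) ^ 14 := by exact_mod_cast h3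
      have h6 := Real.log_le_log (by positivity) h5
      rw [Real.log_pow, Real.log_pow] at h6
      exact_mod_cast h6
    rw [Nat.cast_sub hc] at h4
    push_cast at h4
    have h7 := Real.log_two_gt_d9
    nlinarith
  have h5 : ((Nat.clog 2 (q ^ 14) : ℕ) : ℝ) * (18 / 400) ≤ 22 * Real.log q * (18 / 400) :=
    mul_le_mul_of_nonneg_right hJ3 (by norm_num)
  linarith


end Pool.Agent.Lib_helper34.GCE
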