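import Pool.Agent.Lib_helper34.GCEF.B_N0
import Pool.Agent.Lib_helper34.GCEF.B_N3
import Pool.Agent.Lib_helper34.GCEF.B_N6
import Pool.Agent.Lib_helper34.GCEF.B_C1
import Pool.Agent.Lib_helper34.GCEF.B_C3
import Pool.Agent.Lib_helper34.GCEF.B_G3
import Pool.Agent.Lib_helper34.GCEF.B_G1
import Pool.Agent.Lib_helper34.GCEF.B_G5
import Pool.Agent.Lib_helper34.GCEF.B_G8

/-! # GCE: statements of level 0 -/

set_option autoImplicit false

namespace Pool.Agent.Lib_helper34.GCE

theorem rr_nonneg : type_of% @rr_nonneg_pr := @rr_nonneg_pr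

theorem rr_prime : type_of% @rr_prime_pr := @rr_prime_pr

theorem mer : type_of% @mer_pr := @mer_pr

theorem mer_pow : type_of% @mer_pow_pr := @mer_pow_pr

theorem dyadic : type_of% @dyadic_pr := @dyadic_pr

theorem jac_sum : type_of% @jac_sum_pr := @jac_sum_pr

theorem cubic_root : type_of% @cubic_root_pr := @cubic_root_pr

theorem pig : type_of% @pig_pr := @pig_pr

theorem cube_O : type_of% @cube_O_pr := @cube_O_pr

theorem coset_bound : type_of% @coset_bound_pr := @coset_bound_pr

theorem cs_label : type_of% @cs_label_pr := @cs_label_pr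

end Pool.Agent.Lib_helper34.GCE
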