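import Pool.Agent.Lib_helper34.GCEF.A0

/-!
# GCE: block C2, the discriminant
-/

set_option autoImplicit false

namespace Pool.Agent.Lib_helper34.GCE

theorem c2_mod (n : ℤ) : DD n % 8 = 1 := by
  have h : n % 8 = 0 ∨ n % 8 = 1 ∨ n % 8 = 2 ∨ n % 8 = 3 ∨ n % 8 = 4 ∨ n % 8 = 5 ∨ n % 8 = 6 ∨
      n % 8 = 7 := by omega
  unfold DD
  rcases h with h | h | h | h | h | h | h | h <;>
    simp [pow_two, Int.sub_emod, Int.mul_emod, Int.add_emod, h]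

theorem c2_size (n : ℤ) (hn : 100 ≤ |n|) :
    9000 ≤ n ^ 2 - 5 * n + 3 ∧ |n| ^ 4 ≤ 2 * DD n ∧ DD n ≤ 2 * |n| ^ 4 := by
  have h1 : |n| ^ 2 = n ^ 2 := sq_abs n
  have h2 : n ≤ |n| := le_abs_self n
  have h3 : -|n| ≤ n := neg_abs_le n
  set t := |n| with ht
  have h4 : t ^ 2 - 5 * t + 3 ≤ n ^ 2 - 5 * n + 3 := by linarith
  have h5 : n ^ 2 - 5 * n + 3 ≤ t ^ 2 + 5 * t + 3 := by linarith
  have h6 : 9000 ≤ t ^ 2 - 5 * t + 3 := by nlinarith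
  refine ⟨h6.trans h4, ?_, ?_⟩
  · unfold DD
    have h7 : (t ^ 2 - 5 * t + 3) ^ 2 ≤ (n ^ 2 - 5 * n + 3) ^ 2 :=
      pow_le_pow_left₀ (by linarith) h4 2
    have h8 : 9 * t ^ 2 ≤ 10 * (t ^ 2 - 5 * t + 3) := by nlinarith
    have h9 : (9 * t ^ 2) ^ 2 ≤ (10 * (t ^ 2 - 5 * t + 3)) ^ 2 :=
      pow_le_pow_left₀ (by positivity) h8 2
    have h10 : 10000 ≤ t ^ 2 := by nlinarith
    nlinarith
  · unfold DD
    have h7 : (n ^ 2 - 5 * n + 3) ^ 2 ≤ (t ^ 2 + 5 * t + 3) ^ 2 :=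
      pow_le_pow_left₀ (by linarith) h5 2
    have h8 : 10 * (t ^ 2 + 5 * t + 3) ≤ 11 * t ^ 2 := by nlinarith
    have h9 : (10 * (t ^ 2 + 5 * t + 3)) ^ 2 ≤ (11 * t ^ 2) ^ 2 :=
      pow_le_pow_left₀ (by nlinarith) h8 2
    have h10 : 10000 ≤ t ^ 2 := by nlinarith
    nlinarith

theorem DD_facts_pr (n : ℤ) (hn : 100 ≤ |n|) : 0 < DD n ∧ DD n % 8 = 1 ∧ ¬ IsSquare (DD n) ∧
    |n| ^ 4 ≤ 2 * DD n ∧ DD n ≤ 2 * |n| ^ 4 := by
  obtain ⟨h1, h2, h3⟩ := c2_size n hn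
  refine ⟨?_, c2_mod n, ?_, h2, h3⟩
  · unfold DD
    nlinarith
  · rintro ⟨r, hr⟩
    unfold DD at hr
    have h4 : |r| * |r| = (n ^ 2 - 5 * n + 3) ^ 2 - 32 := by rw [abs_mul_abs_self, hr]
    have h5 : 0 ≤ |r| := abs_nonneg r
    set M := n ^ 2 - 5 * n + 3 with hM
    rcases lt_or_ge |r| M with h6 | h6
    · have h7 : |r| ≤ M - 1 := by omega
      nlinarith
    · nlinarith

theorem chi_disc_pr (n : ℤ) (hn : 100 ≤ |n|) : Chi (DD n).toNat (chD n) := by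
  obtain ⟨h1, h2, h3, -, -⟩ := DD_facts_pr n hn
  have h4 : ((DD n).toNat : ℤ) = DD n := Int.toNat_of_nonneg h1.le
  refine ⟨?_, ?_, ?_, ?_⟩
  · simp [chD]
  · intro a b
    unfold chD
    rw [Nat.cast_mul, jacobiSym.mul_left, Int.cast_mul]
  · intro a
    unfold chD
    rcases jacobiSym.trichotomy (a : ℤ) (DD n).toNat with h | h | h
    · left
      rw [h]
      simp
    · right
      left
      rw [h]
      simp
    · right
      right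
      rw [h]
      simp
  · intro a b
    have h5 : Odd (DD n).toNat := by
      rw [Nat.odd_iff]
      omega
    have h6 : ¬ IsSquare (DD n).toNat := by
      rintro ⟨r, hr⟩
      refine h3 ⟨r, ?_⟩
      rw [← h4, hr, Nat.cast_mul]
    exact jac_sum h5 h6 a b

end Pool.Agent.Lib_helper34.GCE
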