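import Pool.Agent.Lib_helper34.GCEF.A0
import Pool.Agent.Lib_helper72.GC.TreeG

/-!
# GCE, block G2: elements of the order in a box
-/

set_option autoImplicit false

namespace Pool.Agent.Lib_helper34.GCE

open Pool.Agent.Lib_helper83.CS Pool.Agent.Lib_helper72.GC

theorem g2_floor {a b : ℝ} (h : ⌊a⌋ = ⌊b⌋) : |a - b| ≤ 1 := by
  have h1 := Int.floor_le a
  have h2 := Int.lt_floor_add_one a
  have h3 := Int.floor_le b
  have h4 := Int.lt_floor_add_one b
  rw [h] at h1 h2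
  rw [abs_le]
  constructor <;> linarith

theorem g2_sub {θ x y : V} (hx : x ∈ O θ) (hy : y ∈ O θ) : (fun i => x i - y i) ∈ O θ := by
  obtain ⟨a, b, c, h⟩ := hx
  obtain ⟨a', b', c', h'⟩ := hy
  refine ⟨a - a', b - b', c - c', fun i => ?_⟩
  show x i - y i = _
  rw [h i, h' i]
  push_cast
  ring

theorem g2_card {t : ℝ} (ht : 1 ≤ t) : ((Finset.Icc ⌊-t⌋ ⌊t⌋).card : ℝ) ≤ 4 * t := by
  rw [Int.card_Icc]
  have h1 := Int.floor_le t
  have h2 := Int.lt_floor_add_one (-t)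
  have h3 : (0 : ℤ) ≤ ⌊t⌋ + 1 - ⌊-t⌋ := by
    have : ⌊-t⌋ ≤ ⌊t⌋ := Int.floor_le_floor (by linarith)
    linarith
  have h4 : (((⌊t⌋ + 1 - ⌊-t⌋).toNat : ℕ) : ℝ) = ((⌊t⌋ + 1 - ⌊-t⌋ : ℤ) : ℝ) := by
    exact_mod_cast congrArg (Int.cast : ℤ → ℝ) (Int.toNat_of_nonneg h3)
  rw [h4]
  push_cast
  linarith

/-- G2. Elements of the order in a box. -/
theorem box_O_pr (F : Frame) (hn : 10 ^ 20 ≤ |F.n|) (C : V) (hC : ∀ i, (F.n : ℝ) ^ 2 ≤ C i)
    (S : Finset V) (hS : ∀ x ∈ S, x ∈ O F.θ ∧ ∀ i, |x i| ≤ C i) :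
    (S.card : ℝ) ≤ 10 ^ 4 * (C 0 * C 1 * C 2) / (F.n : ℝ) ^ 2 := by
  classical
  have hn0 : F.n ≠ 0 := by
    intro h
    rw [h] at hn
    norm_num at hn
  have hN : (0 : ℝ) < (F.n : ℝ) ^ 2 := by positivity
  set N : ℝ := (F.n : ℝ) ^ 2 with hNdef
  have hT : ∀ i, 1 ≤ C i / N := fun i => by
    rw [le_div_iff₀ hN, one_mul]; exact hC i
  set g : V → (Fin 3 → ℤ) := fun x i => ⌊x i / N⌋ with hg
  set t : Finset (Fin 3 → ℤ) :=
    Fintype.piFinset (fun i : Fin 3 => Finset.Icc ⌊-(C i / N)⌋ ⌊C i / N⌋) with ht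
  have hmaps : ∀ x ∈ S, g x ∈ t := by
    intro x hx
    rw [ht, Fintype.mem_piFinset]
    intro i
    rw [Finset.mem_Icc]
    have h1 := abs_le.mp ((hS x hx).2 i)
    refine ⟨Int.floor_le_floor ?_, Int.floor_le_floor ?_⟩
    · rw [← neg_div]
      exact (div_le_div_iff_of_pos_right hN).mpr h1.1
    · exact (div_le_div_iff_of_pos_right hN).mpr h1.2
  have hfib : ∀ b ∈ t, (S.filter (fun x => g x = b)).card ≤ 100 * F.n.natAbs ^ 4 := by
    intro b _
    rcases (S.filter (fun x => g x = b)).eq_empty_or_nonempty with h0 | ⟨x0, hx0⟩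
    · rw [h0]; simp
    · rw [Finset.mem_filter] at hx0
      set T : Finset V := (S.filter (fun x => g x = b)).image (fun x => fun i => x i - x0 i)
        with hTdef
      have hcT : T.card = (S.filter (fun x => g x = b)).card := by
        rw [hTdef]
        apply Finset.card_image_of_injective
        intro x y hxy
        funext i
        have := congrFun hxy i
        simpa using this
      have hcube := cube_O F hn T (by
        intro z hz
        rw [hTdef, Finset.mem_image] at hz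
        obtain ⟨x, hx, rfl⟩ := hz
        rw [Finset.mem_filter] at hx
        refine ⟨g2_sub (hS x hx.1).1 (hS x0 hx0.1).1, fun i => ?_⟩
        have h1 : ⌊x i / N⌋ = ⌊x0 i / N⌋ := by
          have := (congrFun hx.2 i).trans (congrFun hx0.2 i).symm
          exact this
        have h2 := g2_floor h1
        rw [← sub_div, abs_div, abs_of_pos hN, div_le_one hN] at h2
        exact h2)
      rw [hcT] at hcube
      have h4 : (100 : ℝ) * (F.n : ℝ) ^ 4 = ((100 * F.n.natAbs ^ 4 : ℕ) : ℝ) := by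
        push_cast
        have : ((F.n.natAbs : ℕ) : ℝ) = |(F.n : ℝ)| := by
          rw [Nat.cast_natAbs]; push_cast; rfl
        rw [this, Even.pow_abs (by decide)]
      rw [h4] at hcube
      exact_mod_cast hcube
  have hmain := Finset.card_le_mul_card_image_of_maps_to hmaps (100 * F.n.natAbs ^ 4) hfib
  have hmain' : (S.card : ℝ) ≤ 100 * (F.n : ℝ) ^ 4 * (t.card : ℝ) := by
    have h5 : ((100 * F.n.natAbs ^ 4 * t.card : ℕ) : ℝ) = 100 * (F.n : ℝ) ^ 4 * (t.card : ℝ) := by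
      push_cast
      have : ((F.n.natAbs : ℕ) : ℝ) = |(F.n : ℝ)| := by
        rw [Nat.cast_natAbs]; push_cast; rfl
      rw [this, Even.pow_abs (by decide)]
    rw [← h5]
    exact_mod_cast hmain
  have ht1 : (t.card : ℝ) ≤ 4 * (C 0 / N) * (4 * (C 1 / N)) * (4 * (C 2 / N)) := by
    rw [ht, Fintype.card_piFinset, Fin.prod_univ_three]
    push_cast
    have a0 := g2_card (hT 0)
    have a1 := g2_card (hT 1)
    have a2 := g2_card (hT 2)
    have b0 := hT 0
    have b1 := hT 1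
    have b2 := hT 2
    gcongr
  have hN4 : (F.n : ℝ) ^ 4 = N ^ 2 := by rw [hNdef]; ring
  rw [hN4] at hmain'
  refine hmain'.trans ((mul_le_mul_of_nonneg_left ht1 (by positivity)).trans ?_)
  have h6 : 100 * N ^ 2 * (4 * (C 0 / N) * (4 * (C 1 / N)) * (4 * (C 2 / N)))
      = 6400 * (C 0 * C 1 * C 2) / N := by
    field_simp
    ring
  rw [h6]
  apply div_le_div_of_nonneg_right _ hN.le
  have c0 : 0 ≤ C 0 := hN.le.trans (hC 0)
  have c1 : 0 ≤ C 1 := hN.le.trans (hC 1)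
  have c2 : 0 ≤ C 2 := hN.le.trans (hC 2)
  have : 0 ≤ C 0 * C 1 * C 2 := by positivity
  nlinarith


end Pool.Agent.Lib_helper34.GCE
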