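import Pool.Agent.Lib_helper34.GCEF.B_G5
import Pool.Agent.Lib_helper72.GC.TreeG

/-! # GCE: norms on `Lam` -/

set_option autoImplicit false

namespace Pool.Agent.Lib_helper34.GCE

open Pool.Agent.Lib_helper83.CS Pool.Agent.Lib_helper72.GC

theorem Lam_ne_pr (F : Frame) {d c : ℤ} (hd : 0 < d) {x : V} (hx : x ∈ Lam F.θ d c)
    (h : x ≠ fun _ => 0) (i : Fin 3) : x i ≠ 0 := by
  intro hi
  obtain ⟨⟨a, b, e, hx1⟩, _⟩ := hx
  have hdR : (d : ℝ) ≠ 0 := by exact_mod_cast hd.ne'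
  have h0 := hx1 i
  simp only [hi, mul_zero] at h0
  obtain ⟨h1, h2, h3⟩ := O_zero F a b e i h0.symm
  subst h1 h2 h3
  apply h
  funext j
  have h4 := hx1 j
  simp only [Int.cast_zero, zero_mul, add_zero] at h4
  exact (mul_eq_zero.1 h4).resolve_left hdR

theorem Nm_Lam_pr (F : Frame) (hs : F.s = -1) (ht : F.t = -1) {d c : ℤ}
    (hl : IsLab (-1) (-1) F.n d c) {x : V} (hx : x ∈ Lam F.θ d c) (h0 : ∀ i, x i ≠ 0) :
    1 ≤ (d : ℝ) * |Nm x| := by
  have h := coset_bound_pr F hs ht hl hx h0 {x} (fun y hy => by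
    rw [Finset.mem_singleton] at hy
    rw [hy]
    exact hx) 1 (fun T hT _ => by
    have := Finset.card_le_card hT
    rw [Finset.card_singleton] at this
    exact_mod_cast this)
  rw [Finset.card_singleton, Nat.cast_one, mul_one] at h
  exact h

end Pool.Agent.Lib_helper34.GCE
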