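import Pool.Agent.Lib_helper34.GCEF.A0

/-!
# GCE, block N1: the summatory function of `r = 1 * χ`
-/

set_option autoImplicit false

namespace Pool.Agent.Lib_helper34.GCE

open Pool.Agent.Lib_helper83.CS Pool.Agent.Lib_helper72.GC
open ArithmeticFunction (vonMangoldt)

/-- partial sums of `χ(b)/b` -/
noncomputable def n1_S (χ : ℕ → ℝ) (B : ℕ) : ℝ := ∑ b ∈ Finset.Ico 1 (B + 1), χ b / (b : ℝ)

theorem n1_abel {q : ℕ} {χ : ℕ → ℝ} (h : Chi q χ) (B k : ℕ) :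
    |(n1_S χ (B + k) - n1_S χ B) -
      (∑ m ∈ Finset.Ico (B + 1) (B + k + 1), χ m) / ((B + k + 1 : ℕ) : ℝ)| ≤
      q * (1 / ((B + 1 : ℕ) : ℝ) - 1 / ((B + k + 1 : ℕ) : ℝ)) := by
  induction k with
  | zero => simp
  | succ k ih =>
    have h1 : n1_S χ (B + (k + 1)) = n1_S χ (B + k) + χ (B + k + 1) / ((B + k + 1 : ℕ) : ℝ) := by
      unfold n1_S
      rw [show B + (k + 1) + 1 = (B + k + 1) + 1 from by ring,
        Finset.sum_Ico_succ_top (by omega)]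
    have h2 : (∑ m ∈ Finset.Ico (B + 1) (B + (k + 1) + 1), χ m) =
        (∑ m ∈ Finset.Ico (B + 1) (B + k + 1), χ m) + χ (B + k + 1) := by
      rw [show B + (k + 1) + 1 = (B + k + 1) + 1 from by ring,
        Finset.sum_Ico_succ_top (by omega)]
    have hA := h.sum (B + 1) (B + (k + 1) + 1)
    set A := ∑ m ∈ Finset.Ico (B + 1) (B + k + 1), χ m with hAdef
    set A' := ∑ m ∈ Finset.Ico (B + 1) (B + (k + 1) + 1), χ m with hA'def
    have hpos1 : (0 : ℝ) < ((B + k + 1 : ℕ) : ℝ) := by positivity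
    have hpos2 : (0 : ℝ) < ((B + (k + 1) + 1 : ℕ) : ℝ) := by positivity
    have hc : ((B + (k + 1) + 1 : ℕ) : ℝ) = ((B + k + 1 : ℕ) : ℝ) + 1 := by push_cast; ring
    have hdiff : 0 ≤ 1 / ((B + k + 1 : ℕ) : ℝ) - 1 / ((B + (k + 1) + 1 : ℕ) : ℝ) := by
      rw [hc]
      rw [sub_nonneg]
      exact one_div_le_one_div_of_le hpos1 (by linarith)
    have key : (n1_S χ (B + (k + 1)) - n1_S χ B) - A' / ((B + (k + 1) + 1 : ℕ) : ℝ) =
        ((n1_S χ (B + k) - n1_S χ B) - A / ((B + k + 1 : ℕ) : ℝ)) +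
        A' * (1 / ((B + k + 1 : ℕ) : ℝ) - 1 / ((B + (k + 1) + 1 : ℕ) : ℝ)) := by
      rw [h1, h2]; ring
    rw [key]
    calc _ ≤ |(n1_S χ (B + k) - n1_S χ B) - A / ((B + k + 1 : ℕ) : ℝ)| +
          |A' * (1 / ((B + k + 1 : ℕ) : ℝ) - 1 / ((B + (k + 1) + 1 : ℕ) : ℝ))| := abs_add_le _ _
      _ ≤ q * (1 / ((B + 1 : ℕ) : ℝ) - 1 / ((B + k + 1 : ℕ) : ℝ)) +
          q * (1 / ((B + k + 1 : ℕ) : ℝ) - 1 / ((B + (k + 1) + 1 : ℕ) : ℝ)) := by
        refine add_le_add ih ?_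
        rw [abs_mul, abs_of_nonneg hdiff]
        exact mul_le_mul_of_nonneg_right hA hdiff
      _ = _ := by ring

theorem n1_tail {q : ℕ} {χ : ℕ → ℝ} (h : Chi q χ) (B k : ℕ) :
    |n1_S χ (B + k) - n1_S χ B| ≤ q / ((B + 1 : ℕ) : ℝ) := by
  have h1 := n1_abel h B k
  have hA := h.sum (B + 1) (B + k + 1)
  set A := ∑ m ∈ Finset.Ico (B + 1) (B + k + 1), χ m
  have hpos : (0 : ℝ) < ((B + k + 1 : ℕ) : ℝ) := by positivity
  have h2 : |A / ((B + k + 1 : ℕ) : ℝ)| ≤ q * (1 / ((B + k + 1 : ℕ) : ℝ)) := by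
    rw [abs_div, abs_of_pos hpos, mul_one_div]
    exact div_le_div_of_nonneg_right hA hpos.le
  calc |n1_S χ (B + k) - n1_S χ B| =
      |((n1_S χ (B + k) - n1_S χ B) - A / ((B + k + 1 : ℕ) : ℝ)) +
        A / ((B + k + 1 : ℕ) : ℝ)| := by ring_nf
    _ ≤ _ := abs_add_le _ _
    _ ≤ q * (1 / ((B + 1 : ℕ) : ℝ) - 1 / ((B + k + 1 : ℕ) : ℝ)) +
        q * (1 / ((B + k + 1 : ℕ) : ℝ)) := add_le_add h1 h2
    _ = _ := by ring

theorem n1_lim {q : ℕ} {χ : ℕ → ℝ} (h : Chi q χ) :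
    ∃ L : ℝ, ∀ B : ℕ, |n1_S χ B - L| ≤ q / ((B + 1 : ℕ) : ℝ) := by
  have hb : Filter.Tendsto (fun N : ℕ => 2 * (q : ℝ) / ((N + 1 : ℕ) : ℝ)) Filter.atTop
      (nhds 0) := by
    have := tendsto_one_div_add_atTop_nhds_zero_nat (𝕜 := ℝ)
    have h2 := this.const_mul (2 * (q : ℝ))
    rw [mul_zero] at h2
    refine h2.congr (fun N => ?_)
    push_cast
    ring
  have hc : CauchySeq (n1_S χ) := by
    refine cauchySeq_of_le_tendsto_0 (fun N : ℕ => 2 * (q : ℝ) / ((N + 1 : ℕ) : ℝ)) ?_ hb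
    intro n m N hn hm
    rw [Real.dist_eq]
    have e1 := n1_tail h N (n - N)
    have e2 := n1_tail h N (m - N)
    rw [show N + (n - N) = n from by omega] at e1
    rw [show N + (m - N) = m from by omega] at e2
    calc |n1_S χ n - n1_S χ m| = |(n1_S χ n - n1_S χ N) - (n1_S χ m - n1_S χ N)| := by ring_nf
      _ ≤ |n1_S χ n - n1_S χ N| + |n1_S χ m - n1_S χ N| := abs_sub _ _
      _ ≤ q / ((N + 1 : ℕ) : ℝ) + q / ((N + 1 : ℕ) : ℝ) := add_le_add e1 e2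
      _ = 2 * (q : ℝ) / ((N + 1 : ℕ) : ℝ) := by ring
  obtain ⟨L, hL⟩ := cauchySeq_tendsto_of_complete hc
  refine ⟨L, fun B => ?_⟩
  have h3 : Filter.Tendsto (fun m => |n1_S χ B - n1_S χ m|) Filter.atTop
      (nhds |n1_S χ B - L|) := (tendsto_const_nhds.sub hL).abs
  refine le_of_tendsto h3 ?_
  filter_upwards [Filter.eventually_ge_atTop B] with m hm
  have e1 := n1_tail h B (m - B)
  rw [show B + (m - B) = m from by omega] at e1
  rw [abs_sub_comm]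
  exact e1

theorem n1_RR {χ : ℕ → ℝ} (x : ℕ) :
    RR χ x = ∑ b ∈ Finset.Ico 1 (x + 1), χ b * ((x / b : ℕ) : ℝ) := by
  unfold RR rr
  have h1 : ∀ m ∈ Finset.Icc 1 x, (∑ d ∈ m.divisors, χ d) =
      ∑ b ∈ Finset.Ico 1 (x + 1), if b ∣ m then χ b else 0 := by
    intro m hm
    rw [Finset.mem_Icc] at hm
    rw [← Finset.sum_filter]
    refine Finset.sum_congr ?_ (fun _ _ => rfl)
    ext d
    simp only [Nat.mem_divisors, Finset.mem_filter, Finset.mem_Ico]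
    constructor
    · rintro ⟨h1, h2⟩
      have := Nat.le_of_dvd (by omega) h1
      have h0 : 0 < d := Nat.pos_of_dvd_of_pos h1 (by omega)
      exact ⟨⟨by omega, by omega⟩, h1⟩
    · rintro ⟨_, h2⟩
      exact ⟨h2, by omega⟩
  rw [Finset.sum_congr rfl h1, Finset.sum_comm]
  refine Finset.sum_congr rfl (fun b hb => ?_)
  rw [← Finset.sum_filter, Finset.sum_const, nsmul_eq_mul, mul_comm]
  congr 1
  have := Nat.Ioc_filter_dvd_card_eq_div x b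
  rw [← this]
  congr 2

theorem n1_second {q : ℕ} {χ : ℕ → ℝ} (h : Chi q χ) (x B : ℕ) :
    |∑ b ∈ Finset.Ico (B + 1) (x + 1), χ b * ((x / b : ℕ) : ℝ)| ≤
      ((x / (B + 1) : ℕ) : ℝ) * q := by
  set A := x / (B + 1) with hA
  have h1 : ∀ b ∈ Finset.Ico (B + 1) (x + 1), χ b * ((x / b : ℕ) : ℝ) =
      ∑ a ∈ Finset.Icc 1 A, if a * b ≤ x then χ b else 0 := by
    intro b hb
    rw [Finset.mem_Ico] at hb
    rw [← Finset.sum_filter, Finset.sum_const, nsmul_eq_mul, mul_comm]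
    congr 1
    have : (Finset.Icc 1 A).filter (fun a => a * b ≤ x) = Finset.Icc 1 (x / b) := by
      ext a
      have hdiv : a ≤ x / b ↔ a * b ≤ x := Nat.le_div_iff_mul_le (by omega)
      have hdiv2 : a ≤ x / (B + 1) ↔ a * (B + 1) ≤ x := Nat.le_div_iff_mul_le (by omega)
      simp only [Finset.mem_filter, Finset.mem_Icc]
      constructor
      · rintro ⟨⟨h1, h2⟩, h3⟩
        exact ⟨h1, hdiv.mpr h3⟩
      · rintro ⟨h1, h3⟩
        have h3' := hdiv.mp h3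
        refine ⟨⟨h1, ?_⟩, h3'⟩
        exact hdiv2.mpr (le_trans (Nat.mul_le_mul_left a hb.1) h3')
    rw [this, Nat.card_Icc]
    simp
  rw [Finset.sum_congr rfl h1, Finset.sum_comm]
  have h2 : ∀ a ∈ Finset.Icc 1 A, |∑ b ∈ Finset.Ico (B + 1) (x + 1),
      if a * b ≤ x then χ b else 0| ≤ (q : ℝ) := by
    intro a ha
    rw [Finset.mem_Icc] at ha
    rw [← Finset.sum_filter]
    have : (Finset.Ico (B + 1) (x + 1)).filter (fun b => a * b ≤ x) =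
        Finset.Ico (B + 1) (x / a + 1) := by
      ext b
      simp only [Finset.mem_filter, Finset.mem_Ico]
      rw [Nat.lt_succ_iff, Nat.lt_succ_iff, Nat.le_div_iff_mul_le (by omega), mul_comm b a]
      constructor
      · rintro ⟨⟨h1, h2⟩, h3⟩
        exact ⟨h1, h3⟩
      · rintro ⟨h1, h3⟩
        exact ⟨⟨h1, le_trans (Nat.le_mul_of_pos_left b (by omega)) h3⟩, h3⟩
    rw [this]
    exact h.sum _ _
  calc _ ≤ ∑ a ∈ Finset.Icc 1 A, |∑ b ∈ Finset.Ico (B + 1) (x + 1),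
      if a * b ≤ x then χ b else 0| := Finset.abs_sum_le_sum_abs _ _
    _ ≤ ∑ _a ∈ Finset.Icc 1 A, (q : ℝ) := Finset.sum_le_sum h2
    _ = _ := by simp

theorem n1_abs_le {q : ℕ} {χ : ℕ → ℝ} (h : Chi q χ) (b : ℕ) : |χ b| ≤ 1 := by
  rcases h.val b with h | h | h <;> rw [h] <;> simp

theorem n1_first {q : ℕ} {χ : ℕ → ℝ} (h : Chi q χ) (x B : ℕ) :
    |∑ b ∈ Finset.Ico 1 (B + 1), χ b * ((x / b : ℕ) : ℝ) - x * n1_S χ B| ≤ B := by
  unfold n1_S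
  rw [Finset.mul_sum, ← Finset.sum_sub_distrib]
  calc _ ≤ ∑ b ∈ Finset.Ico 1 (B + 1), |χ b * ((x / b : ℕ) : ℝ) - x * (χ b / b)| :=
        Finset.abs_sum_le_sum_abs _ _
    _ ≤ ∑ _b ∈ Finset.Ico 1 (B + 1), (1 : ℝ) := by
        refine Finset.sum_le_sum (fun b hb => ?_)
        rw [Finset.mem_Ico] at hb
        have hb0 : (0 : ℝ) < b := by exact_mod_cast (by omega : 0 < b)
        rw [show χ b * ((x / b : ℕ) : ℝ) - x * (χ b / b) =
          χ b * (((x / b : ℕ) : ℝ) - (x : ℝ) / b) from by ring, abs_mul]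
        have h1 : ((x / b : ℕ) : ℝ) ≤ (x : ℝ) / b := Nat.cast_div_le
        have h2 : (x : ℝ) / b < ((x / b : ℕ) : ℝ) + 1 := by
          rw [div_lt_iff₀ hb0]
          have := Nat.lt_succ_iff.mpr (le_refl (x / b))
          have h3 : x < (x / b + 1) * b := Nat.lt_mul_of_div_lt this (by omega)
          exact_mod_cast h3
        have h4 : |((x / b : ℕ) : ℝ) - (x : ℝ) / b| ≤ 1 := by
          rw [abs_le]; constructor <;> linarith
        calc |χ b| * |((x / b : ℕ) : ℝ) - (x : ℝ) / b| ≤ 1 * 1 :=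
              mul_le_mul (n1_abs_le h b) h4 (abs_nonneg _) zero_le_one
          _ = 1 := by ring
    _ = B := by simp

theorem n1_bound {q : ℕ} {χ : ℕ → ℝ} (h : Chi q χ) (hq : 1 ≤ q) {L : ℝ}
    (hL : ∀ B : ℕ, |n1_S χ B - L| ≤ q / ((B + 1 : ℕ) : ℝ)) (x : ℕ) :
    |RR χ x - x * L| ≤ 10 * q * √(x : ℝ) := by
  set B := Nat.sqrt x with hB
  have hBx : B ≤ x := Nat.sqrt_le_self x
  have hs1 : (B : ℝ) ≤ √(x : ℝ) := by
    apply Real.le_sqrt_of_sq_le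
    have := Nat.sqrt_le' x
    exact_mod_cast this
  have hs2 : √(x : ℝ) ≤ (B : ℝ) + 1 := by
    rw [Real.sqrt_le_left (by positivity)]
    have := Nat.lt_succ_sqrt' x
    have h2 : x < (B + 1) ^ 2 := this
    have h3 : (x : ℝ) < ((B : ℝ) + 1) ^ 2 := by exact_mod_cast h2
    exact h3.le
  have hsplit : RR χ x = ∑ b ∈ Finset.Ico 1 (B + 1), χ b * ((x / b : ℕ) : ℝ) +
      ∑ b ∈ Finset.Ico (B + 1) (x + 1), χ b * ((x / b : ℕ) : ℝ) := by
    rw [n1_RR, Finset.sum_Ico_consecutive _ (by omega) (by omega)]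
  have e1 := n1_first h x B
  have e2 := n1_second h x B
  have e3 := hL B
  have hsq : (x : ℝ) = √(x : ℝ) * √(x : ℝ) := (Real.mul_self_sqrt (by positivity)).symm
  have hs0 : 0 ≤ √(x : ℝ) := Real.sqrt_nonneg _
  have hBp : (0 : ℝ) < (B : ℝ) + 1 := by positivity
  have e4 : (x : ℝ) / ((B : ℝ) + 1) ≤ √(x : ℝ) := by
    rw [div_le_iff₀ hBp]
    calc (x : ℝ) = √(x : ℝ) * √(x : ℝ) := hsq
      _ ≤ _ := mul_le_mul_of_nonneg_left hs2 hs0
  have e5 : ((x / (B + 1) : ℕ) : ℝ) ≤ √(x : ℝ) := by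
    refine le_trans Nat.cast_div_le ?_
    push_cast
    exact e4
  have hq1 : (1 : ℝ) ≤ q := by exact_mod_cast hq
  have e6 : |(x : ℝ) * n1_S χ B - x * L| ≤ q * √(x : ℝ) := by
    rw [← mul_sub, abs_mul, abs_of_nonneg (by positivity : (0 : ℝ) ≤ x)]
    calc (x : ℝ) * |n1_S χ B - L| ≤ x * (q / ((B + 1 : ℕ) : ℝ)) :=
          mul_le_mul_of_nonneg_left e3 (by positivity)
      _ = q * ((x : ℝ) / ((B : ℝ) + 1)) := by push_cast; ring
      _ ≤ q * √(x : ℝ) := mul_le_mul_of_nonneg_left e4 (by positivity)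
  have e7 : ((x / (B + 1) : ℕ) : ℝ) * q ≤ q * √(x : ℝ) := by
    rw [mul_comm]
    exact mul_le_mul_of_nonneg_left e5 (by positivity)
  rw [hsplit]
  have hfin := abs_le.mp e1
  have hfin2 := abs_le.mp (e2.trans e7)
  have hfin3 := abs_le.mp e6
  have e8 : √(x : ℝ) ≤ q * √(x : ℝ) := by nlinarith
  have e9 : 0 ≤ q * √(x : ℝ) := by positivity
  rw [abs_le]
  constructor
  · nlinarith [hfin.1, hfin2.1, hfin3.1]
  · nlinarith [hfin.2, hfin2.2, hfin3.2]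

theorem R_asymp_pr {q : ℕ} {χ : ℕ → ℝ} (h : Chi q χ) (hq : 1 ≤ q) : ∃ L : ℝ, 0 ≤ L ∧
    ∀ x : ℕ, 1 ≤ x → |RR χ x - x * L| ≤ 10 * q * √(x : ℝ) := by
  obtain ⟨L, hL⟩ := n1_lim h
  have hb := n1_bound h hq hL
  refine ⟨L, ?_, fun x _ => hb x⟩
  by_contra hneg
  rw [not_le] at hneg
  have hL0 : 0 < -L := by linarith
  obtain ⟨x, hx⟩ := exists_nat_gt ((10 * q / (-L)) ^ 2)
  have hq1 : (1 : ℝ) ≤ q := by exact_mod_cast hq
  have hpos : 0 ≤ 10 * (q : ℝ) / (-L) := by positivity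
  have hsx : 10 * (q : ℝ) / (-L) < √(x : ℝ) := Real.lt_sqrt_of_sq_lt hx
  have hR : 0 ≤ RR χ x := Finset.sum_nonneg (fun m _ => rr_nonneg h m)
  have h1 := (abs_le.mp (hb x)).2
  have hsq : (x : ℝ) = √(x : ℝ) * √(x : ℝ) := (Real.mul_self_sqrt (by positivity)).symm
  have hs0 : 0 < √(x : ℝ) := lt_of_le_of_lt hpos hsx
  rw [div_lt_iff₀ hL0] at hsx
  have h2 : 10 * (q : ℝ) * √(x : ℝ) < (√(x : ℝ) * -L) * √(x : ℝ) :=
    mul_lt_mul_of_pos_right hsx hs0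
  have h3 : (√(x : ℝ) * -L) * √(x : ℝ) = -((x : ℝ) * L) := by
    nlinarith [hsq]
  rw [h3] at h2
  linarith


end Pool.Agent.Lib_helper34.GCE
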