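import Pool.Agent.Lib_helper34.GCEF.A0

/-!
# GCE: block N2, the convolution inequality
-/

set_option autoImplicit false

namespace Pool.Agent.Lib_helper34.GCE

open ArithmeticFunction (vonMangoldt)

/-- `χ` as an arithmetic function -/
noncomputable def n2_f (χ : ℕ → ℝ) : ArithmeticFunction ℝ := ⟨fun n => if n = 0 then 0 else χ n, if_pos rfl⟩

theorem n2_f_apply (χ : ℕ → ℝ) {n : ℕ} (hn : n ≠ 0) : n2_f χ n = χ n := if_neg hn

/-- `r` as an arithmetic function -/
noncomputable def n2_r (χ : ℕ → ℝ) : ArithmeticFunction ℝ :=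
  n2_f χ * (ArithmeticFunction.zeta : ArithmeticFunction ℝ)

theorem n2_r_apply (χ : ℕ → ℝ) (n : ℕ) : n2_r χ n = rr χ n := by
  have h0 : rr χ n = ∑ p ∈ n.divisorsAntidiagonal, χ p.1 :=
    (Nat.sum_divisorsAntidiagonal (fun i _ => χ i)).symm
  rw [n2_r, ArithmeticFunction.mul_apply, h0]
  refine Finset.sum_congr rfl fun p hp => ?_
  have h1 := Nat.mem_divisorsAntidiagonal.1 hp
  have h2 : p.1 ≠ 0 := fun h => h1.2 (by rw [← h1.1, h, zero_mul])
  have h3 : p.2 ≠ 0 := fun h => h1.2 (by rw [← h1.1, h, mul_zero])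
  rw [n2_f_apply χ h2, ArithmeticFunction.natCoe_apply, ArithmeticFunction.zeta_apply_ne h3]
  simp

/-- `log` is a derivation -/
theorem n2_der (f g : ArithmeticFunction ℝ) :
    ArithmeticFunction.pmul ArithmeticFunction.log (f * g) =
      ArithmeticFunction.pmul ArithmeticFunction.log f * g +
        f * ArithmeticFunction.pmul ArithmeticFunction.log g := by
  ext n
  rw [ArithmeticFunction.pmul_apply, ArithmeticFunction.add_apply, ArithmeticFunction.mul_apply,
    ArithmeticFunction.mul_apply, ArithmeticFunction.mul_apply, Finset.mul_sum,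
    ← Finset.sum_add_distrib]
  refine Finset.sum_congr rfl fun p hp => ?_
  have h1 := Nat.mem_divisorsAntidiagonal.1 hp
  have h2 : p.1 ≠ 0 := fun h => h1.2 (by rw [← h1.1, h, zero_mul])
  have h3 : p.2 ≠ 0 := fun h => h1.2 (by rw [← h1.1, h, mul_zero])
  rw [ArithmeticFunction.pmul_apply, ArithmeticFunction.pmul_apply,
    ArithmeticFunction.log_apply, ArithmeticFunction.log_apply, ArithmeticFunction.log_apply,
    ← h1.1, Nat.cast_mul, Real.log_mul (by exact_mod_cast h2) (by exact_mod_cast h3)]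
  ring

/-- a completely multiplicative function distributes over the convolution -/
theorem n2_dist {q : ℕ} {χ : ℕ → ℝ} (h : Chi q χ) (f g : ArithmeticFunction ℝ) :
    ArithmeticFunction.pmul (n2_f χ) (f * g) =
      ArithmeticFunction.pmul (n2_f χ) f * ArithmeticFunction.pmul (n2_f χ) g := by
  ext n
  rw [ArithmeticFunction.pmul_apply, ArithmeticFunction.mul_apply, ArithmeticFunction.mul_apply,
    Finset.mul_sum]
  refine Finset.sum_congr rfl fun p hp => ?_
  have h1 := Nat.mem_divisorsAntidiagonal.1 hp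
  have h2 : p.1 ≠ 0 := fun h => h1.2 (by rw [← h1.1, h, zero_mul])
  have h3 : p.2 ≠ 0 := fun h => h1.2 (by rw [← h1.1, h, mul_zero])
  rw [ArithmeticFunction.pmul_apply, ArithmeticFunction.pmul_apply, n2_f_apply χ h2,
    n2_f_apply χ h3, n2_f_apply χ h1.2, ← h1.1, h.mul]
  ring

theorem n2_zeta (χ : ℕ → ℝ) : ArithmeticFunction.pmul (n2_f χ)
    (ArithmeticFunction.zeta : ArithmeticFunction ℝ) = n2_f χ := by
  ext n
  rw [ArithmeticFunction.pmul_apply, ArithmeticFunction.natCoe_apply]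
  rcases eq_or_ne n 0 with h | h
  · rw [h]
    simp
  · rw [ArithmeticFunction.zeta_apply_ne h]
    simp

theorem n2_zeta' : ArithmeticFunction.pmul ArithmeticFunction.log
    (ArithmeticFunction.zeta : ArithmeticFunction ℝ) = ArithmeticFunction.log := by
  ext n
  rw [ArithmeticFunction.pmul_apply, ArithmeticFunction.natCoe_apply]
  rcases eq_or_ne n 0 with h | h
  · rw [h]
    simp
  · rw [ArithmeticFunction.zeta_apply_ne h]
    simp

/-- `r log = r * ((1 + χ) Λ)` -/
theorem n2_conv {q : ℕ} {χ : ℕ → ℝ} (h : Chi q χ) :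
    ArithmeticFunction.pmul ArithmeticFunction.log (n2_r χ) =
      (vonMangoldt + ArithmeticFunction.pmul (n2_f χ) vonMangoldt) * n2_r χ := by
  have h1 : ArithmeticFunction.pmul ArithmeticFunction.log (n2_f χ) =
      ArithmeticFunction.pmul (n2_f χ) vonMangoldt * n2_f χ := by
    rw [ArithmeticFunction.pmul_comm, ← ArithmeticFunction.vonMangoldt_mul_zeta, n2_dist h,
      n2_zeta]
  rw [n2_r, n2_der, n2_zeta', h1, ← ArithmeticFunction.vonMangoldt_mul_zeta]
  ring

theorem R_conv_pr {q : ℕ} {χ : ℕ → ℝ} (h : Chi q χ) (x : ℕ) :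
    ∑ d ∈ Finset.Icc 1 x, (1 + χ d) * vonMangoldt d * RR χ (x / d) ≤ Real.log x * RR χ x := by
  have hI : ∀ y : ℕ, Finset.Icc 1 y = Finset.Ioc 0 y := by
    intro y
    ext m
    rw [Finset.mem_Icc, Finset.mem_Ioc]
    omega
  have h1 := ArithmeticFunction.sum_Ioc_mul_eq_sum_sum
    (vonMangoldt + ArithmeticFunction.pmul (n2_f χ) vonMangoldt) (n2_r χ) x
  rw [← n2_conv h] at h1
  have h2 : ∑ d ∈ Finset.Icc 1 x, (1 + χ d) * vonMangoldt d * RR χ (x / d) =
      ∑ n ∈ Finset.Ioc 0 x, (vonMangoldt + ArithmeticFunction.pmul (n2_f χ) vonMangoldt) n *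
        ∑ m ∈ Finset.Ioc 0 (x / n), (n2_r χ) m := by
    rw [hI]
    refine Finset.sum_congr rfl fun d hd => ?_
    have hd0 : d ≠ 0 := by
      have := (Finset.mem_Ioc.1 hd).1
      omega
    rw [ArithmeticFunction.add_apply, ArithmeticFunction.pmul_apply, n2_f_apply χ hd0, RR, hI]
    simp only [n2_r_apply]
    ring
  rw [h2, ← h1, RR, hI, Finset.mul_sum]
  refine Finset.sum_le_sum fun m hm => ?_
  rw [ArithmeticFunction.pmul_apply, ArithmeticFunction.log_apply, n2_r_apply]
  have h3 := Finset.mem_Ioc.1 hm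
  refine mul_le_mul_of_nonneg_right (Real.log_le_log ?_ ?_) (rr_nonneg h m)
  · exact_mod_cast h3.1
  · exact_mod_cast h3.2

end Pool.Agent.Lib_helper34.GCE
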