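import Pool.Agent.Lib_helper34.GCEF.A0

/-!
# GCE, block N5: many primes with `χ(p) ≠ 1` if `L` is small
-/

set_option autoImplicit false

namespace Pool.Agent.Lib_helper34.GCE

open Pool.Agent.Lib_helper83.CS Pool.Agent.Lib_helper72.GC
open ArithmeticFunction (vonMangoldt)

theorem n5_dyadic (g : ℕ → ℝ) (a J : ℕ) :
    ∑ m ∈ Finset.Ioc a (a * 2 ^ J), g m =
      ∑ j ∈ Finset.range J, ∑ m ∈ Finset.Ioc (a * 2 ^ j) (a * 2 ^ (j + 1)), g m := by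
  induction J with
  | zero => simp
  | succ J ih =>
    rw [Finset.sum_range_succ, ← ih]
    rw [Finset.sum_Ioc_consecutive]
    · exact Nat.le_mul_of_pos_right _ (by positivity)
    · exact Nat.mul_le_mul_left _ (Nat.pow_le_pow_right (by norm_num) (Nat.le_succ J))

theorem n5_Icc (g : ℕ → ℝ) (n : ℕ) : ∑ m ∈ Finset.Icc 1 n, g m = ∑ m ∈ Finset.Ioc 0 n, g m := by
  refine Finset.sum_congr ?_ fun _ _ => rfl
  ext m
  simp only [Finset.mem_Icc, Finset.mem_Ioc]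
  omega

open Classical in
theorem n5_card {q : ℕ} {χ : ℕ → ℝ} {L : ℝ} (h : Chi q χ)
    (hR : ∀ x : ℕ, 1 ≤ x → |RR χ x - x * L| ≤ 10 * q * √(x : ℝ)) (hq1 : 1 ≤ q)
    (hl : 1 ≤ Real.log q) (hL : L ≤ 1 / Real.log q ^ 2) (hq : 10 * Real.log q ^ 2 ≤ √(q : ℝ))
    {Y : ℕ} (hY : q ^ 3 ≤ Y) :
    (((Finset.Ioc Y (2 * Y)).filter (fun p => p.Prime ∧ χ p = 1)).card : ℝ) ≤
      2 * Y / Real.log q ^ 2 := by
  set l := Real.log q with hldef
  have hl0 : 0 < l := by linarith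
  have hY1 : 1 ≤ Y := le_trans (Nat.one_le_pow _ _ hq1) hY
  have hqR : (1 : ℝ) ≤ q := by exact_mod_cast hq1
  have hYR : (q : ℝ) ^ 3 ≤ Y := by exact_mod_cast hY
  have hY0 : (0 : ℝ) < Y := by exact_mod_cast hY1
  -- lower bound for R
  have h1 : 2 * (((Finset.Ioc Y (2 * Y)).filter (fun p => p.Prime ∧ χ p = 1)).card : ℝ) ≤
      RR χ (2 * Y) := by
    have h2 : ∑ m ∈ (Finset.Ioc Y (2 * Y)).filter (fun p => p.Prime ∧ χ p = 1), rr χ m =
        2 * (((Finset.Ioc Y (2 * Y)).filter (fun p => p.Prime ∧ χ p = 1)).card : ℝ) := by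
      rw [Finset.sum_congr rfl (g := fun _ => (2 : ℝ))]
      · rw [Finset.sum_const, nsmul_eq_mul, mul_comm]
      · intro p hp
        rw [Finset.mem_filter] at hp
        rw [rr_prime h hp.2.1, hp.2.2]
        norm_num
    rw [← h2]
    unfold RR
    refine Finset.sum_le_sum_of_subset_of_nonneg ?_ fun m _ _ => rr_nonneg h m
    intro m hm
    rw [Finset.mem_filter, Finset.mem_Ioc] at hm
    rw [Finset.mem_Icc]
    omega
  have h3 := (abs_le.1 (hR (2 * Y) (by omega))).2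
  have hcast : ((2 * Y : ℕ) : ℝ) = 2 * Y := by push_cast; ring
  rw [hcast] at h3
  have h4 : (2 * Y : ℝ) * L ≤ 2 * Y / l ^ 2 := by
    calc (2 * Y : ℝ) * L ≤ (2 * Y) * (1 / l ^ 2) :=
        mul_le_mul_of_nonneg_left hL (by positivity)
      _ = 2 * Y / l ^ 2 := by ring
  have h5 : 10 * (q : ℝ) * √(2 * Y : ℝ) ≤ 2 * Y / l ^ 2 := by
    rw [le_div_iff₀ (by positivity)]
    have h6 : (q : ℝ) * (10 * l ^ 2) ≤ √(2 * Y : ℝ) := by
      apply Real.le_sqrt_of_sq_le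
      calc ((q : ℝ) * (10 * l ^ 2)) ^ 2 = (q : ℝ) ^ 2 * (10 * l ^ 2) ^ 2 := by ring
        _ ≤ (q : ℝ) ^ 2 * (√(q : ℝ)) ^ 2 := by
            refine mul_le_mul_of_nonneg_left ?_ (by positivity)
            exact pow_le_pow_left₀ (by positivity) hq 2
        _ = (q : ℝ) ^ 3 := by rw [Real.sq_sqrt (by linarith)]; ring
        _ ≤ 2 * Y := by linarith
    calc 10 * (q : ℝ) * √(2 * Y : ℝ) * l ^ 2 = ((q : ℝ) * (10 * l ^ 2)) * √(2 * Y : ℝ) := by ring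
      _ ≤ √(2 * Y : ℝ) * √(2 * Y : ℝ) := mul_le_mul_of_nonneg_right h6 (Real.sqrt_nonneg _)
      _ = 2 * Y := Real.mul_self_sqrt (by positivity)
  linarith

open Classical in
theorem n5_block {q : ℕ} {χ : ℕ → ℝ} {L : ℝ} (h : Chi q χ)
    (hR : ∀ x : ℕ, 1 ≤ x → |RR χ x - x * L| ≤ 10 * q * √(x : ℝ)) (hq1 : 1 ≤ q)
    (hl : 1 ≤ Real.log q) (hL : L ≤ 1 / Real.log q ^ 2) (hq : 10 * Real.log q ^ 2 ≤ √(q : ℝ))
    {Y : ℕ} (hY : q ^ 3 ≤ Y) (hY' : 2 * Y ≤ q ^ 18) :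
    ∑ p ∈ Finset.Ioc Y (2 * Y), (if p.Prime ∧ χ p = 1 then Real.log p / (p : ℝ) else 0) ≤
      36 / Real.log q := by
  have hc := n5_card h hR hq1 hl hL hq hY
  set l := Real.log q with hldef
  have hl0 : 0 < l := by linarith
  have hY1 : 1 ≤ Y := le_trans (Nat.one_le_pow _ _ hq1) hY
  have hY0 : (0 : ℝ) < Y := by exact_mod_cast hY1
  rw [← Finset.sum_filter]
  have h1 : ∀ p ∈ (Finset.Ioc Y (2 * Y)).filter (fun p => p.Prime ∧ χ p = 1),
      Real.log p / (p : ℝ) ≤ 18 * l / Y := by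
    intro p hp
    rw [Finset.mem_filter, Finset.mem_Ioc] at hp
    have hp1 : (Y : ℝ) < p := by exact_mod_cast hp.1.1
    have hp2 : (p : ℝ) ≤ (q : ℝ) ^ 18 := by exact_mod_cast hp.1.2.trans hY'
    have hp0 : (0 : ℝ) < p := hY0.trans hp1
    have h2 : Real.log p ≤ 18 * l := by
      have h3 := Real.log_le_log hp0 hp2
      rw [Real.log_pow] at h3
      exact_mod_cast h3
    have h4 : 0 ≤ Real.log p := Real.log_nonneg (by
      have : (1 : ℝ) ≤ Y := by exact_mod_cast hY1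
      linarith)
    exact div_le_div₀ (by positivity) h2 hY0 hp1.le
  calc ∑ p ∈ (Finset.Ioc Y (2 * Y)).filter (fun p => p.Prime ∧ χ p = 1), Real.log p / (p : ℝ)
      ≤ ∑ _p ∈ (Finset.Ioc Y (2 * Y)).filter (fun p => p.Prime ∧ χ p = 1), 18 * l / Y :=
        Finset.sum_le_sum h1
    _ = (((Finset.Ioc Y (2 * Y)).filter (fun p => p.Prime ∧ χ p = 1)).card : ℝ) *
        (18 * l / Y) := by rw [Finset.sum_const, nsmul_eq_mul]
    _ ≤ (2 * Y / l ^ 2) * (18 * l / Y) := mul_le_mul_of_nonneg_right hc (by positivity)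
    _ = 36 / l := by field_simp; ring

open Classical in
theorem n5_ones {q : ℕ} {χ : ℕ → ℝ} {L : ℝ} (h : Chi q χ)
    (hR : ∀ x : ℕ, 1 ≤ x → |RR χ x - x * L| ≤ 10 * q * √(x : ℝ)) (hq1 : 2 ≤ q)
    (hl : 1 ≤ Real.log q) (hL : L ≤ 1 / Real.log q ^ 2) (hq : 10 * Real.log q ^ 2 ≤ √(q : ℝ)) :
    ∑ p ∈ Finset.Ioc (q ^ 3) (q ^ 17),
      (if p.Prime ∧ χ p = 1 then Real.log p / (p : ℝ) else 0) ≤ 900 := by
  set l := Real.log q with hldef
  have hl0 : 0 < l := by linarith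
  set g : ℕ → ℝ := fun p => if p.Prime ∧ χ p = 1 then Real.log p / (p : ℝ) else 0 with hg
  have hg0 : ∀ p, 0 ≤ g p := by
    intro p
    rw [hg]
    show 0 ≤ ite _ _ _
    split_ifs
    · exact div_nonneg (Real.log_natCast_nonneg p) (Nat.cast_nonneg p)
    · exact le_rfl
  set J := Nat.clog 2 (q ^ 14) with hJ
  have hqJ : q ^ 14 ≤ 2 ^ J := Nat.le_pow_clog (by norm_num) _
  have hq14 : 1 < q ^ 14 := Nat.one_lt_pow (by norm_num) (by omega)
  have hJ0 : 0 < J := Nat.clog_pos (by norm_num) hq14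
  have hJl : 2 ^ (J - 1) < q ^ 14 := Nat.pow_pred_clog_lt_self (by norm_num) hq14
  have h1 : ∑ p ∈ Finset.Ioc (q ^ 3) (q ^ 17), g p ≤
      ∑ p ∈ Finset.Ioc (q ^ 3) (q ^ 3 * 2 ^ J), g p := by
    refine Finset.sum_le_sum_of_subset_of_nonneg ?_ fun p _ _ => hg0 p
    refine Finset.Ioc_subset_Ioc le_rfl ?_
    calc q ^ 17 = q ^ 3 * q ^ 14 := by ring
      _ ≤ q ^ 3 * 2 ^ J := Nat.mul_le_mul_left _ hqJ
  have h2 : ∑ p ∈ Finset.Ioc (q ^ 3) (q ^ 3 * 2 ^ J), g p ≤ J * (36 / l) := by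
    rw [n5_dyadic]
    have h3 : ∀ j ∈ Finset.range J,
        ∑ m ∈ Finset.Ioc (q ^ 3 * 2 ^ j) (q ^ 3 * 2 ^ (j + 1)), g m ≤ 36 / l := by
      intro j hj
      rw [Finset.mem_range] at hj
      have e : q ^ 3 * 2 ^ (j + 1) = 2 * (q ^ 3 * 2 ^ j) := by rw [pow_succ]; ring
      rw [e]
      have h4 : 2 ^ j < q ^ 14 :=
        lt_of_le_of_lt (Nat.pow_le_pow_right (by norm_num) (by omega)) hJl
      refine n5_block h hR (by omega) hl hL hq (Nat.le_mul_of_pos_right _ (by positivity)) ?_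
      calc 2 * (q ^ 3 * 2 ^ j) ≤ q * (q ^ 3 * q ^ 14) :=
          Nat.mul_le_mul hq1 (Nat.mul_le_mul_left _ h4.le)
        _ = q ^ 18 := by ring
    calc _ ≤ ∑ _j ∈ Finset.range J, 36 / l := Finset.sum_le_sum h3
      _ = J * (36 / l) := by rw [Finset.sum_const, Finset.card_range, nsmul_eq_mul]
  have h3 : (J : ℝ) ≤ 25 * l := by
    have h4 : ((J - 1 : ℕ) : ℝ) * Real.log 2 ≤ 14 * l := by
      have h5 : ((2 : ℝ)) ^ (J - 1) ≤ (q : ℝ) ^ 14 := by exact_mod_cast hJl.le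
      have h6 := Real.log_le_log (by positivity) h5
      rw [Real.log_pow, Real.log_pow] at h6
      exact_mod_cast h6
    have h7 : (0.6 : ℝ) ≤ Real.log 2 := by
      have := Real.log_two_gt_d9
      linarith
    have h8 : ((J - 1 : ℕ) : ℝ) = J - 1 := by rw [Nat.cast_sub hJ0]; norm_num
    rw [h8] at h4
    have h9 : ((J : ℝ) - 1) * 0.6 ≤ 14 * l := by
      have : (1 : ℝ) ≤ J := by exact_mod_cast hJ0
      exact le_trans (mul_le_mul_of_nonneg_left h7 (by linarith)) h4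
    linarith
  calc ∑ p ∈ Finset.Ioc (q ^ 3) (q ^ 17), g p ≤ J * (36 / l) := h1.trans h2
    _ ≤ 25 * l * (36 / l) := mul_le_mul_of_nonneg_right h3 (by positivity)
    _ = 900 := by field_simp; norm_num

open Classical in
theorem n5_primes {C C' : ℝ} (hC : ∀ x : ℕ, 1 ≤ x →
    |∑ d ∈ Finset.Icc 1 x, vonMangoldt d / (d : ℝ) - Real.log x| ≤ C)
    (hC' : ∀ x : ℕ, ∑ d ∈ (Finset.Icc 1 x).filter (fun d => ¬ d.Prime),
      vonMangoldt d / (d : ℝ) ≤ C') {q : ℕ} (hq : 1 ≤ q) :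
    14 * Real.log q - 2 * C - C' ≤
      ∑ p ∈ Finset.Ioc (q ^ 3) (q ^ 17), (if p.Prime then Real.log p / (p : ℝ) else 0) := by
  have h17 := (abs_le.1 (hC (q ^ 17) (Nat.one_le_pow _ _ hq))).1
  have h3 := (abs_le.1 (hC (q ^ 3) (Nat.one_le_pow _ _ hq))).2
  rw [n5_Icc] at h17 h3
  have hlog : ∀ k : ℕ, Real.log ((q ^ k : ℕ) : ℝ) = k * Real.log q := by
    intro k
    rw [Nat.cast_pow, Real.log_pow]
  rw [hlog] at h17 h3
  have hsplit := Finset.sum_Ioc_consecutive (fun d : ℕ => vonMangoldt d / (d : ℝ))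
    (Nat.zero_le (q ^ 3)) (Nat.pow_le_pow_right hq (by norm_num : 3 ≤ 17))
  have hsum : ∑ d ∈ Finset.Ioc (q ^ 3) (q ^ 17), vonMangoldt d / (d : ℝ) ≤
      ∑ p ∈ Finset.Ioc (q ^ 3) (q ^ 17), (if p.Prime then Real.log p / (p : ℝ) else 0) + C' := by
    have h4 : ∑ d ∈ Finset.Ioc (q ^ 3) (q ^ 17), vonMangoldt d / (d : ℝ) =
        ∑ p ∈ Finset.Ioc (q ^ 3) (q ^ 17), (if p.Prime then Real.log p / (p : ℝ) else 0) +
        ∑ d ∈ (Finset.Ioc (q ^ 3) (q ^ 17)).filter (fun d => ¬ d.Prime),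
          vonMangoldt d / (d : ℝ) := by
      rw [← Finset.sum_filter_add_sum_filter_not (Finset.Ioc (q ^ 3) (q ^ 17)) Nat.Prime
        (fun d => vonMangoldt d / (d : ℝ))]
      congr 1
      rw [Finset.sum_filter]
      refine Finset.sum_congr rfl fun d _ => ?_
      split_ifs with hd
      · rw [ArithmeticFunction.vonMangoldt_apply_prime hd]
      · rfl
    rw [h4]
    have h5 : ∑ d ∈ (Finset.Ioc (q ^ 3) (q ^ 17)).filter (fun d => ¬ d.Prime),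
        vonMangoldt d / (d : ℝ) ≤
        ∑ d ∈ (Finset.Icc 1 (q ^ 17)).filter (fun d => ¬ d.Prime),
          vonMangoldt d / (d : ℝ) := by
      refine Finset.sum_le_sum_of_subset_of_nonneg ?_ fun d _ _ =>
        div_nonneg ArithmeticFunction.vonMangoldt_nonneg (Nat.cast_nonneg d)
      intro d hd
      rw [Finset.mem_filter, Finset.mem_Ioc] at hd
      rw [Finset.mem_filter, Finset.mem_Icc]
      exact ⟨⟨by omega, hd.1.2⟩, hd.2⟩
    have h6 := hC' (q ^ 17)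
    linarith
  push_cast at h17 h3
  linarith

open Classical in
/-- N5. Many primes with `χ(p) ≠ 1` if `L` is small. -/
theorem neg_small_pr : ∃ q0 : ℕ, ∀ (q : ℕ) (χ : ℕ → ℝ) (L : ℝ), Chi q χ → q0 ≤ q →
    (∀ x : ℕ, 1 ≤ x → |RR χ x - x * L| ≤ 10 * q * √(x : ℝ)) → L ≤ 1 / Real.log q ^ 2 →
    Real.log q ≤ ∑ p ∈ (Finset.Ioc (q ^ 3) (q ^ 17)).filter (fun p => p.Prime ∧ χ p ≠ 1),
      Real.log p / (p : ℝ) := by
  obtain ⟨C, hC0, hC⟩ := mer
  obtain ⟨C', hC0', hC'⟩ := mer_pow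
  obtain ⟨K, hK⟩ : ∃ K : ℝ, K = 1 + 2 * C + C' + 900 := ⟨_, rfl⟩
  refine ⟨max (640 ^ 4) (⌈Real.exp K⌉₊), fun q χ L h hq0 hR hL => ?_⟩
  have hq4 : 640 ^ 4 ≤ q := (le_max_left _ _).trans hq0
  have hqe : ⌈Real.exp K⌉₊ ≤ q := (le_max_right _ _).trans hq0
  have hq2 : 2 ≤ q := by
    have : 2 ≤ 640 ^ 4 := by norm_num
    omega
  have hqR : (0 : ℝ) < q := by
    have : 0 < q := by omega
    exact_mod_cast this
  have hlK : K ≤ Real.log q := by
    rw [Real.le_log_iff_exp_le hqR]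
    exact (Nat.le_ceil _).trans (by exact_mod_cast hqe)
  have hl : 1 ≤ Real.log q := by linarith
  have hsq : 10 * Real.log q ^ 2 ≤ √(q : ℝ) := by
    have h1 : Real.log q ≤ (q : ℝ) ^ (1 / 8 : ℝ) / (1 / 8) :=
      Real.log_le_rpow_div hqR.le (by norm_num)
    have h2 : Real.log q ^ 2 ≤ 64 * (q : ℝ) ^ (1 / 4 : ℝ) := by
      have h3 : (q : ℝ) ^ (1 / 4 : ℝ) = ((q : ℝ) ^ (1 / 8 : ℝ)) ^ 2 := by
        rw [← Real.rpow_natCast, ← Real.rpow_mul hqR.le]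
        norm_num
      rw [h3]
      have h4 : Real.log q ≤ 8 * (q : ℝ) ^ (1 / 8 : ℝ) := by linarith
      calc Real.log q ^ 2 ≤ (8 * (q : ℝ) ^ (1 / 8 : ℝ)) ^ 2 :=
          pow_le_pow_left₀ (by linarith) h4 2
        _ = _ := by ring
    have h5 : √(q : ℝ) = (q : ℝ) ^ (1 / 4 : ℝ) * (q : ℝ) ^ (1 / 4 : ℝ) := by
      rw [Real.sqrt_eq_rpow, ← Real.rpow_add hqR]
      norm_num
    have h6 : (640 : ℝ) ≤ (q : ℝ) ^ (1 / 4 : ℝ) := by
      have h7 : ((640 : ℝ) ^ 4) ≤ q := by exact_mod_cast hq4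
      have h8 : (640 : ℝ) = ((640 : ℝ) ^ 4) ^ (1 / 4 : ℝ) := by
        rw [← Real.rpow_natCast, ← Real.rpow_mul (by norm_num)]
        norm_num
      rw [h8]
      exact Real.rpow_le_rpow (by positivity) h7 (by norm_num)
    rw [h5]
    have h9 : 0 ≤ (q : ℝ) ^ (1 / 4 : ℝ) := by positivity
    nlinarith
  have h1 := n5_ones h hR hq2 hl hL hsq
  have h2 := n5_primes hC hC' (q := q) (by omega)
  have h3 : ∑ p ∈ (Finset.Ioc (q ^ 3) (q ^ 17)).filter (fun p => p.Prime ∧ χ p ≠ 1),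
      Real.log p / (p : ℝ) =
      ∑ p ∈ Finset.Ioc (q ^ 3) (q ^ 17), (if p.Prime then Real.log p / (p : ℝ) else 0) -
      ∑ p ∈ Finset.Ioc (q ^ 3) (q ^ 17),
        (if p.Prime ∧ χ p = 1 then Real.log p / (p : ℝ) else 0) := by
    rw [Finset.sum_filter, ← Finset.sum_sub_distrib]
    refine Finset.sum_congr rfl fun p _ => ?_
    by_cases hp : p.Prime
    · by_cases hx : χ p = 1
      · simp [hp, hx]
      · simp [hp, hx]
    · simp [hp]
  rw [h3]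
  linarith


end Pool.Agent.Lib_helper34.GCE
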