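import Pool.Agent.Lib_helper34.GCEF.A0
import Pool.Agent.Lib_helper34.GCEF.B_N1
import Pool.Agent.Lib_helper34.GCEF.B_N2
import Pool.Agent.Lib_helper34.GCEF.B_N5
import Pool.Agent.Lib_helper34.GCEF.B_C2
import Pool.Agent.Lib_helper34.GCEF.B_G2
import Pool.Agent.Lib_helper34.GCEF.B_G4

/-! # GCE: statements of level 1 -/

set_option autoImplicit false

namespace Pool.Agent.Lib_helper34.GCE

theorem R_asymp : type_of% @R_asymp_pr := @R_asymp_pr

theorem R_conv : type_of% @R_conv_pr := @R_conv_pr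

theorem neg_small : type_of% @neg_small_pr := @neg_small_pr

theorem DD_facts : type_of% @DD_facts_pr := @DD_facts_pr

theorem chi_disc : type_of% @chi_disc_pr := @chi_disc_pr

theorem box_O : type_of% @box_O_pr := @box_O_pr

theorem Nm_Lam : type_of% @Nm_Lam_pr := @Nm_Lam_pr

theorem Lam_ne : type_of% @Lam_ne_pr := @Lam_ne_pr

end Pool.Agent.Lib_helper34.GCE
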