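import Pool.Agent.Lib_helper34.GCEF.A1

/-! # GCE block C4: the label of a prime -/

set_option autoImplicit false

namespace Pool.Agent.Lib_helper34.GCE

open Pool.Agent.Lib_helper83.CS Pool.Agent.Lib_helper72.GC

theorem label_of_neg_pr (n : ℤ) (hn : 100 ≤ |n|) {p : ℕ} (hp : p.Prime) (hpD : DD n < p)
    (h : chD n p ≠ 1) : ∃ l : ℤ, 0 ≤ l ∧ l < p ∧ IsLab (-1) (-1) n p l := by
  have := Fact.mk hp
  obtain ⟨h1, h2, h3, _, _⟩ := DD_facts n hn
  obtain ⟨D, hD⟩ : ∃ D : ℕ, D = (DD n).toNat := ⟨_, rfl⟩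
  have hDD : (D : ℤ) = DD n := by
    rw [hD]
    exact Int.toNat_of_nonneg h1.le
  have hDpos : 0 < D := by omega
  have hDp : D < p := by omega
  have hp2 : p ≠ 2 := by
    intro hp2
    apply h3
    have h4 : DD n = 1 := by omega
    rw [h4]
    exact ⟨1, by norm_num⟩
  have hgcd : (p : ℤ).gcd D = 1 := by
    rw [Int.gcd_natCast_natCast]
    exact (Nat.Prime.coprime_iff_not_dvd hp).mpr (Nat.not_dvd_of_pos_of_lt hDpos hDp)
  have hJ : jacobiSym (p : ℤ) D = -1 := by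
    rcases jacobiSym.eq_one_or_neg_one hgcd with h6 | h6
    · exfalso
      apply h
      unfold chD
      rw [← hD, h6]
      norm_num
    · exact h6
  have hpo : Odd p := hp.odd_of_ne_two hp2
  have hD4 : D % 4 = 1 := by omega
  have hJ2 : jacobiSym (D : ℤ) p = -1 := by
    rw [jacobiSym.quadratic_reciprocity_one_mod_four hD4 hpo]
    exact hJ
  have hns : ¬ IsSquare ((D : ℤ) : ZMod p) := by
    rw [← legendreSym.eq_neg_one_iff p, jacobiSym.legendreSym.to_jacobiSym]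
    exact hJ2
  have hdisc : ((-(n : ZMod p)) ^ 2 * ((n : ZMod p) - 1) ^ 2 - 4 * ((n : ZMod p) - 1) ^ 3 -
      4 * (-(n : ZMod p)) ^ 3 * (-1) - 27 * (-1) ^ 2 +
      18 * (-(n : ZMod p)) * ((n : ZMod p) - 1) * (-1)) = ((D : ℤ) : ZMod p) := by
    rw [hDD]
    unfold DD
    push_cast
    ring
  obtain ⟨x, hx⟩ := cubic_root hp2 (-(n : ZMod p)) ((n : ZMod p) - 1) (-1) (by
    rw [hdisc]
    exact hns)
  refine ⟨(x.val : ℤ), by positivity, by exact_mod_cast x.val_lt, by exact_mod_cast hp.pos, ?_⟩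
  rw [← ZMod.intCast_zmod_eq_zero_iff_dvd]
  unfold FF
  push_cast
  rw [ZMod.natCast_zmod_val]
  linear_combination hx


end Pool.Agent.Lib_helper34.GCE
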