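import Pool.Agent.Lib_helper34.GCEF.A1
import Pool.Agent.Lib_helper72.GC.TreeG

/-!
# GCE block G6: elements of `Lam` in a box of bounded volume
-/

set_option autoImplicit false

namespace Pool.Agent.Lib_helper34.GCE

open Pool.Agent.Lib_helper83.CS Pool.Agent.Lib_helper72.GC

/-- `Lam` is closed under subtraction. -/
theorem g6_sub {θ : V} {d c : ℤ} {x y : V} (hx : x ∈ Lam θ d c) (hy : y ∈ Lam θ d c) :
    (fun i => x i - y i) ∈ Lam θ d c := by
  obtain ⟨⟨a1, b1, c1, h1⟩, ⟨a2, b2, c2, h2⟩⟩ := hx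
  obtain ⟨⟨a3, b3, c3, h3⟩, ⟨a4, b4, c4, h4⟩⟩ := hy
  refine ⟨⟨a1 - a3, b1 - b3, c1 - c3, fun i => ?_⟩, ⟨a2 - a4, b2 - b4, c2 - c4, fun i => ?_⟩⟩
  · have := h1 i
    have := h3 i
    push_cast
    simp only at *
    linarith
  · have := h2 i
    have := h4 i
    push_cast
    simp only at *
    linarith

/-- G6. Elements of `Lam` in a box of bounded volume. -/
theorem box_Lam_pr (F : Frame) (hs : F.s = -1) (ht : F.t = -1) (hn : 10 ^ 20 ≤ |F.n|) {d c : ℤ}
    (hl : IsLab (-1) (-1) F.n d c) (hd : (F.n : ℝ) ^ 8 ≤ d) (B : V) (hB0 : ∀ i, 0 < B i)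
    (hB : B 0 * B 1 * B 2 ≤ 16) (S : Finset V)
    (hS : ∀ x ∈ S, x ∈ Lam F.θ d c ∧ ∀ i, |x i| ≤ B i) :
    (S.card : ℝ) ≤ 10 ^ 8 * d / (F.n : ℝ) ^ 2 := by
  classical
  have hnr : (10 : ℝ) ^ 20 ≤ |(F.n : ℝ)| := by exact_mod_cast hn
  have hn2 : (1 : ℝ) ≤ (F.n : ℝ) ^ 2 := by
    have h1 : (1 : ℝ) ≤ |(F.n : ℝ)| := le_trans (by norm_num) hnr
    calc (1 : ℝ) ≤ |(F.n : ℝ)| ^ 2 := one_le_pow₀ h1
      _ = (F.n : ℝ) ^ 2 := sq_abs _
  have hn2p : (0 : ℝ) < (F.n : ℝ) ^ 2 := by linarith
  have hdr : (0 : ℝ) < d := by exact_mod_cast hl.1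
  rcases le_or_gt (S.card : ℝ) (10 ^ 8 * d / (F.n : ℝ) ^ 2) with h | h
  · exact h
  exfalso
  have hT : 10 ^ 8 * ((F.n : ℝ) ^ 2) ^ 3 < S.card := by
    refine lt_of_le_of_lt ?_ h
    rw [le_div_iff₀ hn2p]
    nlinarith [hd]
  set K : ℕ := F.n.natAbs ^ 2 with hKdef
  have hK : (K : ℝ) = (F.n : ℝ) ^ 2 := by
    rw [hKdef]
    push_cast
    rw [Nat.cast_natAbs]
    push_cast
    rw [sq_abs]
  have hK1 : 1 ≤ K := by
    have : (1 : ℝ) ≤ (K : ℝ) := by rw [hK]; exact hn2
    exact_mod_cast this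
  have hc : (K + 1) ^ 3 < S.card := by
    have h1 : ((K : ℝ) + 1) ^ 3 ≤ (2 * (F.n : ℝ) ^ 2) ^ 3 := by
      apply pow_le_pow_left₀ (by positivity)
      rw [hK]
      linarith
    have h2 : (2 * (F.n : ℝ) ^ 2) ^ 3 ≤ 10 ^ 8 * ((F.n : ℝ) ^ 2) ^ 3 := by
      have : (0 : ℝ) ≤ ((F.n : ℝ) ^ 2) ^ 3 := by positivity
      nlinarith
    have h3 : ((K : ℝ) + 1) ^ 3 < S.card := lt_of_le_of_lt (h1.trans h2) hT
    exact_mod_cast h3
  obtain ⟨x, hx, y, hy, hxy, hdel⟩ := pig S B hB0 (fun x hx => (hS x hx).2) K hK1 hc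
  have hKr : (0 : ℝ) < K := by exact_mod_cast hK1
  set δ : V := fun i => x i - y i with hδdef
  have hδ : δ ∈ Lam F.θ d c := g6_sub (hS x hx).1 (hS y hy).1
  have hδne : δ ≠ fun _ => 0 := by
    intro h0
    apply hxy
    funext i
    have := congrFun h0 i
    simp only [hδdef] at this
    linarith
  have h0 : ∀ i, δ i ≠ 0 := Lam_ne F hl.1 hδ hδne
  have hδp : ∀ i, 0 < |δ i| := fun i => abs_pos.mpr (h0 i)
  have hδle : ∀ i, |δ i| ≤ 2 * B i / K := fun i => hdel i
  have hNm : 0 < |Nm δ| := by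
    rw [abs_pos, Nm]
    exact mul_ne_zero (mul_ne_zero (h0 0) (h0 1)) (h0 2)
  have hNmeq : |Nm δ| = |δ 0| * |δ 1| * |δ 2| := by
    rw [Nm, abs_mul, abs_mul]
  have key := coset_bound F hs ht hl hδ h0 S (fun x hx => (hS x hx).1)
    (10 ^ 4 * (128 / |Nm δ|) / (F.n : ℝ) ^ 2) (by
      intro T hTS hTc
      rcases T.eq_empty_or_nonempty with rfl | ⟨x0, hx0⟩
      · simp only [Finset.card_empty, Nat.cast_zero]
        positivity
      · set g : V → V := fun x i => (x i - x0 i) / δ i with hg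
        have hinj : Function.Injective g := by
          intro a b hab
          funext i
          have h1 := congrFun hab i
          simp only [hg] at h1
          have h2 := h0 i
          field_simp at h1
          linarith
        have hcard : (T.image g).card = T.card := Finset.card_image_of_injective T hinj
        set C : V := fun i => 2 * B i / |δ i| with hC
        have hCi : ∀ i, (F.n : ℝ) ^ 2 ≤ C i := by
          intro i
          rw [← hK]
          simp only [hC]
          rw [le_div_iff₀ (hδp i)]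
          have := hδle i
          rw [le_div_iff₀ hKr] at this
          linarith
        have hmem : ∀ z ∈ T.image g, z ∈ O F.θ ∧ ∀ i, |z i| ≤ C i := by
          intro z hz
          rw [Finset.mem_image] at hz
          obtain ⟨a, ha, rfl⟩ := hz
          constructor
          · obtain ⟨w, hw, hw2⟩ := hTc a ha x0 hx0
            have : g a = w := by
              funext i
              simp only [hg]
              rw [hw2 i]
              field_simp [h0 i]
            rw [this]
            exact hw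
          · intro i
            simp only [hg, hC]
            rw [abs_div]
            apply div_le_div_of_nonneg_right _ (hδp i).le
            have h1 := (hS a (hTS ha)).2 i
            have h2 := (hS x0 (hTS hx0)).2 i
            calc |a i - x0 i| ≤ |a i| + |x0 i| := abs_sub _ _
              _ ≤ 2 * B i := by linarith
        have h1 := box_O F hn C hCi (T.image g) hmem
        rw [hcard] at h1
        refine h1.trans ?_
        apply div_le_div_of_nonneg_right _ hn2p.le
        apply mul_le_mul_of_nonneg_left _ (by norm_num)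
        have h2 : C 0 * C 1 * C 2 = 8 * (B 0 * B 1 * B 2) / |Nm δ| := by
          rw [hNmeq]
          simp only [hC]
          have := (hδp 0).ne'
          have := (hδp 1).ne'
          have := (hδp 2).ne'
          field_simp
          ring
        rw [h2]
        apply div_le_div_of_nonneg_right _ hNm.le
        linarith)
  have h5 : (d : ℝ) * |Nm δ| * (10 ^ 4 * (128 / |Nm δ|) / (F.n : ℝ) ^ 2)
      = 1280000 * d / (F.n : ℝ) ^ 2 := by
    have := hNm.ne'
    field_simp
    ring
  rw [h5] at key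
  have h6 : (1280000 : ℝ) * d / (F.n : ℝ) ^ 2 ≤ 10 ^ 8 * d / (F.n : ℝ) ^ 2 := by
    apply div_le_div_of_nonneg_right _ hn2p.le
    nlinarith
  linarith


end Pool.Agent.Lib_helper34.GCE
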