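import Pool.Agent.Lib_helper34.GCEF.A1

/-!
# GCE block N4: many primes with `χ(p) ≠ 1` if `L` is not small
-/

set_option autoImplicit false

namespace Pool.Agent.Lib_helper34.GCE

open ArithmeticFunction (vonMangoldt)

theorem n4_ev (M : ℝ) : ∀ᶠ q : ℕ in Filter.atTop,
    200 * Real.log q ^ 2 ≤ √(q : ℝ) ∧ M ≤ Real.log q ∧ 100 ≤ q := by
  have h1 : ∀ᶠ q : ℕ in Filter.atTop, 200 * Real.log q ^ 2 ≤ √(q : ℝ) := by
    have h := (Real.isLittleO_pow_log_id_atTop (n := 2)).bound (c := 1 / 800) (by norm_num)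
    have ht : Filter.Tendsto (fun q : ℕ => √(q : ℝ)) Filter.atTop Filter.atTop :=
      Real.tendsto_sqrt_atTop.comp tendsto_natCast_atTop_atTop
    filter_upwards [ht.eventually h] with q hq
    have hl : Real.log √(q : ℝ) = Real.log q / 2 := Real.log_sqrt (by positivity)
    rw [hl] at hq
    simp only [id, Real.norm_eq_abs] at hq
    rw [abs_of_nonneg (by positivity), abs_of_nonneg (Real.sqrt_nonneg _)] at hq
    nlinarith
  have h2 : ∀ᶠ q : ℕ in Filter.atTop, M ≤ Real.log q :=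
    (Real.tendsto_log_atTop.comp tendsto_natCast_atTop_atTop).eventually_ge_atTop M
  filter_upwards [h1, h2, Filter.eventually_ge_atTop 100] with q a b c
  exact ⟨a, b, c⟩

theorem n4_RR_nonneg {q : ℕ} {χ : ℕ → ℝ} (h : Chi q χ) (x : ℕ) : 0 ≤ RR χ x := by
  unfold RR
  exact Finset.sum_nonneg fun m _ => rr_nonneg h m

theorem n4_bd {q : ℕ} {χ : ℕ → ℝ} (h : Chi q χ) (d : ℕ) :
    0 ≤ 1 + χ d ∧ 0 ≤ 1 - χ d ∧ 1 - χ d ≤ 2 := by
  rcases h.val d with h | h | h <;> rw [h] <;> norm_num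

open Classical in
/-- N4. Many primes with `χ(p) ≠ 1` if `L` is not small. -/
theorem neg_large_pr : ∃ q0 : ℕ, ∀ (q : ℕ) (χ : ℕ → ℝ) (L : ℝ), Chi q χ → q0 ≤ q →
    (∀ x : ℕ, 1 ≤ x → |RR χ x - x * L| ≤ 10 * q * √(x : ℝ)) → 1 / Real.log q ^ 2 ≤ L →
    Real.log q ≤ ∑ p ∈ (Finset.Ioc (q ^ 3) (q ^ 17)).filter (fun p => p.Prime ∧ χ p ≠ 1),
      Real.log p / (p : ℝ) := by
  obtain ⟨C, hC0, hC⟩ := mer
  obtain ⟨C', hC'0, hC'⟩ := mer_pow
  obtain ⟨q0, hq0⟩ := Filter.eventually_atTop.mp (n4_ev (2 * C + C' + 1))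
  refine ⟨q0, fun q χ L hχ hq hR hL => ?_⟩
  obtain ⟨hs, hl, h100⟩ := hq0 q hq
  set l : ℝ := Real.log q with hldef
  have hl1 : 1 ≤ l := by linarith
  have hqr : (100 : ℝ) ≤ q := by exact_mod_cast h100
  have hqp : (0 : ℝ) < q := by linarith
  have hL0 : 0 < L := lt_of_lt_of_le (by positivity) hL
  have h3 : 200 ≤ √(q : ℝ) * L := by
    have h1 : 200 * l ^ 2 * (1 / l ^ 2) ≤ √(q : ℝ) * L :=
      mul_le_mul hs hL (by positivity) (Real.sqrt_nonneg _)
    have h2 : 200 * l ^ 2 * (1 / l ^ 2) = 200 := by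
      have : l ≠ 0 := by linarith
      field_simp
    linarith
  have key : ∀ t : ℕ, q ^ 3 ≤ t → 10 * (q : ℝ) * √(t : ℝ) ≤ (1 / 20) * t * L := by
    intro t ht
    have h1 : (q : ℝ) * √(q : ℝ) ≤ √(t : ℝ) := by
      have e : (q : ℝ) * √(q : ℝ) = √((q : ℝ) ^ 3) := by
        rw [show (q : ℝ) ^ 3 = (q : ℝ) ^ 2 * q by ring, Real.sqrt_mul (by positivity),
          Real.sqrt_sq hqp.le]
      rw [e]
      apply Real.sqrt_le_sqrt
      exact_mod_cast ht
    have h4 : 10 * (q : ℝ) ≤ (1 / 20) * √(t : ℝ) * L := by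
      have h5 : (q : ℝ) * √(q : ℝ) * L ≤ √(t : ℝ) * L := mul_le_mul_of_nonneg_right h1 hL0.le
      have h6 : (q : ℝ) * 200 ≤ q * (√(q : ℝ) * L) := mul_le_mul_of_nonneg_left h3 hqp.le
      nlinarith
    have h2 : √(t : ℝ) * √(t : ℝ) = t := Real.mul_self_sqrt (by positivity)
    calc 10 * (q : ℝ) * √(t : ℝ) ≤ ((1 / 20) * √(t : ℝ) * L) * √(t : ℝ) :=
          mul_le_mul_of_nonneg_right h4 (Real.sqrt_nonneg _)
      _ = (1 / 20) * (√(t : ℝ) * √(t : ℝ)) * L := by ring
      _ = (1 / 20) * t * L := by rw [h2]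
  set x : ℕ := q ^ 20 with hx
  have hq1 : 1 ≤ q := by omega
  have hx1 : 1 ≤ x := Nat.one_le_pow _ _ hq1
  have hxr : (x : ℝ) = (q : ℝ) ^ 20 := by rw [hx]; push_cast; ring
  have hxp : (0 : ℝ) < x := by rw [hxr]; positivity
  have hRx : RR χ x ≤ (21 / 20) * x * L := by
    have h1 := (abs_le.mp (hR x hx1)).2
    have h2 := key x (Nat.pow_le_pow_right hq1 (by norm_num))
    nlinarith
  have hRd : ∀ d ∈ Finset.Icc 1 (q ^ 17), (9 / 10) * ((x : ℝ) / d) * L ≤ RR χ (x / d) := by
    intro d hd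
    rw [Finset.mem_Icc] at hd
    have hdp : (0 : ℝ) < d := by exact_mod_cast hd.1
    have ht : q ^ 3 ≤ x / d := by
      rw [Nat.le_div_iff_mul_le (by omega)]
      calc q ^ 3 * d ≤ q ^ 3 * q ^ 17 := Nat.mul_le_mul_left _ hd.2
        _ = x := by rw [hx]; ring
    have ht1 : 1 ≤ x / d := le_trans (Nat.one_le_pow _ _ hq1) ht
    have h1 := (abs_le.mp (hR (x / d) ht1)).1
    have h2 := key (x / d) ht
    have h4 : (x : ℝ) / d < ((x / d : ℕ) : ℝ) + 1 := by
      rw [div_lt_iff₀ hdp]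
      have h5 : x < (x / d + 1) * d := by
        have := Nat.lt_mul_div_succ x (show 0 < d by omega)
        calc x < d * (x / d + 1) := this
          _ = (x / d + 1) * d := by ring
      exact_mod_cast h5
    have h5 : (q : ℝ) ^ 3 ≤ ((x / d : ℕ) : ℝ) := by exact_mod_cast ht
    have h6 : (1000000 : ℝ) ≤ (q : ℝ) ^ 3 := by
      calc (1000000 : ℝ) = 100 ^ 3 := by norm_num
        _ ≤ (q : ℝ) ^ 3 := pow_le_pow_left₀ (by norm_num) hqr 3
    set t : ℝ := ((x / d : ℕ) : ℝ)
    have h7 : (9 / 10) * ((x : ℝ) / d) ≤ (19 / 20) * t := by nlinarith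
    have h8 : (9 / 10) * ((x : ℝ) / d) * L ≤ (19 / 20) * t * L :=
      mul_le_mul_of_nonneg_right h7 hL0.le
    nlinarith
  set A : ℝ := ∑ d ∈ Finset.Icc 1 (q ^ 17), (1 + χ d) * vonMangoldt d / (d : ℝ) with hA
  have hAle : A ≤ (70 / 3) * l := by
    have h1 : (9 / 10) * x * L * A ≤
        ∑ d ∈ Finset.Icc 1 x, (1 + χ d) * vonMangoldt d * RR χ (x / d) := by
      calc (9 / 10) * x * L * A
          = ∑ d ∈ Finset.Icc 1 (q ^ 17), (1 + χ d) * vonMangoldt d *
              ((9 / 10) * ((x : ℝ) / d) * L) := by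
            rw [hA, Finset.mul_sum]
            apply Finset.sum_congr rfl
            intro d _
            ring
        _ ≤ ∑ d ∈ Finset.Icc 1 (q ^ 17), (1 + χ d) * vonMangoldt d * RR χ (x / d) := by
            apply Finset.sum_le_sum
            intro d hd
            apply mul_le_mul_of_nonneg_left (hRd d hd)
            exact mul_nonneg (n4_bd hχ d).1 ArithmeticFunction.vonMangoldt_nonneg
        _ ≤ ∑ d ∈ Finset.Icc 1 x, (1 + χ d) * vonMangoldt d * RR χ (x / d) := by
            apply Finset.sum_le_sum_of_subset_of_nonneg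
            · apply Finset.Icc_subset_Icc_right
              exact Nat.pow_le_pow_right hq1 (by norm_num)
            · intro d _ _
              exact mul_nonneg (mul_nonneg (n4_bd hχ d).1 ArithmeticFunction.vonMangoldt_nonneg)
                (n4_RR_nonneg hχ _)
    have h2 := R_conv hχ x
    have h4 : Real.log x = 20 * l := by
      rw [hxr, Real.log_pow]
      push_cast
      rfl
    have h5 : Real.log x * RR χ x ≤ 20 * l * ((21 / 20) * x * L) := by
      rw [h4]
      apply mul_le_mul_of_nonneg_left hRx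
      linarith
    have h6 : (9 / 10) * x * L * A ≤ (9 / 10) * x * L * ((70 / 3) * l) := by
      calc (9 / 10) * x * L * A ≤ 20 * l * ((21 / 20) * x * L) := by linarith
        _ = (9 / 10) * x * L * ((70 / 3) * l) := by ring
    exact le_of_mul_le_mul_left h6 (by positivity)
  have hM1 : 17 * l - C ≤ ∑ d ∈ Finset.Icc 1 (q ^ 17), vonMangoldt d / (d : ℝ) := by
    have h1 := (abs_le.mp (hC (q ^ 17) (Nat.one_le_pow _ _ hq1))).1
    have h2 : Real.log ((q ^ 17 : ℕ) : ℝ) = 17 * l := by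
      push_cast
      rw [Real.log_pow]
      push_cast
      rfl
    rw [h2] at h1
    linarith
  have hM0 : ∑ d ∈ Finset.Icc 1 (q ^ 3), vonMangoldt d / (d : ℝ) ≤ 3 * l + C := by
    have h1 := (abs_le.mp (hC (q ^ 3) (Nat.one_le_pow _ _ hq1))).2
    have h2 : Real.log ((q ^ 3 : ℕ) : ℝ) = 3 * l := by
      push_cast
      rw [Real.log_pow]
      push_cast
      rfl
    rw [h2] at h1
    linarith
  -- the sum of (1 - χ) Λ / d
  have hB : ∑ d ∈ Finset.Icc 1 (q ^ 17), (1 - χ d) * vonMangoldt d / (d : ℝ)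
      = 2 * (∑ d ∈ Finset.Icc 1 (q ^ 17), vonMangoldt d / (d : ℝ)) - A := by
    rw [hA, Finset.mul_sum, ← Finset.sum_sub_distrib]
    apply Finset.sum_congr rfl
    intro d _
    ring
  have hsplit : ∑ d ∈ Finset.Icc 1 (q ^ 17), (1 - χ d) * vonMangoldt d / (d : ℝ)
      = ∑ d ∈ Finset.Icc 1 (q ^ 3), (1 - χ d) * vonMangoldt d / (d : ℝ)
        + ∑ d ∈ Finset.Ioc (q ^ 3) (q ^ 17), (1 - χ d) * vonMangoldt d / (d : ℝ) := by
    rw [← Finset.sum_union]
    · apply Finset.sum_congr _ (fun _ _ => rfl)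
      ext d
      simp only [Finset.mem_Icc, Finset.mem_union, Finset.mem_Ioc]
      have : q ^ 3 ≤ q ^ 17 := Nat.pow_le_pow_right hq1 (by norm_num)
      omega
    · rw [Finset.disjoint_left]
      intro d h1 h2
      rw [Finset.mem_Icc] at h1
      rw [Finset.mem_Ioc] at h2
      omega
  have hlow : ∑ d ∈ Finset.Icc 1 (q ^ 3), (1 - χ d) * vonMangoldt d / (d : ℝ)
      ≤ 2 * (3 * l + C) := by
    calc ∑ d ∈ Finset.Icc 1 (q ^ 3), (1 - χ d) * vonMangoldt d / (d : ℝ)
        ≤ ∑ d ∈ Finset.Icc 1 (q ^ 3), 2 * (vonMangoldt d / (d : ℝ)) := by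
          apply Finset.sum_le_sum
          intro d _
          rw [← mul_div_assoc]
          apply div_le_div_of_nonneg_right _ (by positivity)
          exact mul_le_mul_of_nonneg_right (n4_bd hχ d).2.2 ArithmeticFunction.vonMangoldt_nonneg
      _ = 2 * ∑ d ∈ Finset.Icc 1 (q ^ 3), (vonMangoldt d / (d : ℝ)) := by rw [Finset.mul_sum]
      _ ≤ 2 * (3 * l + C) := by linarith
  have hhigh : ∑ d ∈ Finset.Ioc (q ^ 3) (q ^ 17), (1 - χ d) * vonMangoldt d / (d : ℝ)
      ≤ 2 * (∑ p ∈ (Finset.Ioc (q ^ 3) (q ^ 17)).filter (fun p => p.Prime ∧ χ p ≠ 1),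
        Real.log p / (p : ℝ)) + 2 * C' := by
    rw [← Finset.sum_filter_add_sum_filter_not (Finset.Ioc (q ^ 3) (q ^ 17))
      (fun p => p.Prime ∧ χ p ≠ 1)
      (fun d => (1 - χ d) * vonMangoldt d / (d : ℝ))]
    have e1 : ∑ d ∈ (Finset.Ioc (q ^ 3) (q ^ 17)).filter (fun p => p.Prime ∧ χ p ≠ 1),
        (1 - χ d) * vonMangoldt d / (d : ℝ)
        ≤ 2 * (∑ p ∈ (Finset.Ioc (q ^ 3) (q ^ 17)).filter (fun p => p.Prime ∧ χ p ≠ 1),
        Real.log p / (p : ℝ)) := by
      rw [Finset.mul_sum]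
      apply Finset.sum_le_sum
      intro d hd
      rw [Finset.mem_filter] at hd
      rw [ArithmeticFunction.vonMangoldt_apply_prime hd.2.1, ← mul_div_assoc]
      apply div_le_div_of_nonneg_right _ (by positivity)
      apply mul_le_mul_of_nonneg_right (n4_bd hχ d).2.2
      exact Real.log_nonneg (by exact_mod_cast hd.2.1.one_lt.le)
    have e2 : ∑ d ∈ (Finset.Ioc (q ^ 3) (q ^ 17)).filter (fun p => ¬ (p.Prime ∧ χ p ≠ 1)),
        (1 - χ d) * vonMangoldt d / (d : ℝ) ≤ 2 * C' := by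
      calc ∑ d ∈ (Finset.Ioc (q ^ 3) (q ^ 17)).filter (fun p => ¬ (p.Prime ∧ χ p ≠ 1)),
            (1 - χ d) * vonMangoldt d / (d : ℝ)
          ≤ ∑ d ∈ (Finset.Ioc (q ^ 3) (q ^ 17)).filter (fun p => ¬ (p.Prime ∧ χ p ≠ 1)),
            (if d.Prime then 0 else 2 * (vonMangoldt d / (d : ℝ))) := by
            apply Finset.sum_le_sum
            intro d hd
            rw [Finset.mem_filter] at hd
            split_ifs with hp
            · have hone : χ d = 1 := by
                by_contra hne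
                exact hd.2 ⟨hp, hne⟩
              rw [hone]
              simp
            · rw [← mul_div_assoc]
              apply div_le_div_of_nonneg_right _ (by positivity)
              exact mul_le_mul_of_nonneg_right (n4_bd hχ d).2.2
                ArithmeticFunction.vonMangoldt_nonneg
        _ ≤ ∑ d ∈ Finset.Icc 1 (q ^ 17),
            (if d.Prime then 0 else 2 * (vonMangoldt d / (d : ℝ))) := by
            apply Finset.sum_le_sum_of_subset_of_nonneg
            · intro d hd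
              rw [Finset.mem_filter, Finset.mem_Ioc] at hd
              rw [Finset.mem_Icc]
              have : 1 ≤ q ^ 3 := Nat.one_le_pow _ _ hq1
              omega
            · intro d _ _
              split_ifs
              · exact le_refl _
              · have : 0 ≤ vonMangoldt d := ArithmeticFunction.vonMangoldt_nonneg
                positivity
        _ = 2 * ∑ d ∈ (Finset.Icc 1 (q ^ 17)).filter (fun d => ¬ d.Prime),
            (vonMangoldt d / (d : ℝ)) := by
            rw [Finset.mul_sum, Finset.sum_filter]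
            apply Finset.sum_congr rfl
            intro d _
            by_cases hp : d.Prime
            · simp [hp]
            · simp [hp]
        _ ≤ 2 * C' := by
            have := hC' (q ^ 17)
            linarith
    linarith
  linarith


end Pool.Agent.Lib_helper34.GCE
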