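import Pool.Agent.Lib_helper34.GCEF.A1
import Pool.Agent.Lib_helper34.GCEF.B_N4
import Pool.Agent.Lib_helper34.GCEF.B_C4
import Pool.Agent.Lib_helper34.GCEF.B_G6

/-! # GCE: statements of level 2 -/

set_option autoImplicit false

namespace Pool.Agent.Lib_helper34.GCE

theorem neg_large : type_of% @neg_large_pr := @neg_large_pr

theorem label_of_neg : type_of% @label_of_neg_pr := @label_of_neg_pr

theorem box_Lam : type_of% @box_Lam_pr := @box_Lam_pr

end Pool.Agent.Lib_helper34.GCE
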