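import Pool.Agent.Lib_helper34.GCEF.A2
import Pool.Agent.Lib_helper72.GC.TreeG

/-! # GCE block G7: elements of `Lam` of norm about 1 up to units -/

set_option autoImplicit false

namespace Pool.Agent.Lib_helper34.GCE

open Pool.Agent.Lib_helper83.CS Pool.Agent.Lib_helper72.GC

theorem g7_size (F : Frame) (hn : 10 ^ 20 ≤ |F.n|) {y : V} (hN : |Nm y| ≤ 2)
    (hN' : 1 / 2 ≤ |Nm y|)
    (hb : ∀ i j, am F.θ y i ≤ 1.001 * |(F.n : ℝ)| * am F.θ y j) (i : Fin 3) :
    |y i| ≤ |(F.n : ℝ)| ^ 2 ∧ 1 / 2 ≤ |y i| * |(F.n : ℝ)| ^ 4 := by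
  have hν : (10 : ℝ) ^ 20 ≤ |(F.n : ℝ)| := by exact_mod_cast hn
  obtain ⟨f0, f0', f1, f1', f2, f2'⟩ := fd_size F hn
  set ν : ℝ := |(F.n : ℝ)| with hνd
  have hν0 : 0 < ν := by linarith [show (0 : ℝ) < 10 ^ 20 by norm_num]
  have hfpos : ∀ k, 0 < |fd F.θ (F.e k)| := by
    intro k
    fin_cases k
    · exact lt_of_lt_of_le (by positivity) f0
    · exact lt_of_lt_of_le (by positivity) f1
    · exact lt_of_lt_of_le (by positivity) f2
  have hya : ∀ k, |y (F.e k)| = am F.θ y (F.e k) * |fd F.θ (F.e k)| := by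
    intro k
    unfold am
    rw [abs_div, div_mul_cancel₀ _ (hfpos k).ne']
  have ha0 : ∀ k, 0 ≤ am F.θ y k := fun k => abs_nonneg _
  have hprod : |Nm y| = |y (F.e 0)| * |y (F.e 1)| * |y (F.e 2)| := by
    have h1 : |Nm y| = ∏ i, |y i| := by
      unfold Nm
      rw [abs_mul, abs_mul, Fin.prod_univ_three]
    rw [h1, ← Equiv.prod_comp F.e, Fin.prod_univ_three]
  have hff : 0.999 * ν ^ 4 ≤ |fd F.θ (F.e 0)| * |fd F.θ (F.e 1)| * |fd F.θ (F.e 2)| := by
    calc 0.999 * ν ^ 4 ≤ (ν ^ 2 * 0.9999) * (ν * 0.9999) * (ν * 0.9999) := by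
          have : (ν ^ 2 * 0.9999) * (ν * 0.9999) * (ν * 0.9999) = 0.9999 ^ 3 * ν ^ 4 := by ring
          rw [this]
          apply mul_le_mul_of_nonneg_right _ (by positivity)
          norm_num
      _ ≤ _ := by gcongr
  set a0 := am F.θ y (F.e 0)
  set a1 := am F.θ y (F.e 1)
  set a2 := am F.θ y (F.e 2)
  have haaa : a0 * a1 * a2 * (0.999 * ν ^ 4) ≤ 2 := by
    calc a0 * a1 * a2 * (0.999 * ν ^ 4) ≤
        a0 * a1 * a2 * (|fd F.θ (F.e 0)| * |fd F.θ (F.e 1)| * |fd F.θ (F.e 2)|) :=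
          mul_le_mul_of_nonneg_left hff (mul_nonneg (mul_nonneg (ha0 _) (ha0 _)) (ha0 _))
      _ = |Nm y| := by
          rw [hprod, hya 0, hya 1, hya 2]
          ring
      _ ≤ 2 := hN
  have hak : ∀ k, am F.θ y k ≤ 1 / 2 := by
    intro k
    by_contra hk
    push Not at hk
    have h1 : (1 / 2 : ℝ) ^ 3 ≤ (1.001 * ν) ^ 3 * (a0 * a1 * a2) := by
      calc (1 / 2 : ℝ) ^ 3 ≤ am F.θ y k * am F.θ y k * am F.θ y k := by
            have := mul_le_mul hk.le hk.le (by norm_num) (ha0 k)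
            have := mul_le_mul this hk.le (by norm_num) (by positivity)
            linarith
        _ ≤ (1.001 * ν * a0) * (1.001 * ν * a1) * (1.001 * ν * a2) := by
            have e0 := hb k (F.e 0)
            have e1 := hb k (F.e 1)
            have e2 := hb k (F.e 2)
            have g0 := ha0 k
            exact mul_le_mul (mul_le_mul e0 e1 g0 (g0.trans e0)) e2 g0
              (mul_nonneg (g0.trans e0) (g0.trans e1))
        _ = _ := by ring
    have h2 : (1.001 * ν) ^ 3 * (a0 * a1 * a2) * ν ≤ 3 := by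
      have h3 : (1.001 * ν) ^ 3 * (a0 * a1 * a2) * ν =
          (1.001 ^ 3 / 0.999) * (a0 * a1 * a2 * (0.999 * ν ^ 4)) := by
        field_simp
      rw [h3]
      calc (1.001 ^ 3 / 0.999) * (a0 * a1 * a2 * (0.999 * ν ^ 4)) ≤ (1.001 ^ 3 / 0.999) * 2 :=
            mul_le_mul_of_nonneg_left haaa (by norm_num)
        _ ≤ 3 := by norm_num
    have h4 : (1 / 2 : ℝ) ^ 3 * ν ≤ 3 := (mul_le_mul_of_nonneg_right h1 hν0.le).trans h2
    have h5 : (10 : ℝ) ^ 20 = 100000000000000000000 := by norm_num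
    rw [h5] at hν
    linarith
  have hup : ∀ i, |y i| ≤ ν ^ 2 := by
    intro i
    obtain ⟨k, rfl⟩ := F.e.surjective i
    rw [hya k]
    have h1 := hak (F.e k)
    have h2 : |fd F.θ (F.e k)| ≤ ν ^ 2 * 1.0001 := by
      have h3 : ν * 1.0001 ≤ ν ^ 2 * 1.0001 := by
        apply mul_le_mul_of_nonneg_right _ (by norm_num)
        have h5 : (10 : ℝ) ^ 20 = 100000000000000000000 := by norm_num
        rw [h5] at hν
        nlinarith
      fin_cases k
      · exact f0'
      · exact f1'.trans h3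
      · exact f2'.trans h3
    calc am F.θ y (F.e k) * |fd F.θ (F.e k)| ≤ 1 / 2 * (ν ^ 2 * 1.0001) :=
          mul_le_mul h1 h2 (abs_nonneg _) (by norm_num)
      _ ≤ ν ^ 2 := by nlinarith [sq_nonneg ν]
  refine ⟨hup i, ?_⟩
  have h6 : |Nm y| = |y 0| * |y 1| * |y 2| := by
    unfold Nm
    rw [abs_mul, abs_mul]
  refine hN'.trans ?_
  rw [h6]
  have u0 := hup 0
  have u1 := hup 1
  have u2 := hup 2
  have e4 : ν ^ 4 = ν ^ 2 * ν ^ 2 := by ring
  rw [e4]
  fin_cases i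
  · calc |y 0| * |y 1| * |y 2| = |y 0| * (|y 1| * |y 2|) := by ring
      _ ≤ |y 0| * (ν ^ 2 * ν ^ 2) := by gcongr
  · calc |y 0| * |y 1| * |y 2| = |y 1| * (|y 0| * |y 2|) := by ring
      _ ≤ |y 1| * (ν ^ 2 * ν ^ 2) := by gcongr
  · calc |y 0| * |y 1| * |y 2| = |y 2| * (|y 0| * |y 1|) := by ring
      _ ≤ |y 2| * (ν ^ 2 * ν ^ 2) := by gcongr

theorem g7_log {r ν : ℝ} (hr : 0 < r) (hν : 10 ^ 20 ≤ ν) (h1 : r ≤ ν ^ 2)
    (h2 : 1 / 2 ≤ r * ν ^ 4) :
    -(4 * Real.log ν / Real.log 2) - 1 ≤ (Int.clog 2 r : ℝ) ∧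
      (Int.clog 2 r : ℝ) ≤ 2 * Real.log ν / Real.log 2 + 1 := by
  have hν0 : 0 < ν := by linarith [show (0 : ℝ) < 10 ^ 20 by norm_num]
  have hl2 : 0 < Real.log 2 := Real.log_pos (by norm_num)
  constructor
  · have h3 : r ≤ (2 : ℝ) ^ (Int.clog 2 r) := by
      have := Int.self_le_zpow_clog (b := 2) (by norm_num) r
      exact_mod_cast this
    have h4 : Real.log r ≤ (Int.clog 2 r : ℝ) * Real.log 2 := by
      rw [← Real.log_zpow]
      exact Real.log_le_log hr h3
    have h5 : -Real.log 2 ≤ Real.log r + 4 * Real.log ν := by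
      have h6 : Real.log (1 / 2) ≤ Real.log (r * ν ^ 4) := Real.log_le_log (by norm_num) h2
      rw [Real.log_mul hr.ne' (by positivity), Real.log_pow, one_div, Real.log_inv] at h6
      push_cast at h6
      exact h6
    rw [← sub_nonneg]
    have h7 : (Int.clog 2 r : ℝ) - (-(4 * Real.log ν / Real.log 2) - 1) =
        ((Int.clog 2 r : ℝ) * Real.log 2 + 4 * Real.log ν + Real.log 2) / Real.log 2 := by
      field_simp
      ring
    rw [h7]
    apply div_nonneg _ hl2.le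
    linarith
  · have h3 : (2 : ℝ) ^ (Int.clog 2 r - 1) < r := by
      have := Int.zpow_pred_clog_lt_self (b := 2) (by norm_num) hr
      exact_mod_cast this
    have h4 : ((Int.clog 2 r - 1 : ℤ) : ℝ) * Real.log 2 ≤ Real.log r := by
      rw [← Real.log_zpow]
      exact Real.log_le_log (by positivity) h3.le
    have h5 : Real.log r ≤ 2 * Real.log ν := by
      have h6 := Real.log_le_log hr h1
      rw [Real.log_pow] at h6
      push_cast at h6
      exact h6
    push_cast at h4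
    rw [← sub_nonneg]
    have h7 : 2 * Real.log ν / Real.log 2 + 1 - (Int.clog 2 r : ℝ) =
        (2 * Real.log ν - ((Int.clog 2 r : ℝ) - 1) * Real.log 2) / Real.log 2 := by
      field_simp
      ring
    rw [h7]
    apply div_nonneg _ hl2.le
    linarith

theorem mult_pr (F : Frame) (hs : F.s = -1) (ht : F.t = -1) (hn : 10 ^ 20 ≤ |F.n|) {d c : ℤ}
    (hl : IsLab (-1) (-1) F.n d c) (hd : (F.n : ℝ) ^ 8 ≤ d) (S : Finset V)
    (hS : ∀ x ∈ S, x ∈ Lam F.θ d c ∧ (∀ i, x i ≠ 0) ∧ 1 / 2 ≤ |Nm x| ∧ |Nm x| ≤ 2)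
    (hU : ∀ x ∈ S, ∀ y ∈ S, (∃ u ∈ Un F.θ, ∀ i, y i = u i * x i) → x = y) :
    (S.card : ℝ) ≤ 10 ^ 12 * Real.log |(F.n : ℝ)| ^ 3 * d / (F.n : ℝ) ^ 2 := by
  classical
  have hν : (10 : ℝ) ^ 20 ≤ |(F.n : ℝ)| := by exact_mod_cast hn
  have hν0 : 0 < |(F.n : ℝ)| := by linarith [show (0 : ℝ) < 10 ^ 20 by norm_num]
  have hn2 : (F.n : ℝ) ^ 2 = |(F.n : ℝ)| ^ 2 := (sq_abs _).symm
  have hl' : IsLab F.s F.t F.n d c := by rw [hs, ht]; exact hl
  have hd0 : (0 : ℝ) < d := by exact_mod_cast hl.1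
  -- the choice of units
  have hex : ∀ x : V, ∃ u : V, x ∈ S → u ∈ Un F.θ ∧ ∀ i j, am F.θ (fun i => u i * x i) i ≤
      1.001 * |(F.n : ℝ)| * am F.θ (fun i => u i * x i) j := by
    intro x
    by_cases hx : x ∈ S
    · obtain ⟨u, hu, hu2⟩ := balanced F hn hl' x (hS x hx).1 (hS x hx).2.1
      exact ⟨u, fun _ => ⟨hu, hu2⟩⟩
    · exact ⟨x, fun h => absurd h hx⟩
  choose u hu using hex
  set g : V → V := fun x i => u x i * x i with hg
  have hgL : ∀ x ∈ S, g x ∈ Lam F.θ d c := fun x hx =>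
    Lam_mul F (Un_O F (hu x hx).1) (hS x hx).1
  have hgN : ∀ x ∈ S, |Nm (g x)| = |Nm x| := by
    intro x hx
    have h1 : Nm (g x) = Nm (u x) * Nm x := by
      unfold Nm
      rw [hg]
      ring
    rw [h1, abs_mul, Un_Nm F (hu x hx).1, one_mul]
  have hg0 : ∀ x ∈ S, ∀ i, g x i ≠ 0 := fun x hx i =>
    mul_ne_zero (Un_ne F (hu x hx).1 i) ((hS x hx).2.1 i)
  have hginj : Set.InjOn g (S : Set V) := by
    intro x hx y hy hxy
    apply hU x hx y hy
    refine ⟨fun i => (u y i)⁻¹ * u x i, Un_mul F (Un_inv F (hu y hy).1) (hu x hx).1, fun i => ?_⟩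
    have h1 : u x i * x i = u y i * y i := congrFun hxy i
    have h2 := Un_ne F (hu y hy).1 i
    rw [mul_assoc, h1, ← mul_assoc, inv_mul_cancel₀ h2, one_mul]
  have hgs : ∀ x ∈ S, ∀ i, |g x i| ≤ |(F.n : ℝ)| ^ 2 ∧ 1 / 2 ≤ |g x i| * |(F.n : ℝ)| ^ 4 := by
    intro x hx i
    apply g7_size F hn _ _ (hu x hx).2
    · rw [hgN x hx]
      exact (hS x hx).2.2.2
    · rw [hgN x hx]
      exact (hS x hx).2.2.1
  -- the exponents
  set L : ℝ := Real.log |(F.n : ℝ)| with hL
  have hl2 : 0 < Real.log 2 := Real.log_pos (by norm_num)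
  set Lo : ℤ := ⌈-(4 * L / Real.log 2) - 1⌉
  set Hi : ℤ := ⌊2 * L / Real.log 2 + 1⌋
  set T : Finset (Fin 3 → ℤ) := Fintype.piFinset fun _ => Finset.Icc Lo Hi with hT
  set κ : V → Fin 3 → ℤ := fun x i => Int.clog 2 |g x i| with hκ
  have hmap : ∀ x ∈ S, κ x ∈ T := by
    intro x hx
    rw [hT, Fintype.mem_piFinset]
    intro i
    rw [Finset.mem_Icc]
    have h1 := g7_log (abs_pos.mpr (hg0 x hx i)) hν (hgs x hx i).1 (hgs x hx i).2
    exact ⟨Int.ceil_le.mpr h1.1, Int.le_floor.mpr h1.2⟩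
  -- the fibers
  have hfib : ∀ k ∈ T, ((S.filter fun x => κ x = k).card : ℝ) ≤
      10 ^ 8 * d / (F.n : ℝ) ^ 2 := by
    intro k _
    rcases (S.filter fun x => κ x = k).eq_empty_or_nonempty with h0 | ⟨x0, hx0⟩
    · rw [h0, Finset.card_empty, Nat.cast_zero]
      positivity
    · rw [← Finset.card_image_of_injOn (hginj.mono (by
        intro x hx
        exact (Finset.mem_filter.mp hx).1))]
      have hbd : ∀ x ∈ S, κ x = k → ∀ i, |g x i| ≤ (2 : ℝ) ^ k i := by
        intro x hx hxk i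
        rw [← hxk]
        have := Int.self_le_zpow_clog (b := 2) (by norm_num) |g x i|
        exact_mod_cast this
      have hlt : ∀ x ∈ S, κ x = k → ∀ i, (2 : ℝ) ^ k i ≤ 2 * |g x i| := by
        intro x hx hxk i
        have h1 : (2 : ℝ) ^ (k i - 1) < |g x i| := by
          rw [← hxk]
          have := Int.zpow_pred_clog_lt_self (b := 2) (by norm_num) (abs_pos.mpr (hg0 x hx i))
          exact_mod_cast this
        have h2 : (2 : ℝ) ^ k i = 2 * (2 : ℝ) ^ (k i - 1) := by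
          rw [zpow_sub_one₀ (by norm_num)]
          ring
        rw [h2]
        linarith
      apply box_Lam F hs ht hn hl hd (fun i => (2 : ℝ) ^ k i) (fun i => by positivity)
      · obtain ⟨hx0S, hx0k⟩ := Finset.mem_filter.mp hx0
        have h3 := hlt x0 hx0S hx0k
        have h4 : |Nm (g x0)| = |g x0 0| * |g x0 1| * |g x0 2| := by
          unfold Nm
          rw [abs_mul, abs_mul]
        have h5 : |g x0 0| * |g x0 1| * |g x0 2| ≤ 2 := by
          rw [← h4, hgN x0 hx0S]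
          exact (hS x0 hx0S).2.2.2
        calc (2 : ℝ) ^ k 0 * (2 : ℝ) ^ k 1 * (2 : ℝ) ^ k 2 ≤
              (2 * |g x0 0|) * (2 * |g x0 1|) * (2 * |g x0 2|) := by
              have e0 := h3 0
              have e1 := h3 1
              have e2 := h3 2
              gcongr
          _ = 8 * (|g x0 0| * |g x0 1| * |g x0 2|) := by ring
          _ ≤ 16 := by linarith
      · intro z hz
        obtain ⟨x, hx, rfl⟩ := Finset.mem_image.mp hz
        obtain ⟨hxS, hxk⟩ := Finset.mem_filter.mp hx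
        exact ⟨hgL x hxS, hbd x hxS hxk⟩
  -- the count
  have hcard : (S.card : ℝ) ≤ T.card * (10 ^ 8 * d / (F.n : ℝ) ^ 2) := by
    rw [Finset.card_eq_sum_card_fiberwise (f := κ) (t := T) hmap]
    push_cast
    refine (Finset.sum_le_sum hfib).trans ?_
    rw [Finset.sum_const, nsmul_eq_mul]
  have hLlow : 46 ≤ L := by
    have h1 : Real.log ((10 : ℝ) ^ 20) ≤ L := Real.log_le_log (by norm_num) hν
    rw [Real.log_pow] at h1
    have h2 : 2.3 ≤ Real.log 10 := by
      have h3 : Real.log 10 = Real.log 2 + Real.log 5 := by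
        rw [← Real.log_mul (by norm_num) (by norm_num)]
        norm_num
      have h4 : 0.6931 ≤ Real.log 2 := by linarith [Real.log_two_gt_d9]
      have h5 : 1.609 ≤ Real.log 5 := by
        rw [Real.le_log_iff_exp_le (by norm_num)]
        have h6 : Real.exp 1.609 = Real.exp 1 * Real.exp 0.609 := by
          rw [← Real.exp_add]
          norm_num
        rw [h6]
        have h7 := Real.exp_one_lt_d9
        have h8 : Real.exp 0.609 ≤ 1.8387 := by
          have h9 := Real.exp_bound' (x := 0.609) (by norm_num) (by norm_num) (n := 8) (by norm_num)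
          simp only [Finset.sum_range_succ, Finset.sum_range_zero] at h9
          norm_num [Nat.factorial] at h9
          linarith
        have h10 := Real.exp_pos (0.609 : ℝ)
        nlinarith
      linarith
    push_cast at h1
    linarith
  have hT1 : (T.card : ℝ) ≤ (10 * L) ^ 3 := by
    have h1 : T.card = (Finset.Icc Lo Hi).card ^ 3 := by
      rw [hT, Fintype.card_piFinset]
      simp
    rw [h1]
    push_cast
    apply pow_le_pow_left₀ (by positivity)
    rw [Int.card_Icc]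
    have h2 : ((Hi + 1 - Lo).toNat : ℝ) ≤ max ((Hi + 1 - Lo : ℤ) : ℝ) 0 := by
      have h3 : (((Hi + 1 - Lo).toNat : ℤ) : ℝ) = ((max (Hi + 1 - Lo) 0 : ℤ) : ℝ) := by
        rw [Int.toNat_eq_max]
      have h4 : ((Hi + 1 - Lo).toNat : ℝ) = (((Hi + 1 - Lo).toNat : ℤ) : ℝ) := by push_cast; rfl
      rw [h4, h3, Int.cast_max, Int.cast_zero]
    refine h2.trans (max_le ?_ (by linarith))
    have h5 : (Hi : ℝ) ≤ 2 * L / Real.log 2 + 1 := Int.floor_le _
    have h6 : -(4 * L / Real.log 2) - 1 ≤ (Lo : ℝ) := Int.le_ceil _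
    push_cast
    have h7 : L / Real.log 2 ≤ 1.4428 * L := by
      rw [div_le_iff₀ hl2]
      have h8 : 1 ≤ 1.4428 * Real.log 2 := by linarith [Real.log_two_gt_d9]
      nlinarith
    have h9 : 2 * L / Real.log 2 = 2 * (L / Real.log 2) := by ring
    have h10 : 4 * L / Real.log 2 = 4 * (L / Real.log 2) := by ring
    rw [h9] at h5
    rw [h10] at h6
    linarith
  refine hcard.trans ?_
  calc (T.card : ℝ) * (10 ^ 8 * d / (F.n : ℝ) ^ 2) ≤
        (10 * L) ^ 3 * (10 ^ 8 * d / (F.n : ℝ) ^ 2) :=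
        mul_le_mul_of_nonneg_right hT1 (by positivity)
    _ = 10 ^ 11 * L ^ 3 * d / (F.n : ℝ) ^ 2 := by ring
    _ ≤ 10 ^ 12 * L ^ 3 * d / (F.n : ℝ) ^ 2 := by
        have h1 : 0 ≤ L ^ 3 := by positivity
        gcongr <;> norm_num


end Pool.Agent.Lib_helper34.GCE
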