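import Pool.Agent.Lib_helper34.GCEF.A2

/-! # GCE block N7: summary of the analytic part -/

set_option autoImplicit false

namespace Pool.Agent.Lib_helper34.GCE

open Pool.Agent.Lib_helper83.CS Pool.Agent.Lib_helper72.GC
open ArithmeticFunction (vonMangoldt)

theorem many_neg_pr : ∃ (c : ℝ) (q0 : ℕ), 0 < c ∧ ∀ (q : ℕ) (χ : ℕ → ℝ), Chi q χ → q0 ≤ q →
    ∃ Y : ℕ, q ^ 3 ≤ Y ∧ c * Y / Real.log q ≤ ((PY χ Y).card : ℝ) := by
  classical
  obtain ⟨q1, h1⟩ := neg_large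
  obtain ⟨q2, h2⟩ := neg_small
  obtain ⟨c, q3, hc, h3⟩ := dyadic
  refine ⟨c, max (max q1 q2) (max q3 1), hc, fun q χ hχ hq => ?_⟩
  have hq1 : q1 ≤ q := (le_max_left _ _).trans ((le_max_left _ _).trans hq)
  have hq2 : q2 ≤ q := (le_max_right _ _).trans ((le_max_left _ _).trans hq)
  have hq3 : q3 ≤ q := (le_max_left _ _).trans ((le_max_right _ _).trans hq)
  have hq4 : 1 ≤ q := (le_max_right _ _).trans ((le_max_right _ _).trans hq)
  obtain ⟨L, _, hR⟩ := R_asymp hχ hq4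
  have key : Real.log q ≤ ∑ p ∈ (Finset.Ioc (q ^ 3) (q ^ 17)).filter
      (fun p => p.Prime ∧ χ p ≠ 1), Real.log p / (p : ℝ) := by
    rcases le_total L (1 / Real.log q ^ 2) with h | h
    · have := h2 q χ L hχ hq2 hR h
      exact le_of_le_of_eq this (Finset.sum_congr (by ext; simp) fun _ _ => rfl)
    · have := h1 q χ L hχ hq1 hR h
      exact le_of_le_of_eq this (Finset.sum_congr (by ext; simp) fun _ _ => rfl)
  obtain ⟨Y, hY1, _, hY3⟩ := h3 q (fun p => p.Prime ∧ χ p ≠ 1) hq3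
    (le_of_le_of_eq key (Finset.sum_congr (by ext; simp) fun _ _ => rfl))
  refine ⟨Y, hY1, hY3.trans (le_of_eq ?_)⟩
  have e : PY χ Y = (Finset.Ioc Y (2 * Y)).filter (fun p => p.Prime ∧ χ p ≠ 1) := by
    unfold PY
    ext
    simp
  rw [e]
  congr 2
  ext
  simp


end Pool.Agent.Lib_helper34.GCE
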