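import Pool.Agent.Lib_helper34.GCEF.A2
import Pool.Agent.Lib_helper34.GCEF.B_N7
import Pool.Agent.Lib_helper34.GCEF.B_G7

/-! # GCE: statements of level 3 -/

set_option autoImplicit false

namespace Pool.Agent.Lib_helper34.GCE

theorem many_neg : type_of% @many_neg_pr := @many_neg_pr

theorem mult : type_of% @mult_pr := @mult_pr

end Pool.Agent.Lib_helper34.GCE
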