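import Pool.Agent.Lib_helper34.GCEF.A3
import Pool.Agent.Lib_helper72.GC.TreeG

set_option autoImplicit false

namespace Pool.Agent.Lib_helper34.GCE

open Pool.Agent.Lib_helper83.CS Pool.Agent.Lib_helper72.GC

theorem g9_one (θ : V) : (fun _ => (1 : ℝ)) ∈ O θ := ⟨1, 0, 0, fun i => by push_cast; ring⟩

theorem g9_Nm (u x y : V) (h : ∀ i, y i = u i * x i) : |Nm y| = |Nm u| * |Nm x| := by
  rw [← abs_mul]
  congr 1
  unfold Nm
  rw [h 0, h 1, h 2]
  ring

theorem fiber_pr (F : Frame) (hs : F.s = -1) (ht : F.t = -1) (hn : 10 ^ 20 ≤ |F.n|) (Y : ℕ)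
    (hY : (F.n : ℝ) ^ 8 ≤ Y) (P : Finset ℕ) (hP : ∀ p ∈ P, Y < p ∧ p ≤ 2 * Y) (l : ℕ → ℤ)
    (hl : ∀ p ∈ P, IsLab (-1) (-1) F.n p (l p)) (A : ℕ → Matrix (Fin 3) (Fin 3) ℤ)
    (hA : ∀ p ∈ P, InClass (A p) F.θ (Lam F.θ p (l p)) (1 / p))
    (hc : ∀ p ∈ P, ∀ p' ∈ P, Cls (A p) = Cls (A p')) :
    (P.card : ℝ) ≤ 2 * 10 ^ 12 * Real.log |(F.n : ℝ)| ^ 3 * Y / (F.n : ℝ) ^ 2 := by
  classical
  have hn1 : (1 : ℝ) ≤ |(F.n : ℝ)| := by
    have h1 : (1 : ℤ) ≤ |F.n| := le_trans (by norm_num) hn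
    have h2 : ((1 : ℤ) : ℝ) ≤ ((|F.n| : ℤ) : ℝ) := by exact_mod_cast h1
    simpa using h2
  have hlog : 0 ≤ Real.log |(F.n : ℝ)| := Real.log_nonneg hn1
  have hn0 : 0 < (F.n : ℝ) ^ 2 := by
    rw [← sq_abs]
    positivity
  rcases P.eq_empty_or_nonempty with hE | ⟨p', hp'⟩
  · rw [hE]
    simp only [Finset.card_empty, Nat.cast_zero]
    positivity
  have hY0 : (0 : ℝ) < Y := by
    have h8 : (0 : ℝ) < (F.n : ℝ) ^ 8 := by
      have : (F.n : ℝ) ^ 8 = ((F.n : ℝ) ^ 2) ^ 4 := by ring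
      rw [this]
      positivity
    linarith
  have hpR : ∀ p ∈ P, (Y : ℝ) < p ∧ (p : ℝ) ≤ 2 * Y := by
    intro p hp
    obtain ⟨h1, h2⟩ := hP p hp
    exact ⟨by exact_mod_cast h1, by exact_mod_cast h2⟩
  have hp'0 : (0 : ℝ) < p' := lt_trans hY0 (hpR p' hp').1
  have key : ∀ p, ∃ w : V, p ∈ P → (∀ i, w i ≠ 0) ∧ w ∈ Lam F.θ p' (l p') ∧
      |Nm w| = (p : ℝ) / p' := by
    intro p
    by_cases hp : p ∈ P
    swap
    · exact ⟨fun _ => 0, fun h => absurd h hp⟩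
    have hp0 : (0 : ℝ) < p := lt_trans hY0 (hpR p hp).1
    have h1 : A p ∈ Cls (A p') := by
      rw [← hc p hp p' hp']
      exact ⟨1, 1, by simp, by simp, by simp⟩
    obtain ⟨U, W, hUW, hWU, hAp⟩ := h1
    have h2 := inClass_conj F.θ (A p') U W hUW hWU _ _ (hA p' hp')
    rw [← hAp] at h2
    have h3 := inClass_unique F (A p) _ _ _ _ (by positivity) (by positivity) h2 (hA p hp)
    obtain ⟨w, hw0, hw1, hw2⟩ := h3
    refine ⟨w, fun _ => ⟨hw0, ?_, ?_⟩⟩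
    · have h4 := (hw1 (fun _ => 1)).1 (O_sub_Lam F (g9_one F.θ))
      have h5 : (fun i => w i * (fun _ => (1 : ℝ)) i) = w := by
        funext i
        simp
      rw [h5] at h4
      exact h4
    · rw [hw2]
      field_simp
  choose w hw using key
  have hinj : ∀ p ∈ P, ∀ q ∈ P, |Nm (w p)| = |Nm (w q)| → p = q := by
    intro p hp q hq h
    rw [(hw p hp).2.2, (hw q hq).2.2] at h
    have h1 : (p : ℝ) = q := by
      field_simp at h
      exact h
    exact_mod_cast h1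
  have hcard : (P.image w).card = P.card := by
    apply Finset.card_image_of_injOn
    intro p hp q hq h
    exact hinj p (by simpa using hp) q (by simpa using hq) (by simp only [h])
  have hm := mult F hs ht hn (hl p' hp')
    (by
      have := (hpR p' hp').1
      push_cast
      linarith) (P.image w)
    (by
      intro x hx
      obtain ⟨p, hp, rfl⟩ := Finset.mem_image.1 hx
      obtain ⟨h1, h2, h3⟩ := hw p hp
      obtain ⟨h4, h5⟩ := hpR p hp
      obtain ⟨h6, h7⟩ := hpR p' hp'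
      refine ⟨h2, h1, ?_, ?_⟩
      · rw [h3, le_div_iff₀ hp'0]
        linarith
      · rw [h3, div_le_iff₀ hp'0]
        linarith)
    (by
      intro x hx y hy ⟨u, hu, hxy⟩
      obtain ⟨p, hp, rfl⟩ := Finset.mem_image.1 hx
      obtain ⟨q, hq, rfl⟩ := Finset.mem_image.1 hy
      have h1 := g9_Nm u (w p) (w q) hxy
      rw [Un_Nm F hu, one_mul] at h1
      rw [hinj p hp q hq h1.symm])
  rw [hcard] at hm
  refine le_trans hm ?_
  rw [div_le_div_iff_of_pos_right hn0]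
  have h7 := (hpR p' hp').2
  have h8 : 0 ≤ 10 ^ 12 * Real.log |(F.n : ℝ)| ^ 3 := by positivity
  push_cast
  nlinarith [mul_le_mul_of_nonneg_left h7 h8]


end Pool.Agent.Lib_helper34.GCE
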