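import Pool.Agent.Lib_helper34.GCEF.A3
import Pool.Agent.Lib_helper34.GCEF.B_G9

/-! # GCE: statements of level 4 -/

set_option autoImplicit false

namespace Pool.Agent.Lib_helper34.GCE

theorem fiber : type_of% @fiber_pr := @fiber_pr

end Pool.Agent.Lib_helper34.GCE
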