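import Pool.Agent.Lib_helper34.GCEF.B_M1

/-! # GCE: the statement of level 5 -/

set_option autoImplicit false

namespace Pool.Agent.Lib_helper34.GCE

theorem many_n : type_of% @many_n_pr := @many_n_pr

end Pool.Agent.Lib_helper34.GCE
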