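import Pool.Agent.Lib_helper34.GCEF.A4
import Pool.Agent.Lib_helper72.GC.TreeG

/-! # GCE block M1: every large trace has many classes -/

set_option autoImplicit false

namespace Pool.Agent.Lib_helper34.GCE

open Pool.Agent.Lib_helper83.CS Pool.Agent.Lib_helper72.GC

theorem m1_card {α β : Type*} [DecidableEq β] (s : Finset α) (f : α → β) (M : ℝ)
    (h : ∀ b ∈ s.image f, ((s.filter (fun a => f a = b)).card : ℝ) ≤ M) :
    (s.card : ℝ) ≤ (s.image f).card * M := by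
  rw [Finset.card_eq_sum_card_image f s]
  push_cast
  calc ∑ b ∈ s.image f, ((s.filter (fun a => f a = b)).card : ℝ) ≤ ∑ _b ∈ s.image f, M :=
        Finset.sum_le_sum h
    _ = _ := by rw [Finset.sum_const, nsmul_eq_mul]

theorem m1_PY {χ : ℕ → ℝ} {Y p : ℕ} (h : p ∈ PY χ Y) :
    Y < p ∧ p ≤ 2 * Y ∧ p.Prime ∧ χ p ≠ 1 := by
  unfold PY at h
  rw [Finset.mem_filter, Finset.mem_Ioc] at h
  exact ⟨h.1.1, h.1.2, h.2.1, h.2.2⟩

theorem many_n_pr : ∃ (c : ℝ) (n0 : ℤ), 0 < c ∧ ∀ n : ℤ, n0 ≤ |n| →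
    ENNReal.ofReal (c * (n : ℝ) ^ 2 / Real.log |(n : ℝ)| ^ 4) ≤
      ((Set.encard {S : Set (Matrix (Fin 3) (Fin 3) ℤ) | ∃ A, IsCS A ∧ A.trace = n ∧ S = Cls A} :
        ℕ∞) : ENNReal) := by
  classical
  obtain ⟨c1, q0, hc1, hN⟩ := many_neg
  refine ⟨c1 / 10 ^ 13, max (10 ^ 20) q0, by positivity, fun n hn => ?_⟩
  have hn20 : (10 : ℤ) ^ 20 ≤ |n| := (le_max_left _ _).trans hn
  have hnq : (q0 : ℤ) ≤ |n| := (le_max_right _ _).trans hn
  have hn100 : (100 : ℤ) ≤ |n| := by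
    have : (100 : ℤ) ≤ 10 ^ 20 := by norm_num
    linarith
  obtain ⟨F, hs, ht, hFn, _⟩ := base_exists n (by
    have : (10 : ℤ) ^ 6 ≤ 10 ^ 20 := by norm_num
    linarith)
  obtain ⟨hD0, _, _, hD1, hD2⟩ := DD_facts n hn100
  set q : ℕ := (DD n).toNat with hq
  have hqD : (q : ℤ) = DD n := Int.toNat_of_nonneg hD0.le
  have hχ : Chi q (chD n) := chi_disc n hn100
  -- sizes over the reals
  have hnR : (10 : ℝ) ^ 20 ≤ |(n : ℝ)| := by exact_mod_cast hn20
  have hν0 : (0 : ℝ) < |(n : ℝ)| := lt_of_lt_of_le (by norm_num) hnR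
  have hqR1 : |(n : ℝ)| ^ 4 ≤ 2 * (q : ℝ) := by
    have : |n| ^ 4 ≤ 2 * (q : ℤ) := by rw [hqD]; exact hD1
    exact_mod_cast this
  have hqR2 : (q : ℝ) ≤ 2 * |(n : ℝ)| ^ 4 := by
    have : (q : ℤ) ≤ 2 * |n| ^ 4 := by rw [hqD]; exact hD2
    exact_mod_cast this
  have h4 : |(n : ℝ)| ≤ |(n : ℝ)| ^ 4 / 2 := by
    have h1 : (1 : ℝ) ≤ |(n : ℝ)| := le_trans (by norm_num) hnR
    have h2 : (2 : ℝ) ≤ |(n : ℝ)| ^ 3 := by
      calc (2 : ℝ) ≤ |(n : ℝ)| := le_trans (by norm_num) hnR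
        _ = |(n : ℝ)| ^ 1 := (pow_one _).symm
        _ ≤ |(n : ℝ)| ^ 3 := pow_le_pow_right₀ h1 (by norm_num)
    have h3 : |(n : ℝ)| ^ 4 = |(n : ℝ)| ^ 3 * |(n : ℝ)| := by ring
    rw [h3]
    nlinarith
  have hqn : |(n : ℝ)| ≤ q := by linarith
  have hq0 : q0 ≤ q := by
    have h1 : (q0 : ℝ) ≤ |(n : ℝ)| := by exact_mod_cast hnq
    exact_mod_cast h1.trans hqn
  have hq4 : (4 : ℝ) ≤ q := le_trans (le_trans (by norm_num) hnR) hqn
  have hq1 : 1 ≤ q := by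
    have : (1 : ℝ) ≤ q := by linarith
    exact_mod_cast this
  obtain ⟨Y, hY1, hY2⟩ := hN q (chD n) hχ hq0
  have hYq : q ≤ Y := le_trans (Nat.le_self_pow (by norm_num) q) hY1
  have hY0 : (0 : ℝ) < Y := by
    have : (q : ℝ) ≤ Y := by exact_mod_cast hYq
    linarith
  have hY8 : (F.n : ℝ) ^ 8 ≤ Y := by
    rw [hFn]
    have h1 : (q : ℝ) ^ 3 ≤ Y := by exact_mod_cast hY1
    have h2 : ((n : ℝ)) ^ 8 = (|(n : ℝ)| ^ 4) ^ 2 := by
      rw [← pow_mul]
      norm_num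
      exact (Even.pow_abs (by decide) _).symm
    rw [h2]
    calc (|(n : ℝ)| ^ 4) ^ 2 ≤ (2 * (q : ℝ)) ^ 2 := pow_le_pow_left₀ (by positivity) hqR1 2
      _ = 4 * (q : ℝ) ^ 2 := by ring
      _ ≤ (q : ℝ) * (q : ℝ) ^ 2 := by
          apply mul_le_mul_of_nonneg_right hq4 (by positivity)
      _ = (q : ℝ) ^ 3 := by ring
      _ ≤ Y := h1
  have hl : ∀ p ∈ PY (chD n) Y, ∃ l : ℤ, IsLab (-1) (-1) F.n p l := by
    intro p hp
    obtain ⟨h1, _, h3, h5⟩ := m1_PY hp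
    obtain ⟨l, _, _, hl⟩ := label_of_neg n hn100 h3 (by
      rw [← hqD]
      exact_mod_cast lt_of_le_of_lt hYq h1) h5
    rw [hFn]
    exact ⟨l, hl⟩
  choose! l hl using hl
  have hA : ∀ p ∈ PY (chD n) Y, ∃ A : Matrix (Fin 3) (Fin 3) ℤ, IsCS A ∧ A.trace = F.n ∧
      InClass A F.θ (Lam F.θ p (l p)) (1 / p) := by
    intro p hp
    obtain ⟨A, h1, h2, h3⟩ := cs_label F hs ht (hl p hp)
    refine ⟨A, h1, h2, ?_⟩
    rw [Int.cast_natCast] at h3
    exact h3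
  choose! A hA1 hA2 hA3 using hA
  set P := PY (chD n) Y with hP
  set M : ℝ := 2 * 10 ^ 12 * Real.log |(n : ℝ)| ^ 3 * Y / (n : ℝ) ^ 2 with hM
  have hlog : 1 ≤ Real.log |(n : ℝ)| := by
    rw [Real.le_log_iff_exp_le hν0]
    have := Real.exp_one_lt_d9
    have h1 : (2.7182818286 : ℝ) ≤ 10 ^ 20 := by norm_num
    linarith
  have hlog0 : 0 < Real.log |(n : ℝ)| := by linarith
  have hn2 : (0 : ℝ) < (n : ℝ) ^ 2 := by
    rw [← sq_abs]
    positivity
  have hM0 : 0 < M := by positivity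
  have hfib : ∀ b ∈ P.image (fun p => Cls (A p)),
      ((P.filter (fun p => Cls (A p) = b)).card : ℝ) ≤ M := by
    intro b _
    have := fiber F hs ht (by rw [hFn]; exact hn20) Y hY8 (P.filter (fun p => Cls (A p) = b))
      (fun p hp => by
        have := m1_PY (Finset.mem_filter.1 hp).1
        exact ⟨this.1, this.2.1⟩) l
      (fun p hp => hl p (Finset.mem_filter.1 hp).1) A
      (fun p hp => hA3 p (Finset.mem_filter.1 hp).1)
      (fun p hp p' hp' => by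
        rw [(Finset.mem_filter.1 hp).2, (Finset.mem_filter.1 hp').2])
    rw [hFn] at this
    exact this
  have hcard := m1_card P (fun p => Cls (A p)) M hfib
  -- the logarithm of q
  have hlq0 : 0 < Real.log q := Real.log_pos (by linarith)
  have hlq : Real.log q ≤ 5 * Real.log |(n : ℝ)| := by
    have h1 : Real.log q ≤ Real.log (|(n : ℝ)| ^ 5) := by
      apply Real.log_le_log (by linarith)
      calc (q : ℝ) ≤ 2 * |(n : ℝ)| ^ 4 := hqR2
        _ ≤ |(n : ℝ)| * |(n : ℝ)| ^ 4 := by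
            apply mul_le_mul_of_nonneg_right _ (by positivity)
            exact le_trans (by norm_num) hnR
        _ = |(n : ℝ)| ^ 5 := by ring
    rw [Real.log_pow] at h1
    exact_mod_cast h1
  have hmain : c1 / 10 ^ 13 * (n : ℝ) ^ 2 / Real.log |(n : ℝ)| ^ 4 ≤
      ((P.image (fun p => Cls (A p))).card : ℝ) := by
    have h1 : c1 * Y / (5 * Real.log |(n : ℝ)|) ≤ (P.card : ℝ) := by
      refine le_trans ?_ hY2
      apply div_le_div_of_nonneg_left (by positivity) hlq0 hlq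
    have h2 : c1 * Y / (5 * Real.log |(n : ℝ)|) / M ≤
        ((P.image (fun p => Cls (A p))).card : ℝ) := by
      rw [div_le_iff₀ hM0]
      exact h1.trans hcard
    refine le_trans (le_of_eq ?_) h2
    rw [hM]
    field_simp
    ring
  have hsub : ((P.image (fun p => Cls (A p)) : Finset _) : Set (Set (Matrix (Fin 3) (Fin 3) ℤ))) ⊆
      {S | ∃ A, IsCS A ∧ A.trace = n ∧ S = Cls A} := by
    intro S hS
    rw [Finset.mem_coe, Finset.mem_image] at hS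
    obtain ⟨p, hp, rfl⟩ := hS
    exact ⟨A p, hA1 p hp, by rw [hA2 p hp, hFn], rfl⟩
  have henc := Set.encard_le_encard hsub
  rw [Set.encard_coe_eq_coe_finsetCard] at henc
  calc ENNReal.ofReal (c1 / 10 ^ 13 * (n : ℝ) ^ 2 / Real.log |(n : ℝ)| ^ 4)
      ≤ ENNReal.ofReal ((P.image (fun p => Cls (A p))).card : ℝ) :=
        ENNReal.ofReal_le_ofReal hmain
    _ = (((P.image (fun p => Cls (A p))).card : ℕ∞) : ENNReal) := by
        rw [ENNReal.ofReal_natCast]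
        rfl
    _ ≤ _ := by
        exact_mod_cast henc


end Pool.Agent.Lib_helper34.GCE
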