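import Pool.Agent.Lib_helper34.GCE.Defs

/-! # GCE, block N0 -/

set_option autoImplicit false

namespace Pool.Agent.Lib_helper34.GCE

open Pool.Agent.Lib_helper83.CS Pool.Agent.Lib_helper72.GC

theorem n0_pow {q : ℕ} {χ : ℕ → ℝ} (h : Chi q χ) (a k : ℕ) : χ (a ^ k) = χ a ^ k := by
  induction k with
  | zero => rw [pow_zero, pow_zero, h.one]
  | succ k ih => rw [pow_succ, pow_succ, h.mul, ih]

/-- `χ` as an arithmetic function -/
def n0_af (χ : ℕ → ℝ) : ArithmeticFunction ℝ := ⟨fun n => if n = 0 then 0 else χ n, by simp⟩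

theorem n0_af_apply (χ : ℕ → ℝ) {n : ℕ} (hn : n ≠ 0) : n0_af χ n = χ n := by
  show (if n = 0 then 0 else χ n) = χ n
  rw [if_neg hn]

theorem n0_mult {q : ℕ} {χ : ℕ → ℝ} (h : Chi q χ) : (n0_af χ).IsMultiplicative := by
  constructor
  · rw [n0_af_apply χ one_ne_zero, h.one]
  · intro m n _
    by_cases hm : m = 0
    · subst hm
      simp
    by_cases hn : n = 0
    · subst hn
      simp
    rw [n0_af_apply χ hm, n0_af_apply χ hn, n0_af_apply χ (Nat.mul_ne_zero hm hn), h.mul]

theorem n0_rr (χ : ℕ → ℝ) (m : ℕ) :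
    rr χ m = ((ArithmeticFunction.zeta : ArithmeticFunction ℝ) * n0_af χ) m := by
  rw [ArithmeticFunction.coe_zeta_mul_apply, rr]
  apply Finset.sum_congr rfl
  intro d hd
  rw [n0_af_apply χ (Nat.pos_of_mem_divisors hd).ne']

theorem rr_nonneg_pr {q : ℕ} {χ : ℕ → ℝ} (h : Chi q χ) (m : ℕ) : 0 ≤ rr χ m := by
  have hm : ((ArithmeticFunction.zeta : ArithmeticFunction ℝ) * n0_af χ).IsMultiplicative :=
    ArithmeticFunction.isMultiplicative_zeta.natCast.mul (n0_mult h)
  induction m using Nat.recOnPosPrimePosCoprime with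
  | zero => simp [rr]
  | one =>
    rw [rr, Nat.divisors_one, Finset.sum_singleton, h.one]
    exact zero_le_one
  | prime_pow p k hp hk =>
    rw [rr, Nat.sum_divisors_prime_pow hp]
    rw [Finset.sum_congr rfl (fun i _ => n0_pow h p i)]
    rcases h.val p with h1 | h1 | h1
    · rw [h1]
      exact Finset.sum_nonneg fun i _ => pow_nonneg le_rfl i
    · rw [h1]
      exact Finset.sum_nonneg fun i _ => pow_nonneg zero_le_one i
    · rw [h1, neg_one_geom_sum]
      split_ifs
      · exact le_rfl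
      · exact zero_le_one
  | coprime a b ha hb hab h1 h2 =>
    rw [n0_rr, hm.map_mul_of_coprime hab, ← n0_rr, ← n0_rr]
    exact mul_nonneg h1 h2

theorem rr_prime_pr {q : ℕ} {χ : ℕ → ℝ} (h : Chi q χ) {p : ℕ} (hp : p.Prime) :
    rr χ p = 1 + χ p := by
  rw [rr, hp.sum_divisors, h.one, add_comm]


end Pool.Agent.Lib_helper34.GCE
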